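import Mathlib

set_option autoImplicit false

/-! Definitions: hyperbolic groups, the Gromov boundary, EZ-structures. -/

namespace Pool.Agent.Helper852.EZ

open Topology

section hyperbolic

variable {G : Type} [Group G]

/-- The Cayley graph of `G` with respect to `S`: `x` and `y` are adjacent if `y = x s` or
`x = y s` for some `s ∈ S`. -/
def cayley (S : Set G) : SimpleGraph G := SimpleGraph.fromRel (fun x y => x⁻¹ * y ∈ S)

/-- The Gromov product of `x` and `y` based at `o`, for the distance of the Cayley graph. -/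
noncomputable def gprod (S : Set G) (o x y : G) : ℝ :=
  (((cayley S).dist x o : ℝ) + ((cayley S).dist y o : ℝ) - ((cayley S).dist x y : ℝ)) / 2

/-- `S` is a finite generating set of `G` whose Cayley graph is Gromov hyperbolic (four point
condition). -/
def HypGen (S : Set G) : Prop :=
  S.Finite ∧ Subgroup.closure S = ⊤ ∧
    ∃ δ : ℝ, ∀ o x y z : G, min (gprod S o x z) (gprod S o z y) - δ ≤ gprod S o x y

/-- A sequence in `G` converging to infinity in the sense of Gromov. -/
structure GSeq (S : Set G) where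
  /-- the sequence -/
  seq : ℕ → G
  conv : ∀ (o : G) (R : ℝ), ∃ N : ℕ, ∀ m ≥ N, ∀ n ≥ N, R ≤ gprod S o (seq m) (seq n)

/-- Two sequences converging to infinity are equivalent if their Gromov products tend to
infinity. -/
def GSeq.Equiv {S : Set G} (u v : GSeq S) : Prop :=
  ∀ (o : G) (R : ℝ), ∃ N : ℕ, ∀ n ≥ N, R ≤ gprod S o (u.seq n) (v.seq n)

/-- The Gromov boundary of `G`: classes of sequences converging to infinity. -/
def Bdry (S : Set G) : Type := Quot (GSeq.Equiv (S := S))

/-- The boundary point defined by a sequence converging to infinity. -/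
def GSeq.lim {S : Set G} (u : GSeq S) : Bdry S := Quot.mk _ u

/-- The Gromov product of the boundary points `ξ` and `η` is at least `R`. -/
def Near {S : Set G} (o : G) (R : ℝ) (ξ η : Bdry S) : Prop :=
  ∃ u v : GSeq S, u.lim = ξ ∧ v.lim = η ∧
    ∃ N : ℕ, ∀ m ≥ N, ∀ n ≥ N, R ≤ gprod S o (u.seq m) (v.seq n)

/-- The usual topology of the Gromov boundary: a set is open if with each of its points `ξ` it
contains all `η` whose Gromov product with `ξ` is large enough. -/
instance Bdry.instTopologicalSpace (S : Set G) : TopologicalSpace (Bdry S) where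
  IsOpen U := ∀ ξ ∈ U, ∀ o : G, ∃ R : ℝ, ∀ η, Near o R ξ η → η ∈ U
  isOpen_univ := fun _ _ _ => ⟨0, fun _ _ => trivial⟩
  isOpen_inter := by
    intro U V hU hV ξ hξ o
    obtain ⟨R, hR⟩ := hU ξ hξ.1 o
    obtain ⟨R', hR'⟩ := hV ξ hξ.2 o
    refine ⟨max R R', fun η h => ?_⟩
    obtain ⟨u, v, hu, hv, N, hN⟩ := h
    exact ⟨hR η ⟨u, v, hu, hv, N, fun m hm n hn => (le_max_left _ _).trans (hN m hm n hn)⟩,
      hR' η ⟨u, v, hu, hv, N, fun m hm n hn => (le_max_right _ _).trans (hN m hm n hn)⟩⟩
  isOpen_sUnion := by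
    intro T hT ξ hξ o
    obtain ⟨U, hU, hξU⟩ := hξ
    obtain ⟨R, hR⟩ := hT U hU ξ hξU o
    exact ⟨R, fun η h => ⟨U, hU, hR η h⟩⟩

theorem cayley_adj_mul (S : Set G) (g x y : G) :
    (cayley S).Adj (g * x) (g * y) ↔ (cayley S).Adj x y := by
  simp [cayley, mul_assoc]

/-- Left multiplication is an automorphism of the Cayley graph. -/
def cayleyMul (S : Set G) (g : G) : cayley S ≃g cayley S where
  toEquiv := Equiv.mulLeft g
  map_rel_iff' := cayley_adj_mul S g _ _

theorem cayley_dist_mul (S : Set G) (g x y : G) :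
    (cayley S).dist (g * x) (g * y) = (cayley S).dist x y := by
  rw [SimpleGraph.dist_eq_sInf, SimpleGraph.dist_eq_sInf]
  congr 1
  ext n
  constructor
  · rintro ⟨w, rfl⟩
    refine ⟨(w.map (cayleyMul S g⁻¹).toHom).copy (inv_mul_cancel_left g x)
      (inv_mul_cancel_left g y), ?_⟩
    rw [SimpleGraph.Walk.length_copy, SimpleGraph.Walk.length_map]
  · rintro ⟨w, rfl⟩
    exact ⟨w.map (cayleyMul S g).toHom, SimpleGraph.Walk.length_map _ _⟩

theorem gprod_mul (S : Set G) (g o x y : G) :
    gprod S (g * o) (g * x) (g * y) = gprod S o x y := by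
  simp [gprod, cayley_dist_mul]

theorem gprod_mul' (S : Set G) (g o x y : G) :
    gprod S o (g * x) (g * y) = gprod S (g⁻¹ * o) x y := by
  rw [← gprod_mul S g (g⁻¹ * o) x y, mul_inv_cancel_left]

/-- The translate of a sequence converging to infinity. -/
def GSeq.act {S : Set G} (g : G) (u : GSeq S) : GSeq S where
  seq := fun n => g * u.seq n
  conv := by
    intro o R
    obtain ⟨N, hN⟩ := u.conv (g⁻¹ * o) R
    exact ⟨N, fun m hm n hn => by rw [gprod_mul']; exact hN m hm n hn⟩

/-- The action of `G` on its Gromov boundary, induced by left multiplication. -/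
def Bdry.act {S : Set G} (g : G) : Bdry S → Bdry S :=
  Quot.map (GSeq.act g) (by
    intro u v h o R
    obtain ⟨N, hN⟩ := h (g⁻¹ * o) R
    exact ⟨N, fun n hn => by
      show R ≤ gprod S o (g * u.seq n) (g * v.seq n)
      rw [gprod_mul']; exact hN n hn⟩)

end hyperbolic

section EZ

/-- A Euclidean retract: a compact space which embeds in some `ℝ^n` as a retract. -/
def IsER (Y : Type) [TopologicalSpace Y] : Prop :=
  CompactSpace Y ∧ ∃ (n : ℕ) (e : Y → EuclideanSpace ℝ (Fin n)) (r : EuclideanSpace ℝ (Fin n) → Y),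
    IsEmbedding e ∧ Continuous r ∧ ∀ y, r (e y) = y

/-- A `𝒵`-set: a closed set `Z` such that for every open set `U` the inclusion of `U \ Z` into `U`
is a homotopy equivalence. -/
def IsZSet {Y : Type} [TopologicalSpace Y] (Z : Set Y) : Prop :=
  IsClosed Z ∧ ∀ U : Set Y, IsOpen U →
    ∃ h : ContinuousMap.HomotopyEquiv (↥(U \ Z)) (↥U), ∀ x, ((h.toFun x : ↥U) : Y) = (x : Y)

/-- `(Y, Z)` with the given action of `G` on `Y` is an EZ-structure on `G`. -/
structure IsEZStructure (G : Type) [Group G] (Y : Type) [MetricSpace Y] [MulAction G Y]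
    (Z : Set Y) : Prop where
  /-- `Y` is a Euclidean retract -/
  er : IsER Y
  /-- `Z` is a `𝒵`-set in `Y` -/
  zset : IsZSet Z
  /-- `G` acts on `Y` by homeomorphisms -/
  cont : ∀ g : G, Continuous (fun y : Y => g • y)
  /-- the action preserves `Z` (and hence the complement of `Z`) -/
  inv : ∀ (g : G) (y : Y), y ∈ Z → g • y ∈ Z
  /-- the action on the complement of `Z` is a covering space action -/
  cover : ∀ x : Y, x ∉ Z → ∃ V ∈ 𝓝 x, ∀ g : G, g ≠ 1 → Disjoint ((fun y => g • y) '' V) V
  /-- the quotient of the complement of `Z` is compact -/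
  cocompact : CompactSpace (Quot (fun a b : {y : Y // y ∉ Z} => ∃ g : G, g • (a : Y) = (b : Y)))
  /-- the translates of a compact set form a null family -/
  null : ∀ K : Set Y, IsCompact K → K ⊆ Zᶜ → ∀ ε : ℝ, 0 < ε →
    {g : G | ε < Metric.diam ((fun y => g • y) '' K)}.Finite

end EZ

end Pool.Agent.Helper852.EZ
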