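import Mathlib
import Pool.Agent.Helper852.EZ.Defs

set_option autoImplicit false

/-! An element of infinite order of a hyperbolic group fixes at most two boundary points. -/

namespace Pool.Agent.Helper852.EZ.J1

open Topology




section aux

variable {G : Type} [Group G] {S : Set G}

theorem cay_reach (hgen : Subgroup.closure S = ⊤) (x : G) : (cayley S).Reachable 1 x := by
  have hx : x ∈ Subgroup.closure S := by rw [hgen]; trivial
  induction hx using Subgroup.closure_induction with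
  | mem s hs =>
    by_cases h1 : (1 : G) = s
    · rw [← h1]
    · apply SimpleGraph.Adj.reachable
      rw [cayley, SimpleGraph.fromRel_adj]
      exact ⟨h1, Or.inl (by simpa using hs)⟩
  | one => exact SimpleGraph.Reachable.refl _
  | mul x y _ _ hx hy =>
    have h2 := hy.map (cayleyMul S x).toHom
    have e1 : (cayleyMul S x).toHom 1 = x := mul_one x
    have e2 : (cayleyMul S x).toHom y = x * y := rfl
    rw [e1, e2] at h2
    exact hx.trans h2
  | inv x _ hx =>
    have h2 := hx.map (cayleyMul S x⁻¹).toHom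
    have e1 : (cayleyMul S x⁻¹).toHom 1 = x⁻¹ := mul_one _
    have e2 : (cayleyMul S x⁻¹).toHom x = 1 := inv_mul_cancel x
    rw [e1, e2] at h2
    exact h2.symm

theorem cay_conn (hgen : Subgroup.closure S = ⊤) : (cayley S).Connected := by
  rw [SimpleGraph.connected_iff]
  exact ⟨fun x y => (cay_reach hgen x).symm.trans (cay_reach hgen y), ⟨1⟩⟩

theorem walk_finite (hS : S.Finite) (n : ℕ) :
    {x : G | ∃ w : (cayley S).Walk x 1, w.length = n}.Finite := by
  induction n with
  | zero =>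
    refine (Set.finite_singleton (1 : G)).subset ?_
    rintro x ⟨w, hw⟩
    exact SimpleGraph.Walk.eq_of_length_eq_zero hw
  | succ n ih =>
    have hfin : (Set.image2 (fun y s => y * s)
        {x : G | ∃ w : (cayley S).Walk x 1, w.length = n} (S ∪ S⁻¹)).Finite :=
      ih.image2 _ (hS.union hS.inv)
    refine hfin.subset ?_
    rintro x ⟨w, hw⟩
    cases w with
    | nil => simp at hw
    | @cons _ y _ hadj p =>
      rw [SimpleGraph.Walk.length_cons] at hw
      have hp : p.length = n := by omega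
      rw [cayley, SimpleGraph.fromRel_adj] at hadj
      rcases hadj.2 with h1 | h1
      · exact ⟨y, ⟨p, hp⟩, y⁻¹ * x, Or.inr (by rw [Set.mem_inv]; simpa using h1), by simp⟩
      · exact ⟨y, ⟨p, hp⟩, y⁻¹ * x, Or.inl h1, by simp⟩

theorem ball_finite (hS : S.Finite) (hgen : Subgroup.closure S = ⊤) (M : ℕ) :
    {x : G | (cayley S).dist x 1 ≤ M}.Finite := by
  have hfin : (⋃ n ∈ Finset.range (M + 1),
      {x : G | ∃ w : (cayley S).Walk x 1, w.length = n}).Finite :=
    Set.Finite.biUnion (Finset.finite_toSet _) fun n _ => walk_finite hS n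
  refine hfin.subset ?_
  intro x hx
  obtain ⟨w, hw⟩ := (cay_conn hgen).exists_walk_length_eq_dist x 1
  simp only [Set.mem_iUnion]
  exact ⟨(cayley S).dist x 1, Finset.mem_range.2 (Nat.lt_succ_of_le hx), w, hw⟩

theorem pow_far (hS : S.Finite) (hgen : Subgroup.closure S = ⊤) (h : G)
    (hinf : ∀ n : ℕ, 0 < n → h ^ n ≠ 1) (M : ℝ) : ∃ n : ℕ, M < ((cayley S).dist (h ^ n) 1 : ℝ) := by
  by_contra hcon
  push Not at hcon
  obtain ⟨K, hK⟩ := exists_nat_ge M
  have hinj : Function.Injective (fun n : ℕ => h ^ n) := by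
    have key : ∀ a b : ℕ, a < b → h ^ a ≠ h ^ b := by
      intro a b hab heq
      apply hinf (b - a) (by omega)
      have : h ^ b = h ^ a * h ^ (b - a) := by rw [← pow_add]; congr 1; omega
      rw [this] at heq
      exact (mul_eq_left.1 heq.symm)
    intro a b hab
    rcases lt_trichotomy a b with h1 | h1 | h1
    · exact absurd hab (key a b h1)
    · exact h1
    · exact absurd hab.symm (key b a h1)
  refine Set.infinite_of_injective_forall_mem (s := {x : G | (cayley S).dist x 1 ≤ K}) hinj ?_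
    (ball_finite hS hgen K)
  intro n
  have := (hcon n).trans hK
  exact_mod_cast this

theorem gprod_comm (o x y : G) : gprod S o x y = gprod S o y x := by
  unfold gprod
  rw [SimpleGraph.dist_comm (u := x) (v := y)]
  ring

theorem gprod_le (hgen : Subgroup.closure S = ⊤) (o x y : G) :
    gprod S o x y ≤ ((cayley S).dist y o : ℝ) := by
  unfold gprod
  have h1 : ((cayley S).dist x o : ℝ) ≤ (cayley S).dist x y + (cayley S).dist y o := by
    exact_mod_cast (cay_conn hgen).dist_triangle (u := x) (v := y) (w := o)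
  linarith

theorem gprod_base (hgen : Subgroup.closure S = ⊤) (o o' x y : G) :
    gprod S o' x y ≤ gprod S o x y + ((cayley S).dist o o' : ℝ) := by
  unfold gprod
  have h1 : ((cayley S).dist x o' : ℝ) ≤ (cayley S).dist x o + (cayley S).dist o o' := by
    exact_mod_cast (cay_conn hgen).dist_triangle (u := x) (v := o) (w := o')
  have h2 : ((cayley S).dist y o' : ℝ) ≤ (cayley S).dist y o + (cayley S).dist o o' := by
    exact_mod_cast (cay_conn hgen).dist_triangle (u := y) (v := o) (w := o')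
  linarith

theorem gprod_star (g x : G) :
    gprod S 1 (g * x) g + gprod S 1 x g⁻¹ = ((cayley S).dist g 1 : ℝ) := by
  unfold gprod
  have e1 : (cayley S).dist (g * x) g = (cayley S).dist x 1 := by
    have := cayley_dist_mul S g x 1
    rwa [mul_one] at this
  have e2 : (cayley S).dist x g⁻¹ = (cayley S).dist (g * x) 1 := by
    have := cayley_dist_mul S g x g⁻¹
    rw [mul_inv_cancel] at this
    exact this.symm
  have e3 : (cayley S).dist g⁻¹ 1 = (cayley S).dist g 1 := by
    have := cayley_dist_mul S g g⁻¹ 1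
    rw [mul_inv_cancel, mul_one] at this
    rw [← this, SimpleGraph.dist_comm]
  rw [e1, e2, e3]
  ring

/-- Gromov products tend to infinity -/
def Tend (S : Set G) (a b : ℕ → G) : Prop :=
  ∀ (o : G) (R : ℝ), ∃ N : ℕ, ∀ n ≥ N, R ≤ gprod S o (a n) (b n)

theorem Tend.symm {a b : ℕ → G} (h : Tend S a b) : Tend S b a := by
  intro o R
  obtain ⟨N, hN⟩ := h o R
  exact ⟨N, fun n hn => by rw [gprod_comm]; exact hN n hn⟩

theorem Tend.trans {δ : ℝ}
    (hδ : ∀ o x y z : G, min (gprod S o x z) (gprod S o z y) - δ ≤ gprod S o x y)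
    {a b c : ℕ → G} (h1 : Tend S a b) (h2 : Tend S b c) : Tend S a c := by
  intro o R
  obtain ⟨N1, hN1⟩ := h1 o (R + δ)
  obtain ⟨N2, hN2⟩ := h2 o (R + δ)
  refine ⟨max N1 N2, fun n hn => ?_⟩
  have e1 := hN1 n ((le_max_left _ _).trans hn)
  have e2 := hN2 n ((le_max_right _ _).trans hn)
  have e3 := hδ o (a n) (c n) (b n)
  have e4 : R + δ ≤ min (gprod S o (a n) (b n)) (gprod S o (b n) (c n)) := le_min e1 e2
  linarith

theorem Tend.mul {a b : ℕ → G} (h : Tend S a b) (g : G) :
    Tend S (fun k => g * a k) (fun k => g * b k) := by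
  intro o R
  obtain ⟨N, hN⟩ := h (g⁻¹ * o) R
  exact ⟨N, fun n hn => by rw [gprod_mul']; exact hN n hn⟩

theorem gseq_tend_self (u : GSeq S) : Tend S u.seq u.seq := by
  intro o R
  obtain ⟨N, hN⟩ := u.conv o R
  exact ⟨N, fun n hn => hN n hn n hn⟩

theorem equiv_of_eq {δ : ℝ}
    (hδ : ∀ o x y z : G, min (gprod S o x z) (gprod S o z y) - δ ≤ gprod S o x y)
    {u v : GSeq S} (h : (Quot.mk _ u : Bdry S) = Quot.mk _ v) : Tend S u.seq v.seq := by
  have h1 := Quot.eqvGen_exact h
  clear h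
  induction h1 with
  | rel x y h' => exact h'
  | refl x => exact (gseq_tend_self x)
  | symm x y _ ih => exact ih.symm
  | trans x y z _ _ ih1 ih2 => exact ih1.trans hδ ih2

theorem bounded_of_not_tend (hgen : Subgroup.closure S = ⊤) {δ : ℝ} (hδ0 : 0 ≤ δ)
    (hδ : ∀ o x y z : G, min (gprod S o x z) (gprod S o z y) - δ ≤ gprod S o x y)
    (u v : GSeq S) (h : ¬ Tend S u.seq v.seq) :
    ∃ (R : ℝ) (N : ℕ), ∀ k ≥ N, gprod S 1 (u.seq k) (v.seq k) ≤ R := by
  unfold Tend at h
  push Not at h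
  obtain ⟨o, R0, hR0⟩ := h
  obtain ⟨N1, hN1⟩ := u.conv o (R0 + 2 * δ)
  obtain ⟨N2, hN2⟩ := v.conv o (R0 + 2 * δ)
  refine ⟨R0 + 2 * δ + ((cayley S).dist o 1 : ℝ), max N1 N2, fun k hk => ?_⟩
  have hk1 : k ≥ N1 := (le_max_left _ _).trans hk
  have hk2 : k ≥ N2 := (le_max_right _ _).trans hk
  obtain ⟨m, hm, hlt⟩ := hR0 (max N1 N2)
  have hm1 : m ≥ N1 := (le_max_left _ _).trans hm
  have hm2 : m ≥ N2 := (le_max_right _ _).trans hm
  have e1 := hδ o (u.seq m) (v.seq m) (u.seq k)
  have e2 := hδ o (u.seq k) (v.seq m) (v.seq k)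
  have e3 := hN1 m hm1 k hk1
  have e4 := hN2 k hk2 m hm2
  have e5 : gprod S o (u.seq k) (v.seq k) ≤ R0 + 2 * δ := by
    by_contra hcon
    push Not at hcon
    have e6 : R0 + 2 * δ ≤ min (gprod S o (u.seq k) (v.seq k)) (gprod S o (v.seq k) (v.seq m)) :=
      le_min hcon.le e4
    have e7 : R0 + δ ≤ gprod S o (u.seq k) (v.seq m) := by linarith
    have e8 : R0 + δ ≤ min (gprod S o (u.seq m) (u.seq k)) (gprod S o (u.seq k) (v.seq m)) :=
      le_min (by linarith) e7
    linarith
  have e9 := gprod_base hgen o 1 (u.seq k) (v.seq k)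
  linarith

end aux

/-- TARGET. An element of infinite order fixes at most two points of the Gromov boundary. -/
theorem fixed_le_two {G : Type} [Group G] (S : Set G) (hS : HypGen S) (h : G)
    (hinf : ∀ n : ℕ, 0 < n → h ^ n ≠ 1) (ξ : Fin 3 → Bdry S)
    (hfix : ∀ i, Bdry.act h (ξ i) = ξ i) : ¬ Function.Injective ξ := by
  intro hinj
  obtain ⟨hSf, hgen, δ', hδ'⟩ := hS
  obtain ⟨δ, hδ0, hδ⟩ : ∃ δ : ℝ, 0 ≤ δ ∧ ∀ o x y z : G,
      min (gprod S o x z) (gprod S o z y) - δ ≤ gprod S o x y := by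
    refine ⟨max δ' 0, le_max_right _ _, fun o x y z => ?_⟩
    have := hδ' o x y z
    have h2 := le_max_left δ' 0
    linarith
  have hrep : ∀ i, ∃ u : GSeq S, (Quot.mk _ u : Bdry S) = ξ i := fun i => Quot.exists_rep (ξ i)
  choose u hu using hrep
  have h1 : ∀ i, Tend S (fun k => h * (u i).seq k) (u i).seq := by
    intro i
    have h2 := hfix i
    rw [← hu i] at h2
    exact equiv_of_eq hδ (u := GSeq.act h (u i)) (v := u i) h2
  have hpow : ∀ (n : ℕ) i, Tend S (fun k => h ^ n * (u i).seq k) (u i).seq := by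
    intro n i
    induction n with
    | zero =>
      simp only [pow_zero, one_mul]
      exact gseq_tend_self (u i)
    | succ n ih =>
      have h3 := (h1 i).mul (h ^ n)
      have h4 : (fun k => h ^ n * (h * (u i).seq k)) = fun k => h ^ (n + 1) * (u i).seq k := by
        funext k
        rw [pow_succ, mul_assoc]
      rw [h4] at h3
      exact h3.trans hδ ih
  have hpair : ∀ p : Fin 3 × Fin 3, ∃ (R : ℝ) (N : ℕ), p.1 ≠ p.2 →
      ∀ k ≥ N, gprod S 1 ((u p.1).seq k) ((u p.2).seq k) ≤ R := by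
    rintro ⟨i, j⟩
    by_cases hij : i = j
    · exact ⟨0, 0, fun hne => absurd hij hne⟩
    · have hnt : ¬ Tend S (u i).seq (u j).seq := by
        intro ht
        apply hij
        apply hinj
        rw [← hu i, ← hu j]
        exact Quot.sound ht
      obtain ⟨R, N, hRN⟩ := bounded_of_not_tend hgen hδ0 hδ (u i) (u j) hnt
      exact ⟨R, N, fun _ => hRN⟩
  choose R1 N1 hRN using hpair
  obtain ⟨R, hR⟩ := (Set.finite_range R1).bddAbove
  obtain ⟨N, hN⟩ := (Set.finite_range N1).bddAbove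
  have hR' : ∀ p, R1 p ≤ R := fun p => hR ⟨p, rfl⟩
  have hN' : ∀ p, N1 p ≤ N := fun p => hN ⟨p, rfl⟩
  obtain ⟨n, hn⟩ := pow_far hSf hgen h hinf (2 * R + 3 * δ)
  set g := h ^ n with hg
  set L : ℝ := ((cayley S).dist g 1 : ℝ) with hL
  have hK : ∀ i, ∃ K : ℕ, ∀ k ≥ K, L ≤ gprod S 1 (g * (u i).seq k) ((u i).seq k) :=
    fun i => hpow n i 1 L
  choose K hK using hK
  obtain ⟨K0, hK0⟩ := (Set.finite_range K).bddAbove
  have hK0' : ∀ i, K i ≤ K0 := fun i => hK0 ⟨i, rfl⟩
  set k := max N K0 with hk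
  have hchoice : ∀ i, (L - δ) / 2 ≤ gprod S 1 ((u i).seq k) g ∨
      (L - δ) / 2 ≤ gprod S 1 ((u i).seq k) g⁻¹ := by
    intro i
    have e1 := hδ 1 ((u i).seq k) g (g * (u i).seq k)
    have e2 := hK i k ((hK0' i).trans (le_max_right _ _))
    rw [gprod_comm] at e2
    have e3 := gprod_le hgen 1 (g * (u i).seq k) g
    have e4 := gprod_star (S := S) g ((u i).seq k)
    rw [min_eq_right (e3.trans e2)] at e1
    by_contra hcon
    push Not at hcon
    linarith [hcon.1, hcon.2]
  have hfin : ∀ i j, i ≠ j → ∀ w : G, (L - δ) / 2 ≤ gprod S 1 ((u i).seq k) w →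
      (L - δ) / 2 ≤ gprod S 1 ((u j).seq k) w → False := by
    intro i j hij w hi hj
    have e1 := hδ 1 ((u i).seq k) ((u j).seq k) w
    rw [gprod_comm 1 w ((u j).seq k)] at e1
    have e2 : (L - δ) / 2 ≤ min (gprod S 1 ((u i).seq k) w) (gprod S 1 ((u j).seq k) w) :=
      le_min hi hj
    have e3 := hRN (i, j) hij k ((hN' _).trans (le_max_left _ _))
    have e4 := hR' (i, j)
    simp only at e3
    linarith
  rcases hchoice 0 with h0 | h0 <;> rcases hchoice 1 with h1' | h1' <;>
    rcases hchoice 2 with h2 | h2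
  · exact hfin 0 1 (by decide) _ h0 h1'
  · exact hfin 0 1 (by decide) _ h0 h1'
  · exact hfin 0 2 (by decide) _ h0 h2
  · exact hfin 1 2 (by decide) _ h1' h2
  · exact hfin 1 2 (by decide) _ h1' h2
  · exact hfin 0 2 (by decide) _ h0 h2
  · exact hfin 0 1 (by decide) _ h0 h1'
  · exact hfin 0 1 (by decide) _ h0 h1'

end Pool.Agent.Helper852.EZ.J1
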