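import Mathlib

set_option autoImplicit false

/-! A congruence subgroup of the unit group of an order in the quaternion algebra `(2,3)` over the
rationals, as a subgroup of `SL(2,ℝ)`. -/

namespace Pool.Agent.Helper852.EZ

open scoped MatrixGroups
open Matrix

/-- The matrix of the quaternion `x + y i + z j + w ij`, with `i^2 = 2`, `j^2 = 3`. -/
noncomputable def Qm (x y z w : ℤ) : Matrix (Fin 2) (Fin 2) ℝ :=
  !![(x : ℝ) + y * √2, 3 * ((z : ℝ) + w * √2); (z : ℝ) - w * √2, (x : ℝ) - y * √2]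

theorem Qm_det (x y z w : ℤ) :
    (Qm x y z w).det = ((x ^ 2 - 2 * y ^ 2 - 3 * z ^ 2 + 6 * w ^ 2 : ℤ) : ℝ) := by
  have h2 : √2 * √2 = (2 : ℝ) := Real.mul_self_sqrt (by norm_num)
  rw [Qm, Matrix.det_fin_two_of]
  push_cast
  linear_combination (-(y : ℝ) ^ 2 + 3 * (w : ℝ) ^ 2) * h2

theorem Qm_mul (x y z w x' y' z' w' : ℤ) :
    Qm x y z w * Qm x' y' z' w' =
      Qm (x * x' + 2 * y * y' + 3 * z * z' - 6 * w * w') (x * y' + y * x' - 3 * z * w' + 3 * w * z')
        (x * z' + z * x' + 2 * y * w' - 2 * w * y') (x * w' + w * x' + y * z' - z * y') := by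
  have h2 : √2 * √2 = (2 : ℝ) := Real.mul_self_sqrt (by norm_num)
  ext i j
  fin_cases i <;> fin_cases j <;> simp [Qm, Matrix.mul_apply, Fin.sum_univ_two]
  · linear_combination ((y : ℝ) * y' - 3 * w * w') * h2
  · linear_combination (3 * (y : ℝ) * w' - 3 * w * y') * h2
  · linear_combination (- (w : ℝ) * y' + y * w') * h2
  · linear_combination ((y : ℝ) * y' - 3 * w * w') * h2

/-- The group: units of norm one of the order which are congruent to `1` modulo `3`. -/
def Gam : Subgroup SL(2, ℝ) where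
  carrier := {g | ∃ x y z w : ℤ, (g : Matrix (Fin 2) (Fin 2) ℝ) = Qm (1 + 3 * x) (3 * y) (3 * z) (3 * w)}
  one_mem' := ⟨0, 0, 0, 0, by
    ext i j
    fin_cases i <;> fin_cases j <;> simp [Qm]⟩
  mul_mem' := by
    rintro a b ⟨x, y, z, w, ha⟩ ⟨x', y', z', w', hb⟩
    refine ⟨x + x' + 3 * (x * x' + 2 * y * y' + 3 * z * z' - 6 * w * w'),
      y + y' + 3 * (x * y' + y * x' - 3 * z * w' + 3 * w * z'),
      z + z' + 3 * (x * z' + z * x' + 2 * y * w' - 2 * w * y'),
      w + w' + 3 * (x * w' + w * x' + y * z' - z * y'), ?_⟩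
    rw [Matrix.SpecialLinearGroup.coe_mul, ha, hb, Qm_mul]
    congr 1 <;> ring
  inv_mem' := by
    rintro a ⟨x, y, z, w, ha⟩
    refine ⟨x, -y, -z, -w, ?_⟩
    rw [Matrix.SpecialLinearGroup.coe_inv, ha, Matrix.adjugate_fin_two]
    ext i j
    fin_cases i <;> fin_cases j <;> simp [Qm] <;> ring

end Pool.Agent.Helper852.EZ
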