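import Mathlib
import Pool.Agent.Helper852.EZ.Quat

set_option autoImplicit false

/-! A congruence subgroup of the unit group of an order in the quaternion algebra `(2,3)` over the
rationals, as a subgroup of `SL(2,ℝ)`. -/

namespace Pool.Agent.Helper852.EZ.J2a

open scoped MatrixGroups
open Matrix



/-- descent for `2 y^2 + 3 z^2 = 6 w^2` -/
theorem descent (n : ℕ) : ∀ y z w : ℤ, y.natAbs + z.natAbs + w.natAbs ≤ n →
    2 * y ^ 2 + 3 * z ^ 2 = 6 * w ^ 2 → y = 0 ∧ z = 0 ∧ w = 0 := by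
  induction n with
  | zero =>
    intro y z w h _
    omega
  | succ n ih =>
    intro y z w h he
    have h3 : (3 : ℤ) ∣ y := by
      have : (3 : ℤ) ∣ y ^ 2 := by omega
      exact Int.Prime.dvd_pow' (by norm_num) this
    obtain ⟨y1, rfl⟩ := h3
    have he2 : 6 * y1 ^ 2 + z ^ 2 = 2 * w ^ 2 := by nlinarith
    have hz : (3 : ℤ) ∣ z ∧ (3 : ℤ) ∣ w := by
      have h4 : (z ^ 2 + w ^ 2) % 3 = 0 := by omega
      have h5 : z % 3 = 0 ∨ z % 3 = 1 ∨ z % 3 = 2 := by omega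
      have h6 : w % 3 = 0 ∨ w % 3 = 1 ∨ w % 3 = 2 := by omega
      rcases h5 with h5 | h5 | h5 <;> rcases h6 with h6 | h6 | h6 <;>
        simp [pow_two, Int.add_emod, Int.mul_emod, h5, h6] at h4 ⊢ <;> omega
    obtain ⟨⟨z1, rfl⟩, ⟨w1, rfl⟩⟩ := hz
    have he3 : 2 * y1 ^ 2 + 3 * z1 ^ 2 = 6 * w1 ^ 2 := by nlinarith
    by_cases h0 : (3 * y1).natAbs + (3 * z1).natAbs + (3 * w1).natAbs = 0
    · omega
    · have := ih y1 z1 w1 (by omega) he3
      omega

/-- TARGET 1. Nontrivial elements are hyperbolic. -/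
theorem Gam_trace (g : SL(2, ℝ)) (hg : g ∈ Gam) (h1 : g ≠ 1) : 2 < |g 0 0 + g 1 1| := by
  obtain ⟨x, y, z, w, hm⟩ := hg
  have htr : g 0 0 + g 1 1 = ((2 * (1 + 3 * x) : ℤ) : ℝ) := by
    have h00 : g 0 0 = (Qm (1 + 3 * x) (3 * y) (3 * z) (3 * w)) 0 0 := by rw [← hm]
    have h11 : g 1 1 = (Qm (1 + 3 * x) (3 * y) (3 * z) (3 * w)) 1 1 := by rw [← hm]
    rw [h00, h11]
    simp [Qm]
    ring
  by_cases hx : x = 0
  · exfalso
    apply h1
    subst hx
    have hd := g.2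
    rw [hm, Qm_det] at hd
    have hd2 : ((1 + 3 * 0) ^ 2 - 2 * (3 * y) ^ 2 - 3 * (3 * z) ^ 2 + 6 * (3 * w) ^ 2 : ℤ) = 1 := by
      exact_mod_cast hd
    obtain ⟨rfl, rfl, rfl⟩ := descent _ y z w le_rfl (by nlinarith)
    apply Subtype.ext
    rw [hm]
    ext i j
    fin_cases i <;> fin_cases j <;> simp [Qm]
  · rw [htr, ← Int.cast_abs]
    have : (2 : ℤ) < |2 * (1 + 3 * x)| := by
      rcases lt_or_gt_of_ne hx with h | h
      · rw [abs_of_neg (by omega)]; omega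
      · rw [abs_of_pos (by omega)]; omega
    exact_mod_cast this

theorem det_eq (g : SL(2, ℝ)) : g 0 0 * g 1 1 - g 0 1 * g 1 0 = 1 := by
  have := g.2
  rw [Matrix.det_fin_two] at this
  exact this

open UpperHalfPlane in
theorem cosh_I (g : SL(2, ℝ)) : Real.cosh (dist (g • (UpperHalfPlane.I : ℍ)) UpperHalfPlane.I) =
    (g 0 0 ^ 2 + g 0 1 ^ 2 + g 1 0 ^ 2 + g 1 1 ^ 2) / 2 := by
  have hdet := det_eq g
  have hz : ((g • (UpperHalfPlane.I : ℍ) : ℍ) : ℂ) =
      ((g 0 0 : ℂ) * Complex.I + g 0 1) / (g 1 0 * Complex.I + g 1 1) := by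
    rw [UpperHalfPlane.coe_specialLinearGroup_apply]; simp
  generalize g 0 0 = a at *
  generalize g 0 1 = b at *
  generalize g 1 0 = c at *
  generalize g 1 1 = d at *
  have hpos : 0 < c ^ 2 + d ^ 2 := by
    by_contra hcon
    have h1 : c = 0 := by nlinarith [sq_nonneg c, sq_nonneg d]
    have h2 : d = 0 := by nlinarith [sq_nonneg c, sq_nonneg d]
    rw [h1, h2] at hdet
    simp at hdet
  have hne : ((c : ℂ) * Complex.I + d) ≠ 0 := by
    intro h
    have h1 := congrArg Complex.re h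
    have h2 := congrArg Complex.im h
    simp at h1 h2
    rw [h1, h2] at hpos
    simp at hpos
  have hz2 : ((g • (UpperHalfPlane.I : ℍ) : ℍ) : ℂ) =
      ⟨(a * c + b * d) / (c ^ 2 + d ^ 2), 1 / (c ^ 2 + d ^ 2)⟩ := by
    rw [hz, div_eq_iff hne]
    apply Complex.ext
    · simp
      field_simp
      linear_combination (-c) * hdet
    · simp
      field_simp
      linear_combination d * hdet
  have him : (g • (UpperHalfPlane.I : ℍ)).im = 1 / (c ^ 2 + d ^ 2) := by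
    rw [← UpperHalfPlane.coe_im, hz2]
  rw [UpperHalfPlane.cosh_dist, hz2, him, Complex.dist_eq, Complex.sq_norm, Complex.normSq_apply]
  simp only [UpperHalfPlane.coe_I, Complex.sub_re, Complex.sub_im, Complex.I_re, Complex.I_im,
    UpperHalfPlane.I_im]
  field_simp
  linear_combination (-(a * d - b * c + 1)) * hdet

open UpperHalfPlane in
/-- TARGET 2. Discreteness. -/
theorem Gam_finite (R : ℝ) :
    {g : SL(2, ℝ) | g ∈ Gam ∧ dist (g • (UpperHalfPlane.I : ℍ)) UpperHalfPlane.I ≤ R}.Finite := by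
  obtain ⟨N, hN⟩ := exists_nat_ge (2 * Real.cosh R)
  set Q : ℤ × ℤ × ℤ × ℤ → Matrix (Fin 2) (Fin 2) ℝ := fun q => Qm q.1 q.2.1 q.2.2.1 q.2.2.2 with hQ
  have hfin : (Q '' (Set.Icc (-N : ℤ) N ×ˢ Set.Icc (-N : ℤ) N ×ˢ Set.Icc (-N : ℤ) N ×ˢ
      Set.Icc (-N : ℤ) N)).Finite :=
    (((Set.finite_Icc _ _).prod ((Set.finite_Icc _ _).prod ((Set.finite_Icc _ _).prod
      (Set.finite_Icc _ _))))).image Q
  refine (hfin.preimage (f := fun g : SL(2, ℝ) => (g : Matrix (Fin 2) (Fin 2) ℝ))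
    (Function.Injective.injOn Subtype.val_injective)).subset ?_
  rintro g ⟨⟨x, y, z, w, hm⟩, hd⟩
  have h1 : Real.cosh (dist (g • (UpperHalfPlane.I : ℍ)) UpperHalfPlane.I) ≤ Real.cosh R := by
    rw [Real.cosh_le_cosh, abs_of_nonneg dist_nonneg, abs_of_nonneg (dist_nonneg.trans hd)]
    exact hd
  rw [cosh_I] at h1
  have h00 : g 0 0 = (Qm (1 + 3 * x) (3 * y) (3 * z) (3 * w)) 0 0 := by rw [← hm]
  have h01 : g 0 1 = (Qm (1 + 3 * x) (3 * y) (3 * z) (3 * w)) 0 1 := by rw [← hm]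
  have h10 : g 1 0 = (Qm (1 + 3 * x) (3 * y) (3 * z) (3 * w)) 1 0 := by rw [← hm]
  have h11 : g 1 1 = (Qm (1 + 3 * x) (3 * y) (3 * z) (3 * w)) 1 1 := by rw [← hm]
  rw [h00, h01, h10, h11] at h1
  rw [Set.mem_preimage]
  simp only [hm]
  refine ⟨(1 + 3 * x, 3 * y, 3 * z, 3 * w), ?_, rfl⟩
  generalize 1 + 3 * x = X at *
  generalize 3 * y = Y at *
  generalize 3 * z = Z at *
  generalize 3 * w = W at *
  have h2 : √2 * √2 = (2 : ℝ) := Real.mul_self_sqrt (by norm_num)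
  have h3 : (2 * (X : ℝ) ^ 2 + 4 * Y ^ 2) + (2 * (Z : ℝ) ^ 2 + 4 * W ^ 2) ≤ N := by
    simp only [Qm, Matrix.of_apply, Matrix.cons_val', Matrix.cons_val_zero, Matrix.cons_val_one,
      Matrix.cons_val_fin_one] at h1
    nlinarith [sq_nonneg ((Z : ℝ) + W * √2), sq_nonneg ((Z : ℝ) - W * √2)]
  have h4 : (2 * X ^ 2 + 4 * Y ^ 2) + (2 * Z ^ 2 + 4 * W ^ 2) ≤ (N : ℤ) := by exact_mod_cast h3
  have key : ∀ t : ℤ, t ^ 2 ≤ N → t ∈ Set.Icc (-N : ℤ) N := by
    intro t ht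
    rw [Set.mem_Icc]
    constructor <;> nlinarith
  refine ⟨key _ ?_, key _ ?_, key _ ?_, key _ ?_⟩ <;>
    nlinarith [sq_nonneg X, sq_nonneg Y, sq_nonneg Z, sq_nonneg W]

open UpperHalfPlane in
/-- TARGET 3. Hyperbolic matrices have no fixed points in the upper half plane. -/
theorem no_fixed (g : SL(2, ℝ)) (h : 2 < |g 0 0 + g 1 1|) (z : ℍ) : g • z ≠ z := by
  intro hz
  have hdet := det_eq g
  have h1 : (z : ℂ) = ((g 0 0 : ℂ) * z + g 0 1) / (g 1 0 * z + g 1 1) := by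
    conv_lhs => rw [← hz]
    rw [UpperHalfPlane.coe_specialLinearGroup_apply]; simp
  generalize g 0 0 = a at *
  generalize g 0 1 = b at *
  generalize g 1 0 = c at *
  generalize g 1 1 = d at *
  have hne : ((c : ℂ) * z + d) ≠ 0 := by
    intro h2
    rw [h2, div_zero] at h1
    have := z.im_ne_zero
    rw [← UpperHalfPlane.coe_im, h1] at this
    simp at this
  rw [eq_div_iff hne] at h1
  have hre := congrArg Complex.re h1
  have him := congrArg Complex.im h1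
  simp at hre him
  have hy := z.im_pos
  generalize z.re = x at *
  generalize z.im = y at *
  have ha : a = 2 * c * x + d := by
    have : y * (a - (2 * c * x + d)) = 0 := by linear_combination -him
    rcases mul_eq_zero.1 this with h2 | h2
    · exact absurd h2 hy.ne'
    · linarith
  have hb : b = -c * (x ^ 2 + y ^ 2) := by
    rw [ha] at hre
    linear_combination -hre
  have h4 : (a + d) ^ 2 = 4 - 4 * c ^ 2 * y ^ 2 := by
    rw [hb, ha] at hdet
    rw [ha]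
    linear_combination 4 * hdet
  have h5 : (a + d) ^ 2 ≤ 2 ^ 2 := by nlinarith [mul_pos hy hy, sq_nonneg (c * y)]
  have h6 := abs_le_of_sq_le_sq h5 (by norm_num)
  linarith

end Pool.Agent.Helper852.EZ.J2a
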