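import Mathlib
import Pool.Agent.Helper852.EZ.Quat

set_option autoImplicit false

/-! A congruence subgroup of the unit group of an order in the quaternion algebra `(2,3)` over the
rationals, as a subgroup of `SL(2,ℝ)`. -/

namespace Pool.Agent.Helper852.EZ.J2c

open scoped MatrixGroups
open Matrix




theorem ez_aniso_aux (n : ℕ) : ∀ x y z w : ℤ, x.natAbs + y.natAbs + z.natAbs + w.natAbs ≤ n →
    x ^ 2 - 2 * y ^ 2 - 3 * z ^ 2 + 6 * w ^ 2 = 0 → x = 0 ∧ y = 0 ∧ z = 0 ∧ w = 0 := by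
  induction n with
  | zero =>
    intro x y z w h _
    omega
  | succ n ih =>
    intro x y z w h he
    have key : ∀ a b : ℤ, (3:ℤ) ∣ a ^ 2 + b ^ 2 → (3:ℤ) ∣ a ∧ (3:ℤ) ∣ b := by
      intro a b hab
      have h1 : a % 3 = 0 ∨ a % 3 = 1 ∨ a % 3 = 2 := by omega
      have h2 : b % 3 = 0 ∨ b % 3 = 1 ∨ b % 3 = 2 := by omega
      have h3 : (a ^ 2 + b ^ 2) % 3 = 0 := by omega
      rcases h1 with h1 | h1 | h1 <;> rcases h2 with h2 | h2 | h2 <;>
        simp [pow_two, Int.add_emod, Int.mul_emod, h1, h2] at h3 <;> omega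
    obtain ⟨⟨x', rfl⟩, ⟨y', rfl⟩⟩ := key x y ⟨y ^ 2 + z ^ 2 - 2 * w ^ 2, by linear_combination he⟩
    obtain ⟨⟨z', rfl⟩, ⟨w', rfl⟩⟩ := key z w ⟨x' ^ 2 - 2 * y' ^ 2 + w ^ 2, by linarith⟩
    have h0 : x' ^ 2 - 2 * y' ^ 2 - 3 * z' ^ 2 + 6 * w' ^ 2 = 0 := by linarith
    by_cases hz : (3 * x').natAbs + (3 * y').natAbs + (3 * z').natAbs + (3 * w').natAbs = 0
    · omega
    · have := ih x' y' z' w' (by omega) h0
      omega

theorem ez_aniso (x y z w : ℤ) (h : x ^ 2 - 2 * y ^ 2 - 3 * z ^ 2 + 6 * w ^ 2 = 0) :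
    x = 0 ∧ y = 0 ∧ z = 0 ∧ w = 0 := ez_aniso_aux _ x y z w le_rfl h


theorem ez_cplx (a b c d : ℝ) (hdet : a * d - b * c = 1) :
    ((a : ℂ) * Complex.I + b) / ((c : ℂ) * Complex.I + d) =
      (((a * c + b * d) / (c ^ 2 + d ^ 2) : ℝ) : ℂ) + ((1 / (c ^ 2 + d ^ 2) : ℝ) : ℂ) * Complex.I := by
  have hc : c ^ 2 + d ^ 2 ≠ 0 := by
    intro h
    have h1 : c = 0 := by nlinarith [sq_nonneg c, sq_nonneg d]
    have h2 : d = 0 := by nlinarith [sq_nonneg c, sq_nonneg d]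
    rw [h1, h2] at hdet
    norm_num at hdet
  have hd : (c : ℂ) * Complex.I + (d : ℂ) ≠ 0 := by
    intro h
    have h1 := congrArg Complex.re h
    have h2 := congrArg Complex.im h
    simp at h1 h2
    apply hc
    rw [h1, h2]; ring
  rw [div_eq_iff hd]
  generalize hu : (a * c + b * d) / (c ^ 2 + d ^ 2) = u
  generalize hv : 1 / (c ^ 2 + d ^ 2) = v
  have hu' : u * (c ^ 2 + d ^ 2) = a * c + b * d := by rw [← hu]; field_simp
  have hv' : v * (c ^ 2 + d ^ 2) = 1 := by rw [← hv]; field_simp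
  apply Complex.ext
  · simp
    have : (b - (u * d - v * c)) * (c ^ 2 + d ^ 2) = 0 := by
      linear_combination (-d) * hu' + c * hv' + (-c) * hdet
    rcases mul_eq_zero.1 this with h | h
    · linarith
    · exact absurd h hc
  · simp
    have : (a - (u * c + v * d)) * (c ^ 2 + d ^ 2) = 0 := by
      linear_combination (-c) * hu' + (-d) * hv' + (d) * hdet
    rcases mul_eq_zero.1 this with h | h
    · linarith
    · exact absurd h hc

open UpperHalfPlane in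
theorem ez_cosh (g : SL(2, ℝ)) : Real.cosh (dist (g • UpperHalfPlane.I) UpperHalfPlane.I) =
    ((g 0 0) ^ 2 + (g 0 1) ^ 2 + (g 1 0) ^ 2 + (g 1 1) ^ 2) / 2 := by
  have hdet : g 0 0 * g 1 1 - g 0 1 * g 1 0 = 1 := by
    have := g.det_coe
    rwa [Matrix.det_fin_two] at this
  have hc : g 1 0 ^ 2 + g 1 1 ^ 2 ≠ 0 := by
    intro h
    have h1 : g 1 0 = 0 := by nlinarith [sq_nonneg (g 1 0), sq_nonneg (g 1 1)]
    have h2 : g 1 1 = 0 := by nlinarith [sq_nonneg (g 1 0), sq_nonneg (g 1 1)]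
    rw [h1, h2] at hdet
    norm_num at hdet
  have hval : ((g • UpperHalfPlane.I : ℍ) : ℂ) = (((g 0 0 * g 1 0 + g 0 1 * g 1 1) / (g 1 0 ^ 2 + g 1 1 ^ 2) : ℝ) : ℂ)
      + ((1 / (g 1 0 ^ 2 + g 1 1 ^ 2) : ℝ) : ℂ) * Complex.I := by
    rw [UpperHalfPlane.coe_specialLinearGroup_apply]
    exact ez_cplx _ _ _ _ hdet
  have hre : (g • UpperHalfPlane.I : ℍ).re = (g 0 0 * g 1 0 + g 0 1 * g 1 1) / (g 1 0 ^ 2 + g 1 1 ^ 2) := by
    rw [← UpperHalfPlane.coe_re, hval, Complex.add_re, Complex.ofReal_re, Complex.re_ofReal_mul, Complex.I_re,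
      mul_zero, add_zero]
  have him : (g • UpperHalfPlane.I : ℍ).im = 1 / (g 1 0 ^ 2 + g 1 1 ^ 2) := by
    rw [← UpperHalfPlane.coe_im, hval, Complex.add_im, Complex.ofReal_im, Complex.im_ofReal_mul, Complex.I_im,
      mul_one, zero_add]
  rw [UpperHalfPlane.cosh_dist', hre, him]
  simp only [UpperHalfPlane.I_re, UpperHalfPlane.I_im]
  field_simp
  linear_combination (-(g 0 0 * g 1 1 - g 0 1 * g 1 0 + 1)) * hdet

open UpperHalfPlane in
theorem ez_dist (g : SL(2, ℝ)) (C : ℝ) (hC : ∀ i j, |g i j| ≤ C) :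
    dist (g • UpperHalfPlane.I) UpperHalfPlane.I ≤ 4 * C ^ 2 := by
  have h1 := ez_cosh g
  have h2 : ∀ i j, g i j ^ 2 ≤ C ^ 2 := by
    intro i j
    exact sq_le_sq' (abs_le.1 (hC i j)).1 (abs_le.1 (hC i j)).2
  have h3 : dist (g • UpperHalfPlane.I) UpperHalfPlane.I ≤ 2 * Real.cosh (dist (g • UpperHalfPlane.I) UpperHalfPlane.I) := by
    rw [Real.cosh_eq]
    have := Real.add_one_le_exp (dist (g • UpperHalfPlane.I) UpperHalfPlane.I)
    have := Real.exp_pos (-(dist (g • UpperHalfPlane.I) UpperHalfPlane.I))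
    linarith
  have := h2 0 0
  have := h2 0 1
  have := h2 1 0
  have := h2 1 1
  rw [h1] at h3
  linarith

noncomputable def ezA (a b : ℝ) : Matrix (Fin 4) (Fin 4) ℝ :=
  !![a, a * √2, 0, 0; b, b * √2, 3 / a, 3 * √2 / a; 0, 0, a, -(a * √2); 1 / a, -(√2 / a), b, -(b * √2)]

theorem ezA_det (a b : ℝ) (ha : a ≠ 0) : (ezA a b).det = 24 ∨ (ezA a b).det = -24 := by
  have h2 : √2 * √2 = (2 : ℝ) := Real.mul_self_sqrt (by norm_num)
  rw [ezA]
  simp [Matrix.det_succ_row_zero, Fin.sum_univ_succ, Fin.succAbove]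
  field_simp
  left
  linear_combination 12 * h2

theorem ez_mink (a b : ℝ) (ha : 0 < a) : ∃ x y z w : ℤ, ¬ (x = 0 ∧ y = 0 ∧ z = 0 ∧ w = 0) ∧
    |a * (x + y * √2)| ≤ 3 ∧ |b * (x + y * √2) + 3 / a * (z + w * √2)| ≤ 3 ∧
    |a * (z - w * √2)| ≤ 3 ∧ |b * (z - w * √2) + (x - y * √2) / a| ≤ 3 := by
  have hdet := ezA_det a b ha.ne'
  set f : (Fin 4 → ℝ) →ₗ[ℝ] (Fin 4 → ℝ) := Matrix.toLin' (ezA a b) with hf
  have hfd : LinearMap.det f = (ezA a b).det := LinearMap.det_toLin' _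
  have hne : LinearMap.det f ≠ 0 := by
    rw [hfd]; rcases hdet with h | h <;> rw [h] <;> norm_num
  set s : Set (Fin 4 → ℝ) := f ⁻¹' (Metric.closedBall 0 3) with hs
  have hvol : MeasureTheory.volume s = ENNReal.ofReal 54 := by
    rw [hs, MeasureTheory.Measure.addHaar_preimage_linearMap _ hne, Real.volume_pi_closedBall _ (by norm_num),
      ← ENNReal.ofReal_mul (abs_nonneg _), hfd]
    congr 1
    rcases hdet with h | h <;> rw [h] <;> norm_num [abs_of_neg, abs_of_pos]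
  have hfund := ZSpan.isAddFundamentalDomain' (Pi.basisFun ℝ (Fin 4)) (MeasureTheory.volume)
  have hF : MeasureTheory.volume (ZSpan.fundamentalDomain (Pi.basisFun ℝ (Fin 4))) = 1 := by
    rw [ZSpan.fundamentalDomain_pi_basisFun, MeasureTheory.volume_pi, MeasureTheory.Measure.pi_pi]
    simp
  have : Countable (Submodule.span ℤ (Set.range (Pi.basisFun ℝ (Fin 4)))).toAddSubgroup :=
    inferInstanceAs (Countable (Submodule.span ℤ (Set.range (Pi.basisFun ℝ (Fin 4)))))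
  obtain ⟨v, hv0, hvs⟩ := MeasureTheory.exists_ne_zero_mem_lattice_of_measure_mul_two_pow_lt_measure
    (s := s) hfund (by
      intro x hx
      simp only [hs, Set.mem_preimage, mem_closedBall_zero_iff, map_neg, norm_neg] at hx ⊢
      exact hx) (by
      rw [hs]
      exact (convex_closedBall 0 3).linear_preimage f) (by
      rw [hF, hvol]
      rw [one_mul, Module.finrank_fin_fun]
      have : (2 : ENNReal) ^ 4 = ENNReal.ofReal 16 := by
        rw [show (16:ℝ) = 2 ^ 4 by norm_num, ENNReal.ofReal_pow (by norm_num)]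
        norm_num
      rw [this]
      exact (ENNReal.ofReal_lt_ofReal_iff (by norm_num)).2 (by norm_num))
  have hmem : (v : Fin 4 → ℝ) ∈ Submodule.span ℤ (Set.range (Pi.basisFun ℝ (Fin 4))) := v.2
  have hint : ∀ i, ∃ m : ℤ, (v : Fin 4 → ℝ) i = m := by
    intro i
    have := (Pi.basisFun ℝ (Fin 4)).mem_span_iff_repr_mem ℤ (v : Fin 4 → ℝ)
    obtain ⟨m, hm⟩ := this.1 hmem i
    exact ⟨m, by simpa using hm.symm⟩
  choose m hm using hint
  have hn : ∀ i, |(f (v : Fin 4 → ℝ)) i| ≤ 3 := by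
    intro i
    have h1 : ‖f (v : Fin 4 → ℝ)‖ ≤ 3 := by simpa [hs] using hvs
    exact (norm_le_pi_norm _ i).trans h1
  have hfv : ∀ i, f (v : Fin 4 → ℝ) i = ∑ j, ezA a b i j * m j := by
    intro i
    rw [hf, Matrix.toLin'_apply, Matrix.mulVec, dotProduct]
    simp only [hm]
  refine ⟨m 0, m 1, m 2, m 3, ?_, ?_, ?_, ?_, ?_⟩
  · rintro ⟨h0, h1, h2, h3⟩
    apply hv0
    apply Subtype.ext
    funext i
    fin_cases i <;> simp [hm, h0, h1, h2, h3]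
  · have := hn 0
    rw [hfv] at this
    simp [ezA, Fin.sum_univ_succ] at this
    refine le_of_eq_of_le ?_ this
    congr 1; ring
  · have := hn 1
    rw [hfv] at this
    simp [ezA, Fin.sum_univ_succ] at this
    refine le_of_eq_of_le ?_ this
    congr 1; ring
  · have := hn 2
    rw [hfv] at this
    simp [ezA, Fin.sum_univ_succ] at this
    refine le_of_eq_of_le ?_ this
    congr 1; ring
  · have := hn 3
    rw [hfv] at this
    simp [ezA, Fin.sum_univ_succ] at this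
    refine le_of_eq_of_le ?_ this
    congr 1; ring

theorem ez_choice : ∃ C : ℝ, ∀ x y z w n : ℤ, x ^ 2 - 2 * y ^ 2 - 3 * z ^ 2 + 6 * w ^ 2 = n → n ≠ 0 →
    |n| ≤ 18 → ∃ x' y' z' w' : ℤ, x' ^ 2 - 2 * y' ^ 2 - 3 * z' ^ 2 + 6 * w' ^ 2 = n ∧
      (3 * n ∣ x - x') ∧ (3 * n ∣ y - y') ∧ (3 * n ∣ z - z') ∧ (3 * n ∣ w - w') ∧
      ∀ i j, |Qm x' (-y') (-z') (-w') i j| ≤ C := by
  have h1 : ∀ k : ℤ × ℤ × ℤ × ℤ × ℤ, ∃ C : ℝ, ∀ x y z w : ℤ,
      x ^ 2 - 2 * y ^ 2 - 3 * z ^ 2 + 6 * w ^ 2 = k.1 → x % (3 * k.1) = k.2.1 → y % (3 * k.1) = k.2.2.1 →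
      z % (3 * k.1) = k.2.2.2.1 → w % (3 * k.1) = k.2.2.2.2 →
      ∃ x' y' z' w' : ℤ, x' ^ 2 - 2 * y' ^ 2 - 3 * z' ^ 2 + 6 * w' ^ 2 = k.1 ∧
      x' % (3 * k.1) = k.2.1 ∧ y' % (3 * k.1) = k.2.2.1 ∧
      z' % (3 * k.1) = k.2.2.2.1 ∧ w' % (3 * k.1) = k.2.2.2.2 ∧
      ∀ i j, |Qm x' (-y') (-z') (-w') i j| ≤ C := by
    intro k
    by_cases h : ∃ x y z w : ℤ,
      x ^ 2 - 2 * y ^ 2 - 3 * z ^ 2 + 6 * w ^ 2 = k.1 ∧ x % (3 * k.1) = k.2.1 ∧ y % (3 * k.1) = k.2.2.1 ∧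
      z % (3 * k.1) = k.2.2.2.1 ∧ w % (3 * k.1) = k.2.2.2.2
    · obtain ⟨x, y, z, w, h0, hx, hy, hz, hw⟩ := h
      refine ⟨∑ i, ∑ j, |Qm x (-y) (-z) (-w) i j|, fun _ _ _ _ _ _ _ _ _ => ⟨x, y, z, w, h0, hx, hy, hz, hw, ?_⟩⟩
      intro i j
      refine le_trans ?_ (Finset.single_le_sum (f := fun i => ∑ j, |Qm x (-y) (-z) (-w) i j|)
        (fun i _ => Finset.sum_nonneg (fun j _ => abs_nonneg _)) (Finset.mem_univ i))
      exact Finset.single_le_sum (f := fun j => |Qm x (-y) (-z) (-w) i j|) (fun j _ => abs_nonneg _)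
        (Finset.mem_univ j)
    · refine ⟨0, fun x y z w h0 hx hy hz hw => ?_⟩
      exact absurd ⟨x, y, z, w, h0, hx, hy, hz, hw⟩ h
  choose Cf hCf using h1
  obtain ⟨F, hF⟩ : ∃ F : Finset (ℤ × ℤ × ℤ × ℤ × ℤ), ∀ n a b c d : ℤ, (-18 ≤ n ∧ n ≤ 18) →
      (0 ≤ a ∧ a ≤ 53) → (0 ≤ b ∧ b ≤ 53) → (0 ≤ c ∧ c ≤ 53) → (0 ≤ d ∧ d ≤ 53) →
      (n, a, b, c, d) ∈ F := by
    refine ⟨(Finset.Icc (-18) 18) ×ˢ (Finset.Icc 0 53) ×ˢ (Finset.Icc 0 53) ×ˢ
      (Finset.Icc 0 53) ×ˢ (Finset.Icc 0 53), ?_⟩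
    intro n a b c d h1 h2 h3 h4 h5
    simp only [Finset.mem_product, Finset.mem_Icc]
    exact ⟨h1, h2, h3, h4, h5⟩
  obtain ⟨C, hC⟩ := (F.finite_toSet.image Cf).bddAbove
  refine ⟨C, ?_⟩
  intro x y z w n hn hn0 hn18
  have hn18' := abs_le.1 hn18
  have hmod : ∀ t : ℤ, 0 ≤ t % (3 * n) ∧ t % (3 * n) ≤ 53 := by
    intro t
    have h3n : 3 * n ≠ 0 := by omega
    refine ⟨Int.emod_nonneg _ h3n, ?_⟩
    have := Int.emod_lt_abs t h3n
    have h54 : |3 * n| ≤ 54 := by rw [abs_le]; constructor <;> omega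
    omega
  have hk : (n, x % (3 * n), y % (3 * n), z % (3 * n), w % (3 * n)) ∈ F :=
    hF _ _ _ _ _ hn18' (hmod x) (hmod y) (hmod z) (hmod w)
  obtain ⟨x', y', z', w', h0, hx, hy, hz, hw, hb⟩ :=
    hCf (n, x % (3 * n), y % (3 * n), z % (3 * n), w % (3 * n)) x y z w hn rfl rfl rfl rfl
  refine ⟨x', y', z', w', h0, ?_, ?_, ?_, ?_, ?_⟩
  · exact Int.ModEq.dvd hx
  · exact Int.ModEq.dvd hy
  · exact Int.ModEq.dvd hz
  · exact Int.ModEq.dvd hw
  · intro i j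
    exact (hb i j).trans (hC (Set.mem_image_of_mem Cf (Finset.mem_coe.2 hk)))

open UpperHalfPlane in
/-- TARGET. The group acts cocompactly on the upper half plane. -/
theorem Gam_cocompact : ∃ D : ℝ, ∀ z : ℍ, ∃ g ∈ Gam, dist (g • z) UpperHalfPlane.I ≤ D := by
  obtain ⟨C, hC⟩ := ez_choice
  refine ⟨4 * (6 * C) ^ 2, ?_⟩
  intro τ
  have ha : 0 < √τ.im := Real.sqrt_pos.2 τ.im_pos
  set M : SL(2, ℝ) := τ.toSL2R with hM
  obtain ⟨x, y, z, w, hne, e1, e2, e3, e4⟩ := ez_mink (√τ.im) (τ.re / √τ.im) ha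
  have hent : ∀ i j, |(Qm x y z w * (M : Matrix (Fin 2) (Fin 2) ℝ)) i j| ≤ 3 := by
    intro i j
    fin_cases i <;> fin_cases j
    · refine le_of_eq_of_le ?_ e1
      rw [hM, UpperHalfPlane.coe_toSL2R]
      simp [Qm, Matrix.mul_apply, Fin.sum_univ_two, abs_mul, mul_comm]
    · refine le_of_eq_of_le ?_ e2
      rw [hM, UpperHalfPlane.coe_toSL2R]
      simp [Qm, Matrix.mul_apply, Fin.sum_univ_two]
      congr 1; ring
    · refine le_of_eq_of_le ?_ e3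
      rw [hM, UpperHalfPlane.coe_toSL2R]
      simp [Qm, Matrix.mul_apply, Fin.sum_univ_two, abs_mul, mul_comm]
    · refine le_of_eq_of_le ?_ e4
      rw [hM, UpperHalfPlane.coe_toSL2R]
      simp [Qm, Matrix.mul_apply, Fin.sum_univ_two]
      congr 1; ring
  obtain ⟨n, hn⟩ : ∃ n : ℤ, x ^ 2 - 2 * y ^ 2 - 3 * z ^ 2 + 6 * w ^ 2 = n := ⟨_, rfl⟩
  have hn0 : n ≠ 0 := by
    intro h
    exact hne (ez_aniso x y z w (hn.trans h))
  have hdetQM : (Qm x y z w * (M : Matrix (Fin 2) (Fin 2) ℝ)).det = n := by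
    rw [Matrix.det_mul, Qm_det, hn, M.det_coe, mul_one]
  have hn18 : |n| ≤ 18 := by
    have h : |(n : ℝ)| ≤ 18 := by
      rw [← hdetQM, Matrix.det_fin_two]
      refine (abs_sub _ _).trans ?_
      rw [abs_mul, abs_mul]
      have p1 := mul_le_mul (hent 0 0) (hent 1 1) (abs_nonneg _) (by norm_num : (0:ℝ) ≤ 3)
      have p2 := mul_le_mul (hent 0 1) (hent 1 0) (abs_nonneg _) (by norm_num : (0:ℝ) ≤ 3)
      linarith
    exact_mod_cast h
  obtain ⟨x', y', z', w', h0, ⟨p, hp⟩, ⟨q, hq⟩, ⟨r, hr⟩, ⟨s, hs⟩, hb⟩ := hC x y z w n hn hn0 hn18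
  have hn0' : (n : ℝ) ≠ 0 := by exact_mod_cast hn0
  have hU : (n : ℝ) • Qm (1 + 3 * (x' * p - 2 * y' * q - 3 * z' * r + 6 * w' * s))
      (3 * (x' * q - y' * p + 3 * z' * s - 3 * w' * r)) (3 * (x' * r - z' * p - 2 * y' * s + 2 * w' * q))
      (3 * (x' * s - w' * p - y' * r + z' * q)) = Qm x' (-y') (-z') (-w') * Qm x y z w := by
    have hx : x = x' + 3 * n * p := by linarith
    have hy : y = y' + 3 * n * q := by linarith
    have hz : z = z' + 3 * n * r := by linarith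
    have hw : w = w' + 3 * n * s := by linarith
    have h0' : (x' : ℝ) ^ 2 - 2 * y' ^ 2 - 3 * z' ^ 2 + 6 * w' ^ 2 = n := by exact_mod_cast h0
    rw [Qm_mul, hx, hy, hz, hw]
    ext i j
    fin_cases i <;> fin_cases j <;> simp [Qm]
    · linear_combination (-1 : ℝ) * h0'
    · ring
    · ring
    · linear_combination (-1 : ℝ) * h0'
  generalize hUd : Qm (1 + 3 * (x' * p - 2 * y' * q - 3 * z' * r + 6 * w' * s))
      (3 * (x' * q - y' * p + 3 * z' * s - 3 * w' * r)) (3 * (x' * r - z' * p - 2 * y' * s + 2 * w' * q))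
      (3 * (x' * s - w' * p - y' * r + z' * q)) = U at hU
  have hdetU : U.det = 1 := by
    have h1 := congrArg Matrix.det hU
    rw [Matrix.det_mul, Qm_det, Qm_det, hn, Matrix.det_smul, Fintype.card_fin] at h1
    have h2 : x' ^ 2 - 2 * (-y') ^ 2 - 3 * (-z') ^ 2 + 6 * (-w') ^ 2 = n := by linarith
    rw [h2] at h1
    have h3 : (n : ℝ) ^ 2 * (U.det - 1) = 0 := by linear_combination h1
    rcases mul_eq_zero.1 h3 with h | h
    · exact absurd h (pow_ne_zero _ hn0')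
    · linarith
  obtain ⟨g, hg⟩ : ∃ g : SL(2, ℝ), (g : Matrix (Fin 2) (Fin 2) ℝ) = U := ⟨⟨U, hdetU⟩, rfl⟩
  refine ⟨g, ⟨_, _, _, _, hg.trans hUd.symm⟩, ?_⟩
  have hgz : g • τ = (g * M) • UpperHalfPlane.I := by
    rw [mul_smul, hM, UpperHalfPlane.toSL2R_smul_I]
  rw [hgz]
  apply ez_dist
  intro i j
  have hprod : (n : ℝ) * (U * (M : Matrix (Fin 2) (Fin 2) ℝ)) i j =
      ∑ k, Qm x' (-y') (-z') (-w') i k * (Qm x y z w * (M : Matrix (Fin 2) (Fin 2) ℝ)) k j := by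
    rw [← Matrix.mul_apply, ← Matrix.mul_assoc, ← hU, Matrix.smul_mul, Matrix.smul_apply, smul_eq_mul]
  have hle : |(n : ℝ) * (U * (M : Matrix (Fin 2) (Fin 2) ℝ)) i j| ≤ 6 * C := by
    rw [hprod, Fin.sum_univ_two]
    refine (abs_add_le _ _).trans ?_
    rw [abs_mul, abs_mul]
    have hC0 : 0 ≤ C := (abs_nonneg _).trans (hb 0 0)
    have p1 := mul_le_mul (hb i 0) (hent 0 j) (abs_nonneg _) hC0
    have p2 := mul_le_mul (hb i 1) (hent 1 j) (abs_nonneg _) hC0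
    linarith
  have hn1 : (1 : ℝ) ≤ |(n : ℝ)| := by
    have : 1 ≤ |n| := Int.one_le_abs hn0
    exact_mod_cast this
  rw [abs_mul] at hle
  have : |(U * (M : Matrix (Fin 2) (Fin 2) ℝ)) i j| ≤ 6 * C := by
    refine le_trans ?_ hle
    exact le_mul_of_one_le_left (abs_nonneg _) hn1
  rw [Matrix.SpecialLinearGroup.coe_mul, hg]
  exact this

end Pool.Agent.Helper852.EZ.J2c
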