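import Mathlib

set_option autoImplicit false

namespace Pool.Agent.Helper852.EZ.J3a

open UpperHalfPlane

/-- TARGET 1. The four point inequality in the hyperbolic plane. -/
theorem four_point : ∃ C : ℝ, ∀ x y z w : ℍ,
    dist x y + dist z w ≤ max (dist x z + dist y w) (dist x w + dist y z) + C := by
  refine ⟨2 * Real.log 8, fun x y z w => ?_⟩
  have hx := x.im_pos
  have hy := y.im_pos
  have hz := z.im_pos
  have hw := w.im_pos
  set a := √x.im with ha
  set b := √y.im with hb
  set c := √z.im with hc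
  set d := √w.im with hd
  have ha0 : 0 < a := Real.sqrt_pos.2 hx
  have hb0 : 0 < b := Real.sqrt_pos.2 hy
  have hc0 : 0 < c := Real.sqrt_pos.2 hz
  have hd0 : 0 < d := Real.sqrt_pos.2 hw
  have e1 := cosh_half_dist x y
  have e2 := cosh_half_dist z w
  have e3 := cosh_half_dist x w
  have e4 := cosh_half_dist z y
  have e5 := sinh_half_dist x z
  have e6 := sinh_half_dist y w
  rw [Real.sqrt_mul hx.le, ← ha, ← hb] at e1
  rw [Real.sqrt_mul hz.le, ← hc, ← hd] at e2
  rw [Real.sqrt_mul hx.le, ← ha, ← hd] at e3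
  rw [Real.sqrt_mul hz.le, ← hc, ← hb] at e4
  rw [Real.sqrt_mul hx.le, ← ha, ← hc] at e5
  rw [Real.sqrt_mul hy.le, ← hb, ← hd] at e6
  have hnorm : dist (x : ℂ) ((starRingEnd ℂ) (y : ℂ)) * dist (z : ℂ) ((starRingEnd ℂ) (w : ℂ)) ≤
      dist (x : ℂ) ((starRingEnd ℂ) (w : ℂ)) * dist (z : ℂ) ((starRingEnd ℂ) (y : ℂ)) +
      dist (x : ℂ) (z : ℂ) * dist (y : ℂ) (w : ℂ) := by
    have hyw : dist (y : ℂ) (w : ℂ) = ‖(starRingEnd ℂ) (y : ℂ) - (starRingEnd ℂ) (w : ℂ)‖ := by
      rw [← map_sub, RCLike.norm_conj, dist_eq_norm]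
    rw [hyw]
    simp only [dist_eq_norm]
    rw [← norm_mul, ← norm_mul, ← norm_mul]
    refine le_trans (le_of_eq ?_) (norm_add_le _ _)
    congr 1
    ring
  have hkey : Real.cosh (dist x y / 2) * Real.cosh (dist z w / 2) ≤
      Real.cosh (dist x w / 2) * Real.cosh (dist z y / 2) +
      Real.sinh (dist x z / 2) * Real.sinh (dist y w / 2) := by
    rw [e1, e2, e3, e4, e5, e6, div_mul_div_comm, div_mul_div_comm, div_mul_div_comm]
    have h1 : 2 * (a * b) * (2 * (c * d)) = 4 * (a * b * c * d) := by ring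
    have h2 : 2 * (a * d) * (2 * (c * b)) = 4 * (a * b * c * d) := by ring
    have h3 : 2 * (a * c) * (2 * (b * d)) = 4 * (a * b * c * d) := by ring
    rw [h1, h2, h3, ← add_div]
    gcongr
  have hch : ∀ t : ℝ, 0 ≤ t → Real.exp t / 2 ≤ Real.cosh t ∧ Real.cosh t ≤ Real.exp t := by
    intro t ht
    rw [Real.cosh_eq]
    have h1 : 0 < Real.exp (-t) := Real.exp_pos _
    have h2 : Real.exp (-t) ≤ Real.exp t := Real.exp_le_exp.2 (by linarith)
    constructor <;> linarith
  have hsh : ∀ t : ℝ, 0 ≤ t → 0 ≤ Real.sinh t ∧ Real.sinh t ≤ Real.exp t := by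
    intro t ht
    refine ⟨Real.sinh_nonneg_iff.2 ht, ?_⟩
    rw [Real.sinh_eq]
    have h1 : 0 < Real.exp (-t) := Real.exp_pos _
    have h2 : 0 < Real.exp t := Real.exp_pos _
    linarith
  have n1 := dist_nonneg (x := x) (y := y)
  have n2 := dist_nonneg (x := z) (y := w)
  have n3 := dist_nonneg (x := x) (y := w)
  have n4 := dist_nonneg (x := z) (y := y)
  have n5 := dist_nonneg (x := x) (y := z)
  have n6 := dist_nonneg (x := y) (y := w)
  have l1 := (hch (dist x y / 2) (by linarith)).1
  have l2 := (hch (dist z w / 2) (by linarith)).1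
  have l3 := (hch (dist x w / 2) (by linarith)).2
  have l4 := (hch (dist z y / 2) (by linarith)).2
  have l5 := hsh (dist x z / 2) (by linarith)
  have l6 := hsh (dist y w / 2) (by linarith)
  have hL : Real.exp ((dist x y + dist z w) / 2) / 4 ≤
      Real.cosh (dist x y / 2) * Real.cosh (dist z w / 2) := by
    have h1 : Real.exp ((dist x y + dist z w) / 2) / 4 =
        (Real.exp (dist x y / 2) / 2) * (Real.exp (dist z w / 2) / 2) := by
      rw [add_div, Real.exp_add]; ring
    rw [h1]
    have : 0 ≤ Real.exp (dist z w / 2) / 2 := by positivity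
    have : 0 ≤ Real.cosh (dist x y / 2) := (Real.cosh_pos _).le
    gcongr
  set m := max (dist x z + dist y w) (dist x w + dist y z) with hm
  have hR1 : Real.cosh (dist x w / 2) * Real.cosh (dist z y / 2) ≤ Real.exp (m / 2) := by
    calc Real.cosh (dist x w / 2) * Real.cosh (dist z y / 2)
        ≤ Real.exp (dist x w / 2) * Real.exp (dist z y / 2) := by
          have : 0 ≤ Real.cosh (dist z y / 2) := (Real.cosh_pos _).le
          gcongr
      _ = Real.exp ((dist x w + dist y z) / 2) := by
          rw [← Real.exp_add, dist_comm z y]; ring_nf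
      _ ≤ Real.exp (m / 2) := by
          apply Real.exp_le_exp.2
          have := le_max_right (dist x z + dist y w) (dist x w + dist y z)
          linarith
  have hR2 : Real.sinh (dist x z / 2) * Real.sinh (dist y w / 2) ≤ Real.exp (m / 2) := by
    calc Real.sinh (dist x z / 2) * Real.sinh (dist y w / 2)
        ≤ Real.exp (dist x z / 2) * Real.exp (dist y w / 2) := by
          have := l5.1
          have := l6.1
          exact mul_le_mul l5.2 l6.2 l6.1 (Real.exp_pos _).le
      _ = Real.exp ((dist x z + dist y w) / 2) := by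
          rw [← Real.exp_add]; ring_nf
      _ ≤ Real.exp (m / 2) := by
          apply Real.exp_le_exp.2
          have := le_max_left (dist x z + dist y w) (dist x w + dist y z)
          linarith
  have hfin : Real.exp ((dist x y + dist z w) / 2) ≤ Real.exp (m / 2 + Real.log 8) := by
    rw [Real.exp_add, Real.exp_log (by norm_num)]
    linarith
  have := Real.exp_le_exp.1 hfin
  linarith

theorem geod_point_vertical (z w : ℍ) (h : z.re = w.re) (s : ℝ) (hs0 : 0 ≤ s)
    (hs : s ≤ dist z w) : ∃ u : ℍ, dist z u = s ∧ dist u w = dist z w - s := by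
  have hd := dist_of_re_eq h
  rcases le_total (Real.log z.im) (Real.log w.im) with hle | hle
  · refine ⟨mk ⟨z.re, Real.exp (Real.log z.im + s)⟩ (Real.exp_pos _), ?_, ?_⟩
    · rw [dist_of_re_eq (by rfl)]
      change dist (Real.log z.im) (Real.log (Real.exp (Real.log z.im + s))) = s
      rw [Real.log_exp, Real.dist_eq]
      have : Real.log z.im - (Real.log z.im + s) = -s := by ring
      rw [this, abs_neg, abs_of_nonneg hs0]
    · have hu : dist (mk ⟨z.re, Real.exp (Real.log z.im + s)⟩ (Real.exp_pos _)) w =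
          dist (Real.log (Real.exp (Real.log z.im + s))) (Real.log w.im) := dist_of_re_eq h
      rw [hu, Real.log_exp, hd]
      rw [hd, Real.dist_eq, abs_of_nonpos (by linarith)] at hs
      rw [Real.dist_eq, Real.dist_eq, abs_of_nonpos (by linarith), abs_of_nonpos (by linarith)]
      ring
  · refine ⟨mk ⟨z.re, Real.exp (Real.log z.im - s)⟩ (Real.exp_pos _), ?_, ?_⟩
    · rw [dist_of_re_eq (by rfl)]
      change dist (Real.log z.im) (Real.log (Real.exp (Real.log z.im - s))) = s
      rw [Real.log_exp, Real.dist_eq]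
      have : Real.log z.im - (Real.log z.im - s) = s := by ring
      rw [this, abs_of_nonneg hs0]
    · have hu : dist (mk ⟨z.re, Real.exp (Real.log z.im - s)⟩ (Real.exp_pos _)) w =
          dist (Real.log (Real.exp (Real.log z.im - s))) (Real.log w.im) := dist_of_re_eq h
      rw [hu, Real.log_exp, hd]
      rw [hd, Real.dist_eq, abs_of_nonneg (by linarith)] at hs
      rw [Real.dist_eq, Real.dist_eq, abs_of_nonneg (by linarith), abs_of_nonneg (by linarith)]
      ring

open Matrix in
/-- the Moebius transformation `τ ↦ -1 / (τ - p)`. -/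
noncomputable def mob (p : ℝ) : Matrix.SpecialLinearGroup (Fin 2) ℝ :=
  ⟨!![0, -1; 1, -p], by simp [Matrix.det_fin_two]⟩

theorem mob_re (p : ℝ) (τ : ℍ) :
    (mob p • τ).re = -(τ.re - p) / ((τ.re - p) ^ 2 + τ.im ^ 2) := by
  have h := coe_specialLinearGroup_apply (mob p) τ
  have h2 : (mob p • τ).re = ((mob p • τ : ℍ) : ℂ).re := rfl
  rw [h2, h]
  simp only [mob, Matrix.of_apply, Matrix.cons_val', Matrix.cons_val_zero, Matrix.cons_val_one,
    Algebra.algebraMap_self, RingHom.id_apply, Complex.ofReal_zero, zero_mul, zero_add,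
    Complex.ofReal_neg, Complex.ofReal_one, one_mul]
  rw [Complex.div_re]
  simp [Complex.normSq_apply]
  ring

/-- TARGET 2. Points on geodesics in the hyperbolic plane. -/
theorem geod_point (z w : ℍ) (s : ℝ) (hs0 : 0 ≤ s) (hs : s ≤ dist z w) :
    ∃ u : ℍ, dist z u = s ∧ dist u w = dist z w - s := by
  by_cases h : z.re = w.re
  · exact geod_point_vertical z w h s hs0 hs
  have hyz := z.im_pos
  have hyw := w.im_pos
  have hne : w.re - z.re ≠ 0 := sub_ne_zero.2 (Ne.symm h)
  set c : ℝ := (w.re ^ 2 + w.im ^ 2 - z.re ^ 2 - z.im ^ 2) / (2 * (w.re - z.re)) with hc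
  have hc2 : 2 * c * (w.re - z.re) = w.re ^ 2 + w.im ^ 2 - z.re ^ 2 - z.im ^ 2 := by
    rw [hc]; field_simp
  set R : ℝ := √((z.re - c) ^ 2 + z.im ^ 2) with hR
  have hRpos : 0 < R := Real.sqrt_pos.2 (by positivity)
  have hR2 : R ^ 2 = (z.re - c) ^ 2 + z.im ^ 2 := Real.sq_sqrt (by positivity)
  have hR2' : R ^ 2 = (w.re - c) ^ 2 + w.im ^ 2 := by
    rw [hR2]; linear_combination hc2
  have hre : ∀ τ : ℍ, R ^ 2 = (τ.re - c) ^ 2 + τ.im ^ 2 →
      (mob (c + R) • τ).re = 1 / (2 * R) := by
    intro τ hτ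
    have hyt := τ.im_pos
    have h1 : (τ.re - (c + R)) ^ 2 + τ.im ^ 2 = 2 * R * (c + R - τ.re) := by
      linear_combination -hτ
    have h2 : 0 < c + R - τ.re := by
      have h3 : 0 < (τ.re - (c + R)) ^ 2 + τ.im ^ 2 := by positivity
      rw [h1] at h3
      exact pos_of_mul_pos_right h3 (by positivity)
    rw [mob_re, h1]
    field_simp
    ring
  have hg : (mob (c + R) • z).re = (mob (c + R) • w).re := by
    rw [hre z hR2, hre w hR2']
  have hd : dist (mob (c + R) • z) (mob (c + R) • w) = dist z w := dist_smul _ _ _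
  obtain ⟨u, hu1, hu2⟩ := geod_point_vertical _ _ hg s hs0 (by rw [hd]; exact hs)
  refine ⟨(mob (c + R))⁻¹ • u, ?_, ?_⟩
  · rw [← dist_smul (mob (c + R)) z, smul_inv_smul]; exact hu1
  · rw [← dist_smul (mob (c + R)) _ w, smul_inv_smul, hu2, hd]

end Pool.Agent.Helper852.EZ.J3a
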