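import Mathlib
import Pool.Agent.Helper852.EZ.Defs
import Pool.Agent.Helper852.EZ.Guess

set_option autoImplicit false

/-! A proper cocompact action on a geodesic hyperbolic space gives a hyperbolic Cayley graph. -/

namespace Pool.Agent.Helper852.EZ.J3c

open Pool.Agent.Helper852.EZ.Guess (gpr guessing_geodesics)

open Topology




theorem thin1_aux {X : Type} [MetricSpace X] (D C : ℝ) (hC : 0 ≤ C) (hD : 0 ≤ D)
    (hgeod : ∀ (z w : X) (s : ℝ), 0 ≤ s → s ≤ dist z w →
      ∃ u : X, dist z u = s ∧ dist u w = dist z w - s)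
    (h4 : ∀ x y z w : X,
      dist x y + dist z w ≤ max (dist x z + dist y w) (dist x w + dist y z) + C)
    (x z u : X) (h : dist x u + dist u z ≤ dist x z + 2 * D + C) :
    ∃ p : X, dist x p + dist p z = dist x z ∧ dist u p ≤ 2 * D + 2 * C := by
  obtain ⟨p, hp1, hp2⟩ := hgeod x z (min (dist x u) (dist x z))
    (le_min dist_nonneg dist_nonneg) (min_le_right _ _)
  refine ⟨p, by rw [hp1, hp2]; ring, ?_⟩
  have h5 := h4 u p x z
  rw [dist_comm u x, dist_comm p x, hp1, hp2] at h5
  have n1 : 0 ≤ dist x u := dist_nonneg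
  have n2 : 0 ≤ dist u z := dist_nonneg
  have n3 : 0 ≤ dist x z := dist_nonneg
  rcases le_total (dist x u) (dist x z) with h6 | h6
  · rw [min_eq_left h6] at h5
    rcases le_total (dist x u + (dist x z - dist x u)) (dist u z + dist x u) with h7 | h7
    · rw [max_eq_right h7] at h5
      linarith
    · rw [max_eq_left h7] at h5
      linarith
  · rw [min_eq_right h6] at h5
    rcases le_total (dist x u + (dist x z - dist x z)) (dist u z + dist x z) with h7 | h7
    · rw [max_eq_right h7] at h5
      linarith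
    · rw [max_eq_left h7] at h5
      linarith

/-- TARGET. Proper cocompact actions on geodesic Gromov hyperbolic spaces. -/
theorem hyp_of_action {G X : Type} [Group G] [MetricSpace X] [MulAction G X]
    (hiso : ∀ (g : G) (x y : X), dist (g • x) (g • y) = dist x y) (o : X)
    (hfin : ∀ R : ℝ, {g : G | dist (g • o) o ≤ R}.Finite)
    (hco : ∃ D : ℝ, ∀ z : X, ∃ g : G, dist (g • z) o ≤ D)
    (hgeod : ∀ (z w : X) (s : ℝ), 0 ≤ s → s ≤ dist z w →
      ∃ u : X, dist z u = s ∧ dist u w = dist z w - s)
    (h4 : ∃ C : ℝ, ∀ x y z w : X,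
      dist x y + dist z w ≤ max (dist x z + dist y w) (dist x w + dist y z) + C) :
    ∃ S : Set G, HypGen S := by
  obtain ⟨C, h4⟩ := h4
  have hC : 0 ≤ C := by
    have := h4 o o o o
    simpa using this
  obtain ⟨D, hD1, hD⟩ : ∃ D : ℝ, 1 ≤ D ∧ ∀ z : X, ∃ g : G, dist (g • o) z ≤ D := by
    obtain ⟨D0, hD0⟩ := hco
    refine ⟨max D0 1, le_max_right _ _, fun z => ?_⟩
    obtain ⟨g, hg⟩ := hD0 z
    refine ⟨g⁻¹, le_trans ?_ (le_max_left _ _)⟩
    rw [← hiso g, smul_inv_smul, dist_comm]
    exact hg
  set S : Set G := {g : G | dist (g • o) o ≤ 2 * D + 1} with hS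
  set Γ : SimpleGraph G := cayley S with hΓ
  have hmem : ∀ a b : G, a⁻¹ * b ∈ S ↔ dist (a • o) (b • o) ≤ 2 * D + 1 := by
    intro a b
    rw [hS, Set.mem_ofPred_eq, ← hiso a, mul_smul, smul_inv_smul, dist_comm]
  have hadj : ∀ a b : G, Γ.Adj a b ↔ a ≠ b ∧ dist (a • o) (b • o) ≤ 2 * D + 1 := by
    intro a b
    rw [hΓ, cayley, SimpleGraph.fromRel_adj, hmem, hmem, dist_comm (b • o), or_self]
  have hstep : ∀ a b : G, dist (a • o) (b • o) ≤ 2 * D + 1 →
      ∃ w : Γ.Walk a b, w.length ≤ 1 := by
    intro a b h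
    by_cases hab : a = b
    · subst hab
      exact ⟨SimpleGraph.Walk.nil, by simp⟩
    · exact ⟨SimpleGraph.Walk.cons ((hadj a b).2 ⟨hab, h⟩) SimpleGraph.Walk.nil, by simp⟩
  -- the candidate paths
  set L : G → G → Set G := fun x y =>
    {v | dist (x • o) (v • o) + dist (v • o) (y • o) ≤ dist (x • o) (y • o) + 2 * D} with hL
  have hLmem : ∀ x y v : G, v ∈ L x y ↔
    dist (x • o) (v • o) + dist (v • o) (y • o) ≤ dist (x • o) (y • o) + 2 * D :=
    fun _ _ _ => Iff.rfl
  have hnear : ∀ (x y v : G) (u : X), dist (x • o) u + dist u (y • o) = dist (x • o) (y • o) →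
      dist (v • o) u ≤ D → v ∈ L x y := by
    intro x y v u h1 h2
    rw [hLmem]
    have t1 := dist_triangle (x • o) u (v • o)
    have t2 := dist_triangle (v • o) u (y • o)
    rw [dist_comm u (v • o)] at t1
    linarith
  -- the chain
  have hchain : ∀ (x y : G) (n : ℕ) (u : X) (a : G),
      dist (x • o) u + dist u (y • o) = dist (x • o) (y • o) → dist (a • o) u ≤ D →
      dist u (y • o) ≤ n →
      Relation.ReflTransGen (fun a b => a ∈ L x y ∧ b ∈ L x y ∧ Γ.dist a b ≤ 1) a y ∧
      ∃ w : Γ.Walk a y, w.length ≤ n + 1 := by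
    intro x y n
    have hy : y ∈ L x y := by
      rw [hLmem, dist_self]
      linarith
    induction n with
    | zero =>
      intro u a h1 h2 h3
      have hu : u = y • o := by
        apply dist_le_zero.1
        exact_mod_cast h3
      subst hu
      obtain ⟨w, hw⟩ := hstep a y (by linarith)
      refine ⟨Relation.ReflTransGen.single ⟨hnear x y a _ h1 h2, hy, ?_⟩, w, by omega⟩
      exact (SimpleGraph.dist_le w).trans hw
    | succ n ih =>
      intro u a h1 h2 h3
      obtain ⟨u', hu1, hu2⟩ := hgeod u (y • o) (min 1 (dist u (y • o)))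
        (le_min zero_le_one dist_nonneg) (min_le_right _ _)
      obtain ⟨a', ha'⟩ := hD u'
      have hm1 : min 1 (dist u (y • o)) ≤ 1 := min_le_left _ _
      have h4' : dist (x • o) u' + dist u' (y • o) = dist (x • o) (y • o) := by
        have t1 := dist_triangle (x • o) u u'
        have t2 := dist_triangle (x • o) u' (y • o)
        linarith
      have h5 : dist u' (y • o) ≤ n := by
        rw [hu2]
        push_cast at h3
        rcases le_total 1 (dist u (y • o)) with h | h
        · rw [min_eq_left h]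
          linarith
        · rw [min_eq_right h, sub_self]
          positivity
      obtain ⟨hr, w, hw⟩ := ih u' a' h4' ha' h5
      obtain ⟨w1, hw1⟩ := hstep a a' (by
        have t1 := dist_triangle (a • o) u (a' • o)
        have t2 := dist_triangle u u' (a' • o)
        rw [dist_comm u' (a' • o)] at t2
        linarith)
      refine ⟨Relation.ReflTransGen.head ⟨hnear x y a u h1 h2, hnear x y a' u' h4' ha',
        (SimpleGraph.dist_le w1).trans hw1⟩ hr, w1.append w, ?_⟩
      rw [SimpleGraph.Walk.length_append]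
      omega
  have hchain' : ∀ x y : G,
      Relation.ReflTransGen (fun a b => a ∈ L x y ∧ b ∈ L x y ∧ Γ.dist a b ≤ 1) x y ∧
      ∃ w : Γ.Walk x y, w.length ≤ ⌈dist (x • o) (y • o)⌉₊ + 1 := by
    intro x y
    exact hchain x y _ (x • o) x (by rw [dist_self, zero_add]) (by rw [dist_self]; linarith)
      (Nat.le_ceil _)
  have hdist : ∀ (x y : G) (K : ℝ), dist (x • o) (y • o) ≤ K → Γ.dist x y ≤ ⌈K⌉₊ + 1 := by
    intro x y K hK
    obtain ⟨-, w, hw⟩ := hchain' x y
    exact (SimpleGraph.dist_le w).trans (hw.trans (Nat.add_le_add_right (Nat.ceil_mono hK) 1))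
  have hconn : Γ.Connected := by
    rw [SimpleGraph.connected_iff]
    refine ⟨fun x y => ?_, ⟨1⟩⟩
    obtain ⟨-, w, -⟩ := hchain' x y
    exact ⟨w⟩
  have hgen : Subgroup.closure S = ⊤ := by
    rw [eq_top_iff]
    rintro g -
    have key : ∀ a b : G, ∀ _w : Γ.Walk a b, a⁻¹ * b ∈ Subgroup.closure S := by
      intro a b w
      induction w with
      | nil => simp
      | @cons a c b h w ih =>
        have h1 : a⁻¹ * c ∈ S := (hmem a c).2 ((hadj a c).1 h).2
        have h2 : a⁻¹ * b = (a⁻¹ * c) * (c⁻¹ * b) := by group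
        rw [h2]
        exact Subgroup.mul_mem _ (Subgroup.subset_closure h1) ih
    obtain ⟨-, w, -⟩ := hchain' 1 g
    have := key 1 g w
    simpa using this
  -- choose the constant
  have hLsymm : ∀ x y, L x y = L y x := by
    intro x y
    ext v
    rw [hLmem, hLmem, dist_comm (x • o) (v • o), dist_comm (v • o) (y • o),
      dist_comm (x • o) (y • o), add_comm (dist (v • o) (x • o))]
  have hthin1 : ∀ (x z u : G), dist (x • o) (u • o) + dist (u • o) (z • o)
      ≤ dist (x • o) (z • o) + 2 * D + C →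
      ∃ v ∈ L x z, dist (u • o) (v • o) ≤ 3 * D + 2 * C := by
    intro x z u h
    obtain ⟨p, hp1, hp2⟩ := thin1_aux D C hC (by linarith) hgeod h4 _ _ _ h
    obtain ⟨v, hv⟩ := hD p
    refine ⟨v, hnear x z v p hp1 hv, ?_⟩
    have t1 := dist_triangle (u • o) p (v • o)
    rw [dist_comm p (v • o)] at t1
    linarith
  obtain ⟨R, hR, -, -⟩ := guessing_geodesics Γ hconn L (⌈4 * D + 1 + 2 * C⌉₊ + 1) hLsymm
    (by
      intro x y
      rw [hLmem, dist_self]
      linarith)
    (by
      intro x y hxy u hu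
      apply hdist
      rw [hLmem] at hu
      have := ((hadj x y).1 hxy).2
      have n1 : 0 ≤ dist (u • o) (y • o) := dist_nonneg
      linarith)
    (by
      intro x u hu
      apply hdist
      rw [hLmem, dist_self] at hu
      have n1 : 0 ≤ dist (u • o) (x • o) := dist_nonneg
      linarith)
    (by
      intro x y
      refine Relation.ReflTransGen.mono ?_ x y (hchain' x y).1
      rintro a b ⟨h1, h2, h3⟩
      exact ⟨h1, h2, h3.trans (by omega)⟩)
    (by
      intro x y z u hu
      rw [hLmem] at hu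
      have h5 := h4 (x • o) (y • o) (z • o) (u • o)
      rcases le_max_iff.1 (le_refl (max (dist (x • o) (z • o) + dist (y • o) (u • o))
        (dist (x • o) (u • o) + dist (y • o) (z • o)))) with h6 | h6
      · obtain ⟨v, hv1, hv2⟩ := hthin1 x z u (by
          rw [dist_comm (y • o) (u • o), dist_comm (z • o) (u • o)] at h5
          rw [dist_comm (y • o) (u • o)] at h6
          linarith)
        refine ⟨v, Or.inl hv1, hdist _ _ _ (by linarith)⟩
      · obtain ⟨v, hv1, hv2⟩ := hthin1 y z u (by
          rw [dist_comm (y • o) (u • o), dist_comm (z • o) (u • o)] at h5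
          rw [dist_comm (y • o) (u • o)] at h6
          rw [dist_comm (y • o) (u • o)]
          linarith)
        refine ⟨v, Or.inr ?_, hdist _ _ _ (by linarith)⟩
        rw [hLsymm]
        exact hv1)
  exact ⟨S, hfin _, hgen, R, fun o x y z => hR o x y z⟩

end Pool.Agent.Helper852.EZ.J3c

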