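import Mathlib

set_option autoImplicit false

/-! The slow coordinate, the Cayley transform and the Moebius action on the closed disc. -/

namespace Pool.Agent.Helper852.EZ

/-- lateral coordinate -/
noncomputable def Nf (u : ℂ) : ℝ := Real.arsinh (u.im / u.re)

/-- slow scale -/
noncomputable def Df (u : ℂ) : ℝ := √(1 + |Real.log (‖u‖ / 2)|)

/-- The slow coordinate near the boundary point: here `u = 1 - w * conj ζ`. -/
noncomputable def Ff (u : ℂ) : ℝ := max (-1) (min 1 (Nf u / Df u))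

open UpperHalfPlane
open scoped MatrixGroups ComplexConjugate

/-- The Cayley transform of the upper half plane onto the open unit disc. -/
noncomputable def cay (z : ℍ) : ℂ := ((z : ℂ) - Complex.I) / ((z : ℂ) + Complex.I)

noncomputable def mA (g : SL(2, ℝ)) : ℂ := ((g 0 0 + g 1 1 : ℝ) : ℂ) + ((g 0 1 - g 1 0 : ℝ) : ℂ) * Complex.I

noncomputable def mB (g : SL(2, ℝ)) : ℂ := ((g 0 0 - g 1 1 : ℝ) : ℂ) - ((g 0 1 + g 1 0 : ℝ) : ℂ) * Complex.I

/-- The action of `SL(2,ℝ)` on the closed unit disc. -/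
noncomputable def mob (g : SL(2, ℝ)) (w : ℂ) : ℂ := (mA g * w + mB g) / (conj (mB g) * w + conj (mA g))

/-- The blown up disc. -/
def XT (E : Set ℂ) : Set (ℂ × (E → ℝ)) :=
  {p | ‖p.1‖ ≤ 1 ∧ ∀ ζ : E, |p.2 ζ| ≤ 1 ∧ (p.1 ≠ ζ → p.2 ζ = Ff (1 - p.1 * conj (ζ : ℂ)))}

end Pool.Agent.Helper852.EZ
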