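import Mathlib
import Pool.Agent.Helper852.EZ.FDefs

set_option autoImplicit false

namespace Pool.Agent.Helper852.EZ.J4


/-- the denominator scale in real terms -/
noncomputable def Dr (r t : ℝ) : ℝ := √(1 + |Real.log (√(1 + r ^ 2 - 2 * r * Real.cos t) / 2)|)

noncomputable def Fr (r t : ℝ) : ℝ :=
  max (-1) (min 1 (Real.arsinh (-(r * Real.sin t) / (1 - r * Real.cos t)) / Dr r t))

noncomputable def Gr (r t : ℝ) : ℝ :=
  min 1 (Real.arsinh (r * Real.sin t / (1 - r * Real.cos t)) / Dr r t)

theorem Ff_eq (r t : ℝ) : Ff (1 - (r : ℂ) * Complex.exp (t * Complex.I)) = Fr r t := by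
  have hre : (1 - (r : ℂ) * Complex.exp (t * Complex.I)).re = 1 - r * Real.cos t := by
    simp [Complex.exp_ofReal_mul_I_re, Complex.exp_ofReal_mul_I_im]
  have him : (1 - (r : ℂ) * Complex.exp (t * Complex.I)).im = -(r * Real.sin t) := by
    simp [Complex.exp_ofReal_mul_I_re, Complex.exp_ofReal_mul_I_im]
  have hn : ‖(1 - (r : ℂ) * Complex.exp (t * Complex.I))‖ = √(1 + r ^ 2 - 2 * r * Real.cos t) := by
    rw [Complex.norm_eq_sqrt_sq_add_sq, hre, him]
    congr 1
    have := Real.sin_sq_add_cos_sq t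
    nlinarith
  unfold Ff Nf Df Fr Dr
  rw [hre, him, hn]

theorem Dr_one_le (r t : ℝ) : 1 ≤ Dr r t := by
  unfold Dr
  rw [Real.one_le_sqrt]
  have := abs_nonneg (Real.log (√(1 + r ^ 2 - 2 * r * Real.cos t) / 2))
  linarith

theorem Fr_neg (r t : ℝ) : Fr r (-t) = - Fr r t := by
  have h1 : Dr r (-t) = Dr r t := by unfold Dr; rw [Real.cos_neg]
  have h2 : Real.arsinh (-(r * Real.sin (-t)) / (1 - r * Real.cos (-t))) / Dr r t
      = - (Real.arsinh (-(r * Real.sin t) / (1 - r * Real.cos t)) / Dr r t) := by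
    rw [Real.sin_neg, Real.cos_neg]
    have : -(r * -Real.sin t) / (1 - r * Real.cos t)
      = -(-(r * Real.sin t) / (1 - r * Real.cos t)) := by ring
    rw [this, Real.arsinh_neg]
    ring
  unfold Fr
  rw [h1, h2]
  generalize Real.arsinh (-(r * Real.sin t) / (1 - r * Real.cos t)) / Dr r t = x
  rcases le_total x (-1) with h | h
  · rw [min_eq_right (by linarith : x ≤ 1), max_eq_left h, min_eq_left (by linarith),
      max_eq_right (by norm_num)]
    norm_num
  · rcases le_total x 1 with h' | h'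
    · rw [min_eq_right h', max_eq_right h, min_eq_right (by linarith), max_eq_right (by linarith)]
    · rw [min_eq_left h', max_eq_right (by norm_num : (-1 : ℝ) ≤ 1),
        min_eq_right (by linarith : -x ≤ 1), max_eq_left (by linarith : -x ≤ -1)]

theorem Gr_nonneg {r t : ℝ} (hr0 : 0 ≤ r) (hr1 : r ≤ 1) (ht0 : 0 ≤ t) (ht1 : t ≤ Real.pi) :
    0 ≤ Gr r t := by
  have h1 : 0 ≤ Real.sin t := Real.sin_nonneg_of_nonneg_of_le_pi ht0 ht1
  have h2 : r * Real.cos t ≤ 1 := by
    have := Real.cos_le_one t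
    nlinarith
  unfold Gr
  apply le_min one_pos.le
  apply div_nonneg
  · rw [Real.arsinh_nonneg_iff]
    exact div_nonneg (mul_nonneg hr0 h1) (by linarith)
  · linarith [Dr_one_le r t]

theorem Gr_le_one (r t : ℝ) : Gr r t ≤ 1 := min_le_left _ _

theorem Fr_eq {r t : ℝ} (hr0 : 0 ≤ r) (hr1 : r ≤ 1) (ht0 : 0 ≤ t) (ht1 : t ≤ Real.pi) :
    Fr r t = - Gr r t := by
  have h1 : 0 ≤ Real.sin t := Real.sin_nonneg_of_nonneg_of_le_pi ht0 ht1
  have h2 : r * Real.cos t ≤ 1 := by
    have := Real.cos_le_one t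
    nlinarith
  have h3 : 0 ≤ Real.arsinh (r * Real.sin t / (1 - r * Real.cos t)) / Dr r t := by
    apply div_nonneg
    · rw [Real.arsinh_nonneg_iff]
      exact div_nonneg (mul_nonneg hr0 h1) (by linarith)
    · linarith [Dr_one_le r t]
  have h4 : Real.arsinh (-(r * Real.sin t) / (1 - r * Real.cos t)) / Dr r t
      = - (Real.arsinh (r * Real.sin t / (1 - r * Real.cos t)) / Dr r t) := by
    rw [neg_div, Real.arsinh_neg]
    ring
  unfold Fr Gr
  rw [h4]
  generalize Real.arsinh (r * Real.sin t / (1 - r * Real.cos t)) / Dr r t = x at h3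
  rw [min_eq_right (by linarith : -x ≤ 1)]
  rcases le_total x 1 with h' | h'
  · rw [min_eq_right h', max_eq_right (by linarith)]
  · rw [min_eq_left h', max_eq_left (by linarith)]

theorem normsq_pos {r t : ℝ} (hr0 : 0 ≤ r) (hr1 : r ≤ 1) (hd : 0 < 1 - r * Real.cos t) :
    0 < 1 + r ^ 2 - 2 * r * Real.cos t := by
  have := Real.sin_sq_add_cos_sq t
  have h2 : 1 + r ^ 2 - 2 * r * Real.cos t = (1 - r * Real.cos t) ^ 2 + (r * Real.sin t) ^ 2 := by
    nlinarith
  rw [h2]
  positivity

theorem Dr_eq {r t : ℝ} (hr0 : 0 ≤ r) (hr1 : r ≤ 1) (hd : 0 < 1 - r * Real.cos t) :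
    Dr r t = √(1 + Real.log (2 / √(1 + r ^ 2 - 2 * r * Real.cos t))) := by
  have h1 := normsq_pos hr0 hr1 hd
  have h2 : √(1 + r ^ 2 - 2 * r * Real.cos t) ≤ 2 := by
    rw [Real.sqrt_le_left (by norm_num)]
    have := Real.neg_one_le_cos t
    nlinarith
  have h3 : 0 < √(1 + r ^ 2 - 2 * r * Real.cos t) := Real.sqrt_pos.mpr h1
  unfold Dr
  rw [abs_of_nonpos, ← Real.log_inv, inv_div]
  apply Real.log_nonpos
  · positivity
  · rw [div_le_one (by norm_num)]
    exact h2

theorem Dr_anti {r t t' : ℝ} (hr0 : 0 ≤ r) (hr1 : r ≤ 1) (hd : 0 < 1 - r * Real.cos t)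
    (hc : Real.cos t' ≤ Real.cos t) : Dr r t' ≤ Dr r t := by
  have hd' : 0 < 1 - r * Real.cos t' := by nlinarith
  rw [Dr_eq hr0 hr1 hd, Dr_eq hr0 hr1 hd']
  apply Real.sqrt_le_sqrt
  have h1 := normsq_pos hr0 hr1 hd
  have h1' := normsq_pos hr0 hr1 hd'
  have h3 : 0 < √(1 + r ^ 2 - 2 * r * Real.cos t) := Real.sqrt_pos.mpr h1
  have h3' : 0 < √(1 + r ^ 2 - 2 * r * Real.cos t') := Real.sqrt_pos.mpr h1'
  have h4 : √(1 + r ^ 2 - 2 * r * Real.cos t) ≤ √(1 + r ^ 2 - 2 * r * Real.cos t') := by
    apply Real.sqrt_le_sqrt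
    nlinarith
  have h5 : Real.log (2 / √(1 + r ^ 2 - 2 * r * Real.cos t'))
      ≤ Real.log (2 / √(1 + r ^ 2 - 2 * r * Real.cos t)) := by
    apply Real.log_le_log (by positivity)
    exact div_le_div_of_nonneg_left (by norm_num) h3 h4
  linarith

theorem arsinh_lip {x y : ℝ} (h : y ≤ x) : Real.arsinh x - Real.arsinh y ≤ x - y := by
  have h1 := Real.sinh_sub_id_strictMono.monotone (Real.arsinh_le_arsinh.mpr h)
  simp only [Real.sinh_arsinh] at h1
  linarith

/-- clamp lemma -/
theorem clamp {r t : ℝ} (hr0 : 0 ≤ r) (hr1 : r ≤ 1) (ht0 : 0 ≤ t) (ht1 : t ≤ Real.pi)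
    (hd : 0 < 1 - r * Real.cos t) (hc : Real.cos t ≤ r)
    (hN : 1 + r ^ 2 - 2 * r * Real.cos t ≤ 1 / 16) : Gr r t = 1 := by
  have hNpos := normsq_pos hr0 hr1 hd
  have hs : 0 ≤ Real.sin t := Real.sin_nonneg_of_nonneg_of_le_pi ht0 ht1
  have hsc := Real.sin_sq_add_cos_sq t
  set c := Real.cos t with hcdef
  set s := Real.sin t with hsdef
  set N := √(1 + r ^ 2 - 2 * r * c) with hNdef
  have hN0 : 0 < N := Real.sqrt_pos.mpr hNpos
  have hNsq : N ^ 2 = 1 + r ^ 2 - 2 * r * c := Real.sq_sqrt hNpos.le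
  have hN4 : N ≤ 1 / 4 := by
    rw [hNdef, Real.sqrt_le_left (by norm_num)]
    linarith
  have hre : 1 - r * c ≤ N ^ 2 := by nlinarith
  have him : 0.96 * N ≤ r * s := by
    have h1 : (r * s) ^ 2 = N ^ 2 - (1 - r * c) ^ 2 := by nlinarith
    have h2 : (1 - r * c) ^ 2 ≤ N ^ 2 * N ^ 2 := by nlinarith
    have h3 : (0.96 * N) ^ 2 ≤ (r * s) ^ 2 := by
      rw [h1]
      have h4 : N ^ 2 ≤ 1 / 16 := by linarith
      nlinarith [sq_nonneg N]
    exact le_of_sq_le_sq h3 (mul_nonneg hr0 hs)
  have hq : 0.96 / N ≤ r * s / (1 - r * c) := by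
    rw [div_le_div_iff₀ hN0 hd]
    nlinarith
  have hqpos : 0 < r * s / (1 - r * c) := lt_of_lt_of_le (by positivity) hq
  have har : Real.log (1.92 / N) ≤ Real.arsinh (r * s / (1 - r * c)) := by
    have h1 : Real.arsinh (0.96 / N) ≤ Real.arsinh (r * s / (1 - r * c)) :=
      Real.arsinh_le_arsinh.mpr hq
    refine le_trans ?_ h1
    unfold Real.arsinh
    apply Real.log_le_log (by positivity)
    have h2 : 0.96 / N ≤ √(1 + (0.96 / N) ^ 2) := by
      apply Real.le_sqrt_of_sq_le
      linarith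
    have h3 : 1.92 / N = 0.96 / N + 0.96 / N := by ring
    rw [h3]
    linarith
  have hv : 2 ≤ Real.log (2 / N) := by
    have h1 : Real.log 8 ≤ Real.log (2 / N) := by
      apply Real.log_le_log (by norm_num)
      rw [le_div_iff₀ hN0]
      linarith
    have h2 : Real.log 8 = 3 * Real.log 2 := by
      rw [show (8 : ℝ) = 2 ^ 3 by norm_num, Real.log_pow]
      norm_num
    have h3 := Real.log_two_gt_d9
    linarith
  have hlog : Real.log (2 / N) - 0.05 ≤ Real.log (1.92 / N) := by
    have h1 : (1.92 / N) = (2 / N) * 0.96 := by ring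
    rw [h1, Real.log_mul (by positivity) (by norm_num)]
    have h2 := Real.one_sub_inv_le_log_of_pos (show (0 : ℝ) < 0.96 by norm_num)
    have h3 : (-0.05 : ℝ) ≤ 1 - (0.96 : ℝ)⁻¹ := by norm_num
    linarith
  have hD : Dr r t ≤ Real.arsinh (r * s / (1 - r * c)) := by
    rw [Dr_eq hr0 hr1 hd]
    refine le_trans ?_ har
    refine le_trans ?_ hlog
    rw [← hcdef, ← hNdef]
    set v := Real.log (2 / N)
    rw [Real.sqrt_le_left (by linarith)]
    nlinarith
  unfold Gr
  rw [← hcdef, ← hsdef]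
  apply min_eq_left
  rw [le_div_iff₀ (by linarith [Dr_one_le r t])]
  linarith

/-- comparison when the quotient changes by at most `δ` -/
theorem Gr_cmp {r t t' δ : ℝ} (hr0 : 0 ≤ r) (hr1 : r ≤ 1)
    (hd : 0 < 1 - r * Real.cos t) (hc : Real.cos t' ≤ Real.cos t)
    (hs' : 0 ≤ Real.sin t') (hδ : 0 ≤ δ)
    (hq : r * Real.sin t / (1 - r * Real.cos t) - r * Real.sin t' / (1 - r * Real.cos t') ≤ δ) :
    Gr r t - Gr r t' ≤ δ := by
  have hd' : 0 < 1 - r * Real.cos t' := by nlinarith
  have hDD := Dr_anti hr0 hr1 hd hc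
  have hD1 := Dr_one_le r t
  have hD1' := Dr_one_le r t'
  unfold Gr
  set q := r * Real.sin t / (1 - r * Real.cos t)
  have hq'0 : 0 ≤ r * Real.sin t' / (1 - r * Real.cos t') :=
    div_nonneg (mul_nonneg hr0 hs') hd'.le
  set q' := r * Real.sin t' / (1 - r * Real.cos t')
  have ha' : 0 ≤ Real.arsinh q' := Real.arsinh_nonneg_iff.mpr hq'0
  have h1 : Real.arsinh q' / Dr r t ≤ Real.arsinh q' / Dr r t' :=
    div_le_div_of_nonneg_left ha' (by linarith) hDD
  have h2 : Real.arsinh q / Dr r t - Real.arsinh q' / Dr r t ≤ δ := by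
    rw [← sub_div, div_le_iff₀ (by linarith)]
    have h3 : Real.arsinh q - Real.arsinh q' ≤ δ := by
      rcases le_total q' q with h | h
      · linarith [arsinh_lip h]
      · have := Real.arsinh_le_arsinh.mpr h
        linarith
    nlinarith
  have h4 : Real.arsinh q / Dr r t ≤ Real.arsinh q' / Dr r t' + δ := by linarith
  rcases le_total (Real.arsinh q' / Dr r t') 1 with h | h
  · rw [min_eq_right h]
    have := min_le_right 1 (Real.arsinh q / Dr r t)
    linarith
  · rw [min_eq_left h]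
    have := min_le_left 1 (Real.arsinh q / Dr r t)
    linarith

theorem keyK {r t t' : ℝ} (hr0 : 0 ≤ r) (hr1 : r ≤ 1) (ht0 : 0 ≤ t) (htt : t < t')
    (ht1 : t' ≤ Real.pi) (hd : 0 < 1 - r * Real.cos t) (hsm : t' - t < 1 / 100) :
    Gr r t - Gr r t' ≤ 5000 * (t' - t) := by
  have hc : Real.cos t' ≤ Real.cos t := Real.cos_le_cos_of_nonneg_of_le_pi ht0 ht1 htt.le
  have hs' : 0 ≤ Real.sin t' := Real.sin_nonneg_of_nonneg_of_le_pi (by linarith) ht1
  have hs : 0 ≤ Real.sin t := Real.sin_nonneg_of_nonneg_of_le_pi ht0 (by linarith)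
  have hd' : 0 < 1 - r * Real.cos t' := by nlinarith
  rcases le_or_gt r (Real.cos t') with hrc | hrc
  · -- increasing quotient
    refine (Gr_cmp (δ := 0) hr0 hr1 hd hc hs' le_rfl ?_).trans (by nlinarith)
    rw [sub_nonpos, div_le_div_iff₀ hd hd']
    have hA : Real.sin t - Real.sin t' = 2 * Real.sin ((t - t') / 2) * Real.cos ((t + t') / 2) :=
      Real.sin_sub_sin t t'
    have hB : Real.sin t * Real.cos t' - Real.cos t * Real.sin t' = Real.sin (t - t') :=
      (Real.sin_sub t t').symm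
    have hC : Real.sin (t - t') = 2 * Real.sin ((t - t') / 2) * Real.cos ((t - t') / 2) := by
      rw [← Real.sin_two_mul]
      congr 1
      ring
    have hD : Real.sin ((t - t') / 2) ≤ 0 := by
      apply Real.sin_nonpos_of_nonpos_of_neg_pi_le
      · linarith
      · linarith [Real.pi_gt_three]
    have hE : r ≤ Real.cos ((t + t') / 2) :=
      hrc.trans (Real.cos_le_cos_of_nonneg_of_le_pi (by linarith) ht1 (by linarith))
    have hF : r * Real.cos ((t - t') / 2) ≤ Real.cos ((t + t') / 2) := by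
      have := Real.cos_le_one ((t - t') / 2)
      nlinarith
    have key : Real.sin t - Real.sin t' ≤
        r * (Real.sin t * Real.cos t' - Real.cos t * Real.sin t') := by
      rw [hA, hB, hC]
      nlinarith
    nlinarith
  · rcases le_or_gt (1 + r ^ 2 - 2 * r * Real.cos t') (1 / 16) with hN | hN
    · rw [clamp hr0 hr1 (by linarith) ht1 hd' hrc.le hN]
      linarith [Gr_le_one r t]
    · -- away from the singular point
      refine Gr_cmp hr0 hr1 hd hc hs' (by linarith) ?_
      have hcl : Real.cos t - Real.cos t' ≤ t' - t := by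
        have := Real.abs_cos_sub_cos_le t t'
        have h2 : |t - t'| = t' - t := by rw [abs_sub_comm, abs_of_pos (by linarith)]
        rw [h2] at this
        exact (le_abs_self _).trans this
      have hsl : Real.sin t - Real.sin t' ≤ t' - t := by
        have := Real.abs_sin_sub_sin_le t t'
        have h2 : |t - t'| = t' - t := by rw [abs_sub_comm, abs_of_pos (by linarith)]
        rw [h2] at this
        exact (le_abs_self _).trans this
      have hd1 : (1 : ℝ) / 50 ≤ 1 - r * Real.cos t := by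
        have h3 : r * (Real.cos t - Real.cos t') ≤ 1 / 100 := by
          have : 0 ≤ Real.cos t - Real.cos t' := by linarith
          nlinarith
        nlinarith
      have hd1' : (1 : ℝ) / 50 ≤ 1 - r * Real.cos t' := by
        nlinarith
      have hB : Real.sin t * Real.cos t' - Real.cos t * Real.sin t' = Real.sin (t - t') :=
        (Real.sin_sub t t').symm
      have hC : -(t' - t) ≤ Real.sin (t - t') := by
        have h1 := Real.sin_le (show (0 : ℝ) ≤ t' - t by linarith)
        have h2 : Real.sin (t - t') = - Real.sin (t' - t) := by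
          rw [← Real.sin_neg]
          congr 1
          ring
        linarith
      rw [div_sub_div _ _ hd.ne' hd'.ne', div_le_iff₀ (mul_pos hd hd')]
      have h1 : r * Real.sin t * (1 - r * Real.cos t') - (1 - r * Real.cos t) * (r * Real.sin t')
          = r * (Real.sin t - Real.sin t') - r ^ 2 * Real.sin (t - t') := by
        rw [← hB]
        ring
      have h2 : r * (Real.sin t - Real.sin t') ≤ t' - t := by
        rcases le_total 0 (Real.sin t - Real.sin t') with h | h
        · nlinarith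
        · nlinarith
      have h3 : - (r ^ 2 * Real.sin (t - t')) ≤ t' - t := by
        have h4 : r ^ 2 ≤ 1 := by nlinarith
        have h5 : 0 ≤ r ^ 2 := sq_nonneg r
        rcases le_total 0 (Real.sin (t - t')) with h | h
        · nlinarith
        · nlinarith
      have h4 : (1 : ℝ) / 2500 ≤ (1 - r * Real.cos t) * (1 - r * Real.cos t') := by nlinarith
      rw [h1]
      have h5 : 2 * (t' - t) ≤ 5000 * (t' - t) * ((1 - r * Real.cos t) * (1 - r * Real.cos t')) := by
        have : 0 < t' - t := by linarith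
        nlinarith
      linarith

theorem nonspec {r t : ℝ} (hr0 : 0 ≤ r) (hr1 : r ≤ 1) (ht0 : 0 < t) (ht1 : t ≤ Real.pi) :
    0 < 1 - r * Real.cos t := by
  have h1 : Real.cos t < 1 := by
    have := Real.cos_lt_cos_of_nonneg_of_le_pi le_rfl ht1 ht0
    simpa using this
  rcases le_total (Real.cos t) 0 with h | h
  · nlinarith
  · nlinarith

theorem clamp0 {t : ℝ} (ht0 : 0 < t) (ht1 : t < 1 / 100) : Gr 1 t = 1 := by
  have hp := Real.pi_gt_three
  have h1 := Real.one_sub_sq_div_two_le_cos (x := t)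
  apply clamp (by norm_num) le_rfl ht0.le (by linarith)
    (nonspec (by norm_num) le_rfl ht0 (by linarith)) (Real.cos_le_one t)
  nlinarith

theorem Gr_pi (r : ℝ) : Gr r Real.pi = 0 := by
  unfold Gr
  simp

theorem main1 {r t t' a b : ℝ} (hr0 : 0 ≤ r) (hr1 : r ≤ 1) (ht0 : -Real.pi ≤ t)
    (ht1 : t < Real.pi) (htt : t < t') (hsm : t' - t < 1 / 100) (ha : |a| ≤ 1) (hb : |b| ≤ 1)
    (hA : 0 < 1 - r * Real.cos t → a = Fr r t) (hB : 0 < 1 - r * Real.cos t' → b = Fr r t') :
    b - a ≤ 5000 * (t' - t) := by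
  have hp := Real.pi_gt_three
  rw [abs_le] at ha hb
  rcases le_or_gt 0 t with h0 | h0
  · rcases le_or_gt t' Real.pi with h1 | h1
    · have hb' := hB (nonspec hr0 hr1 (by linarith) h1)
      rw [Fr_eq hr0 hr1 (by linarith) h1] at hb'
      by_cases hd : 0 < 1 - r * Real.cos t
      · have ha' := hA hd
        rw [Fr_eq hr0 hr1 h0 ht1.le] at ha'
        have := keyK hr0 hr1 h0 htt h1 hd hsm
        linarith
      · have h2 : t = 0 := by
          by_contra h3
          exact hd (nonspec hr0 hr1 (lt_of_le_of_ne h0 (Ne.symm h3)) ht1.le)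
        subst h2
        have h3 : r = 1 := by
          simp only [Real.cos_zero, mul_one, sub_pos, not_lt] at hd
          linarith
        subst h3
        rw [clamp0 htt (by linarith)] at hb'
        linarith
    · have ha' := hA (nonspec hr0 hr1 (by linarith) ht1.le)
      rw [Fr_eq hr0 hr1 h0 ht1.le] at ha'
      have hcos : Real.cos t' = Real.cos (2 * Real.pi - t') := (Real.cos_two_pi_sub t').symm
      have hF : Fr r t' = - Fr r (2 * Real.pi - t') := by
        rw [← Fr_neg]
        unfold Fr Dr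
        rw [show -(2 * Real.pi - t') = t' - 2 * Real.pi by ring, Real.cos_sub_two_pi,
          Real.sin_sub_two_pi]
      have hns := nonspec hr0 hr1 (show 0 < 2 * Real.pi - t' by linarith) (by linarith)
      have hb' := hB (by rw [hcos]; exact hns)
      rw [hF, Fr_eq hr0 hr1 (by linarith) (by linarith), neg_neg] at hb'
      have k1 := keyK hr0 hr1 (show 0 ≤ 2 * Real.pi - t' by linarith)
        (show 2 * Real.pi - t' < Real.pi by linarith) le_rfl hns (by linarith)
      have k2 := keyK hr0 hr1 h0 ht1 le_rfl (nonspec hr0 hr1 (by linarith) ht1.le) (by linarith)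
      rw [Gr_pi] at k1 k2
      linarith
  · have hF : Fr r t = - Fr r (-t) := by rw [Fr_neg, neg_neg]
    have hF' : Fr r t' = - Fr r (-t') := by rw [Fr_neg, neg_neg]
    have hns : 0 < 1 - r * Real.cos t := by
      rw [← Real.cos_neg]
      exact nonspec hr0 hr1 (by linarith) (by linarith)
    have ha' := hA hns
    rw [hF, Fr_eq hr0 hr1 (by linarith) (by linarith), neg_neg] at ha'
    rcases le_or_gt t' 0 with h1 | h1
    · by_cases hd : 0 < 1 - r * Real.cos t'
      · have hb' := hB hd
        rw [hF', Fr_eq hr0 hr1 (by linarith) (by linarith), neg_neg] at hb'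
        have := keyK hr0 hr1 (show 0 ≤ -t' by linarith) (show -t' < -t by linarith)
          (by linarith) (by rw [Real.cos_neg]; exact hd) (by linarith)
        linarith
      · have h2 : t' = 0 := by
          by_contra h3
          have h4 := nonspec hr0 hr1 (show 0 < -t' from by
            have := lt_of_le_of_ne h1 h3
            linarith) (by linarith)
          rw [Real.cos_neg] at h4
          exact hd h4
        subst h2
        have h3 : r = 1 := by
          simp only [Real.cos_zero, mul_one, sub_pos, not_lt] at hd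
          linarith
        subst h3
        rw [clamp0 (show 0 < -t by linarith) (by linarith)] at ha'
        linarith
    · have hb' := hB (nonspec hr0 hr1 h1 (by linarith))
      rw [Fr_eq hr0 hr1 h1.le (by linarith)] at hb'
      have g1 := Gr_nonneg hr0 hr1 (show 0 ≤ -t by linarith) (by linarith)
      have g2 := Gr_nonneg hr0 hr1 h1.le (show t' ≤ Real.pi by linarith)
      linarith

/-- TARGET. One sided Lipschitz estimate along the circles of radius `r ≤ 1`. -/
theorem osl : ∃ L : ℝ, 0 < L ∧ ∀ r θ θ' a b : ℝ, 0 ≤ r → r ≤ 1 → θ < θ' → |a| ≤ 1 → |b| ≤ 1 →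
    ((r : ℂ) * Complex.exp (θ * Complex.I) ≠ 1 →
      a = Ff (1 - (r : ℂ) * Complex.exp (θ * Complex.I))) →
    ((r : ℂ) * Complex.exp (θ' * Complex.I) ≠ 1 →
      b = Ff (1 - (r : ℂ) * Complex.exp (θ' * Complex.I))) →
    b - a ≤ L * (θ' - θ) := by
  refine ⟨5000, by norm_num, ?_⟩
  intro r θ θ' a b hr0 hr1 hθ ha hb hA hB
  have hp := Real.pi_pos
  have ha2 := abs_le.mp ha
  have hb2 := abs_le.mp hb
  rcases le_or_gt (1 / 100) (θ' - θ) with h | h
  · linarith
  · set k : ℤ := ⌊(θ + Real.pi) / (2 * Real.pi)⌋ with hk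
    have h1 : (k : ℝ) ≤ (θ + Real.pi) / (2 * Real.pi) := Int.floor_le _
    have h2 : (θ + Real.pi) / (2 * Real.pi) < k + 1 := Int.lt_floor_add_one _
    rw [le_div_iff₀ (by positivity)] at h1
    rw [div_lt_iff₀ (by positivity)] at h2
    have hFk : ∀ x : ℝ, Fr r (x - k * (2 * Real.pi)) = Fr r x := by
      intro x
      unfold Fr Dr
      rw [Real.cos_sub_int_mul_two_pi, Real.sin_sub_int_mul_two_pi]
    have hne : ∀ x : ℝ, 0 < 1 - r * Real.cos x → (r : ℂ) * Complex.exp (x * Complex.I) ≠ 1 := by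
      intro x hx h3
      have h4 := congrArg Complex.re h3
      simp [Complex.exp_ofReal_mul_I_re, Complex.exp_ofReal_mul_I_im] at h4
      linarith
    have key := main1 (t := θ - k * (2 * Real.pi)) (t' := θ' - k * (2 * Real.pi)) (a := a) (b := b)
      hr0 hr1 (by linarith) (by linarith) (by linarith) (by linarith) ha hb
      (by
        intro h3
        rw [Real.cos_sub_int_mul_two_pi] at h3
        rw [hFk, hA (hne θ h3), Ff_eq])
      (by
        intro h3
        rw [Real.cos_sub_int_mul_two_pi] at h3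
        rw [hFk, hB (hne θ' h3), Ff_eq])
    linarith

end Pool.Agent.Helper852.EZ.J4
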