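import Mathlib
import Pool.Agent.Helper852.EZ.FDefs

set_option autoImplicit false

namespace Pool.Agent.Helper852.EZ.J5a

theorem arsinh_lip_aux (a b : ℝ) : |Real.arsinh b - Real.arsinh a| ≤ |b - a| := by
  have h := Convex.norm_image_sub_le_of_norm_hasDerivWithin_le (f := Real.arsinh)
    (f' := fun x => (√(1 + x ^ 2))⁻¹) (C := 1) (s := Set.univ) (x := a) (y := b)
    (fun x _ => (Real.hasDerivAt_arsinh x).hasDerivWithinAt)
    (fun x _ => by
      rw [Real.norm_of_nonneg (by positivity)]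
      apply inv_le_one_of_one_le₀
      rw [Real.one_le_sqrt]
      nlinarith [sq_nonneg x]) convex_univ (Set.mem_univ _) (Set.mem_univ _)
  simpa [Real.norm_eq_abs] using h

theorem arsinh_scale_aux (s k : ℝ) (hk : 0 < k) :
    |Real.arsinh (k * s) - Real.arsinh s| ≤ |Real.log k| := by
  have h := Convex.norm_image_sub_le_of_norm_hasDerivWithin_le
    (f := fun l => Real.arsinh (Real.exp l * s))
    (f' := fun l => (√(1 + (Real.exp l * s) ^ 2))⁻¹ * (Real.exp l * s)) (C := 1)
    (s := Set.univ) (x := 0) (y := Real.log k)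
    (fun x _ => by
      have h1 : HasDerivAt (fun l => Real.exp l * s) (Real.exp x * s) x :=
        (Real.hasDerivAt_exp x).mul_const s
      have h2 := (Real.hasDerivAt_arsinh (Real.exp x * s)).comp x h1
      exact h2.hasDerivWithinAt)
    (fun x _ => by
      rw [Real.norm_eq_abs, abs_mul, abs_of_nonneg (by positivity), inv_mul_eq_div]
      apply div_le_one_of_le₀ _ (by positivity)
      apply Real.abs_le_sqrt
      linarith) convex_univ (Set.mem_univ _) (Set.mem_univ _)
  simpa [Real.norm_eq_abs, Real.exp_log hk] using h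

theorem clamp_lip_aux (a b : ℝ) :
    |max (-1) (min 1 a) - max (-1) (min 1 b)| ≤ |a - b| := by
  calc |max (-1) (min 1 a) - max (-1) (min 1 b)| ≤ |min 1 a - min 1 b| := by
        have := abs_max_sub_max_le_max (-1) (min 1 a) (-1) (min 1 b)
        simpa using this
    _ ≤ |a - b| := by
        have := abs_min_sub_min_le_max 1 a 1 b
        simpa using this

theorem clamp_of_one_le {a : ℝ} (h : 1 ≤ a) : max (-1) (min 1 a) = 1 := by
  rw [min_eq_left h]; norm_num

theorem clamp_of_le_neg_one {a : ℝ} (h : a ≤ -1) : max (-1) (min 1 a) = -1 := by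
  rw [min_eq_right (by linarith), max_eq_left h]

theorem clamp_scale_aux (N d e : ℝ) (hd : 0 < d) (he : 0 < e) :
    |max (-1) (min 1 (N / d)) - max (-1) (min 1 (N / e))| ≤ |d - e| / d + |d - e| / e := by
  have hnn1 : 0 ≤ |d - e| / d := by positivity
  have hnn2 : 0 ≤ |d - e| / e := by positivity
  have hdiff : N / d - N / e = (N / d) * ((e - d) / e) := by
    field_simp
  have hdiff' : N / d - N / e = (N / e) * ((e - d) / d) := by
    field_simp
  have case1 : |N / d| ≤ 1 →
      |max (-1) (min 1 (N / d)) - max (-1) (min 1 (N / e))| ≤ |d - e| / d + |d - e| / e := by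
    intro h
    refine (clamp_lip_aux _ _).trans ?_
    rw [hdiff, abs_mul, abs_div (e - d), abs_of_pos he, abs_sub_comm e d]
    nlinarith
  have case2 : |N / e| ≤ 1 →
      |max (-1) (min 1 (N / d)) - max (-1) (min 1 (N / e))| ≤ |d - e| / d + |d - e| / e := by
    intro h
    refine (clamp_lip_aux _ _).trans ?_
    rw [hdiff', abs_mul, abs_div (e - d), abs_of_pos hd, abs_sub_comm e d]
    nlinarith
  rcases le_or_gt |N / d| 1 with h1 | h1
  · exact case1 h1
  rcases le_or_gt |N / e| 1 with h2 | h2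
  · exact case2 h2
  rcases le_total 0 N with hN | hN
  · rw [abs_of_nonneg (by positivity)] at h1 h2
    rw [clamp_of_one_le h1.le, clamp_of_one_le h2.le]
    simp only [sub_self, abs_zero]
    positivity
  · have h3 : N / d ≤ 0 := div_nonpos_of_nonpos_of_nonneg hN hd.le
    have h4 : N / e ≤ 0 := div_nonpos_of_nonpos_of_nonneg hN he.le
    rw [abs_of_nonpos h3] at h1
    rw [abs_of_nonpos h4] at h2
    rw [clamp_of_le_neg_one (by linarith), clamp_of_le_neg_one (by linarith)]
    simp only [sub_self, abs_zero]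
    positivity

theorem Nf_close_aux (C K : ℝ) (hC : 0 ≤ C) (hK : 1 ≤ K) (u v : ℂ) (t : ℝ) (ht1 : 1 / K ≤ t)
    (hu : 0 < u.re) (hv : 0 < v.re)
    (h1 : ‖(t : ℂ) * u - v‖ ≤ C * u.re) (h2 : ‖(t : ℂ) * u - v‖ ≤ C * v.re) :
    |Nf u - Nf v| ≤ C + (1 + C * K) := by
  have hK0 : 0 < K := by linarith
  have ht0 : 0 < t := lt_of_lt_of_le (by positivity) ht1
  have htK : 1 ≤ t * K := by
    rw [div_le_iff₀ hK0] at ht1
    exact ht1
  have hre : |t * u.re - v.re| ≤ ‖(t : ℂ) * u - v‖ := by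
    have := Complex.abs_re_le_norm ((t : ℂ) * u - v)
    simpa using this
  have him : |t * u.im - v.im| ≤ ‖(t : ℂ) * u - v‖ := by
    have := Complex.abs_im_le_norm ((t : ℂ) * u - v)
    simpa using this
  set k : ℝ := t * u.re / v.re with hk
  have hk0 : 0 < k := by positivity
  have hk1 : k ≤ 1 + C := by
    rw [hk, div_le_iff₀ hv]
    have := (abs_le.1 (hre.trans h2)).2
    linarith
  have hk2 : k⁻¹ ≤ 1 + C * K := by
    rw [hk, inv_div, div_le_iff₀ (by positivity)]
    have := (abs_le.1 (hre.trans h1)).1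
    have h5 : C * u.re ≤ C * u.re * (t * K) := by
      nlinarith [mul_nonneg hC hu.le]
    nlinarith
  have hlogk : |Real.log k| ≤ 1 + C * K := by
    rw [abs_le]
    constructor
    · have := Real.log_le_self (inv_pos.2 hk0).le
      rw [Real.log_inv] at this
      linarith
    · have := Real.log_le_self hk0.le
      nlinarith
  have hs : |k * (u.im / u.re) - v.im / v.re| ≤ C := by
    have : k * (u.im / u.re) - v.im / v.re = (t * u.im - v.im) / v.re := by
      rw [hk]
      field_simp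
    rw [this, abs_div, abs_of_pos hv, div_le_iff₀ hv]
    exact him.trans h2
  unfold Nf
  have h6 := arsinh_scale_aux (u.im / u.re) k hk0
  have h7 := arsinh_lip_aux (v.im / v.re) (k * (u.im / u.re))
  have h8 : |Real.arsinh (u.im / u.re) - Real.arsinh (v.im / v.re)| ≤
      |Real.arsinh (k * (u.im / u.re)) - Real.arsinh (u.im / u.re)| +
      |Real.arsinh (k * (u.im / u.re)) - Real.arsinh (v.im / v.re)| := by
    have := abs_sub_le (Real.arsinh (u.im / u.re)) (Real.arsinh (k * (u.im / u.re)))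
      (Real.arsinh (v.im / v.re))
    rw [abs_sub_comm (Real.arsinh (u.im / u.re)) (Real.arsinh (k * (u.im / u.re)))] at this
    exact this
  linarith

theorem logclose_aux (C K : ℝ) (hC : 0 ≤ C) (hK : 1 ≤ K) (u v : ℂ) (t : ℝ) (ht1 : 1 / K ≤ t)
    (ht2 : t ≤ K) (hu : 0 < u.re) (hv : 0 < v.re)
    (h1 : ‖(t : ℂ) * u - v‖ ≤ C * u.re) (h2 : ‖(t : ℂ) * u - v‖ ≤ C * v.re) :
    |Real.log (‖u‖ / 2) - Real.log (‖v‖ / 2)| ≤ K * (1 + C) := by
  have hK0 : 0 < K := by linarith
  have ht0 : 0 < t := lt_of_lt_of_le (by positivity) ht1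
  have htK : 1 ≤ t * K := by
    rw [div_le_iff₀ hK0] at ht1
    exact ht1
  have hun : u.re ≤ ‖u‖ := Complex.re_le_norm u
  have hvn : v.re ≤ ‖v‖ := Complex.re_le_norm v
  have hu0 : 0 < ‖u‖ := by linarith
  have hv0 : 0 < ‖v‖ := by linarith
  have htu : ‖(t : ℂ) * u‖ = t * ‖u‖ := by
    rw [norm_mul, Complex.norm_real, Real.norm_of_nonneg ht0.le]
  have h3 : ‖v‖ ≤ K * (1 + C) * ‖u‖ := by
    have : ‖v‖ ≤ ‖(t : ℂ) * u‖ + ‖(t : ℂ) * u - v‖ := by
      have := norm_sub_le ((t : ℂ) * u) ((t : ℂ) * u - v)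
      simpa using this
    rw [htu] at this
    have h4 : t * ‖u‖ ≤ K * ‖u‖ := mul_le_mul_of_nonneg_right ht2 hu0.le
    have h5 : C * u.re ≤ C * ‖u‖ := mul_le_mul_of_nonneg_left hun hC
    have h6 : C * ‖u‖ ≤ K * (C * ‖u‖) := by
      have : 0 ≤ C * ‖u‖ := by positivity
      nlinarith
    nlinarith
  have h4 : ‖u‖ ≤ K * (1 + C) * ‖v‖ := by
    have h7 : ‖(t : ℂ) * u‖ ≤ ‖v‖ + ‖(t : ℂ) * u - v‖ := by
      have := norm_add_le v ((t : ℂ) * u - v)
      simpa using this
    rw [htu] at h7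
    have h5 : C * v.re ≤ C * ‖v‖ := mul_le_mul_of_nonneg_left hvn hC
    have h8 : t * ‖u‖ ≤ (1 + C) * ‖v‖ := by linarith
    have h9 : ‖u‖ ≤ (t * K) * ‖u‖ := by nlinarith
    nlinarith
  have hKC : 0 < K * (1 + C) := by positivity
  have hl : Real.log (K * (1 + C)) ≤ K * (1 + C) := Real.log_le_self hKC.le
  rw [Real.log_div hu0.ne' (by norm_num), Real.log_div hv0.ne' (by norm_num), abs_le]
  constructor
  · have := Real.log_le_log hv0 h3
    rw [Real.log_mul hKC.ne' hu0.ne'] at this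
    linarith
  · have := Real.log_le_log hu0 h4
    rw [Real.log_mul hKC.ne' hv0.ne'] at this
    linarith

theorem le_of_sq_le_sq_aux {a b : ℝ} (hb : 0 ≤ b) (h : a ^ 2 ≤ b ^ 2) : a ≤ b :=
  (abs_le_of_sq_le_sq' h hb).2

/-- TARGET. `Ff` varies slowly near `0`. -/
theorem Ff_close (C K : ℝ) (hK : 1 ≤ K) (ε : ℝ) (hε : 0 < ε) :
    ∃ δ > 0, ∀ (u v : ℂ) (t : ℝ), 1 / K ≤ t → t ≤ K → 0 < u.re → 0 < v.re → ‖u‖ < δ →
      ‖(t : ℂ) * u - v‖ ≤ C * u.re → ‖(t : ℂ) * u - v‖ ≤ C * v.re → |Ff u - Ff v| ≤ ε := by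
  rcases lt_or_ge C 0 with hC | hC
  · refine ⟨1, one_pos, ?_⟩
    intro u v t _ _ hu _ _ h1 _
    exfalso
    have := norm_nonneg ((t : ℂ) * u - v)
    nlinarith
  set M : ℝ := C + (1 + C * K) with hM
  set M' : ℝ := K * (1 + C) with hM'
  have hM0 : 0 < M := by
    have : 0 ≤ C * K := by positivity
    linarith
  have hM'0 : 0 ≤ M' := by positivity
  set R : ℝ := (M + M') / ε with hR
  have hR0 : 0 < R := by positivity
  refine ⟨2 * Real.exp (-(M' + R ^ 2)), by positivity, ?_⟩
  intro u v t ht1 ht2 hu hv hδ h1 h2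
  have hN := Nf_close_aux C K hC hK u v t ht1 hu hv h1 h2
  have hL := logclose_aux C K hC hK u v t ht1 ht2 hu hv h1 h2
  rw [← hM] at hN
  rw [← hM'] at hL
  have hun : u.re ≤ ‖u‖ := Complex.re_le_norm u
  have hu0 : 0 < ‖u‖ := by linarith
  have hlog : Real.log (‖u‖ / 2) < -(M' + R ^ 2) := by
    rw [Real.log_lt_iff_lt_exp (by positivity)]
    linarith
  have hd0 : 1 ≤ Df u := by
    unfold Df
    rw [Real.one_le_sqrt]
    linarith [abs_nonneg (Real.log (‖u‖ / 2))]
  have he0 : 1 ≤ Df v := by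
    unfold Df
    rw [Real.one_le_sqrt]
    linarith [abs_nonneg (Real.log (‖v‖ / 2))]
  have hd2 : Df u ^ 2 = 1 + |Real.log (‖u‖ / 2)| := by
    unfold Df
    rw [Real.sq_sqrt (by positivity)]
  have he2 : Df v ^ 2 = 1 + |Real.log (‖v‖ / 2)| := by
    unfold Df
    rw [Real.sq_sqrt (by positivity)]
  have habs : |(|Real.log (‖u‖ / 2)| - |Real.log (‖v‖ / 2)|)| ≤ M' :=
    (abs_abs_sub_abs_le _ _).trans hL
  have hde : |Df u - Df v| ≤ M' / 2 := by
    have h3 : |Df u - Df v| * (Df u + Df v) ≤ M' := by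
      have : |Df u - Df v| * (Df u + Df v) = |Df u ^ 2 - Df v ^ 2| := by
        rw [← abs_of_pos (by linarith : 0 < Df u + Df v), ← abs_mul]
        congr 1
        ring
      rw [this, hd2, he2]
      have : 1 + |Real.log (‖u‖ / 2)| - (1 + |Real.log (‖v‖ / 2)|) =
        |Real.log (‖u‖ / 2)| - |Real.log (‖v‖ / 2)| := by ring
      rw [this]
      exact habs
    have := abs_nonneg (Df u - Df v)
    nlinarith
  have hdR : R ≤ Df u := by
    have : R ^ 2 ≤ Df u ^ 2 := by
      rw [hd2]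
      have := neg_abs_le (Real.log (‖u‖ / 2))
      linarith
    exact le_of_sq_le_sq_aux (by linarith) this
  have heR : R ≤ Df v := by
    have : R ^ 2 ≤ Df v ^ 2 := by
      rw [he2]
      have h5 := neg_abs_le (Real.log (‖u‖ / 2))
      have h6 := (abs_le.1 habs).2
      linarith
    exact le_of_sq_le_sq_aux (by linarith) this
  unfold Ff
  have hA := clamp_scale_aux (Nf u) (Df u) (Df v) (by linarith) (by linarith)
  have hB := clamp_lip_aux (Nf u / Df v) (Nf v / Df v)
  have hB2 : |Nf u / Df v - Nf v / Df v| ≤ M / R := by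
    rw [← sub_div, abs_div, abs_of_pos (by linarith : 0 < Df v)]
    exact div_le_div₀ hM0.le hN hR0 heR
  have hA1 : |Df u - Df v| / Df u ≤ (M' / 2) / R :=
    div_le_div₀ (by positivity) hde hR0 hdR
  have hA2 : |Df u - Df v| / Df v ≤ (M' / 2) / R :=
    div_le_div₀ (by positivity) hde hR0 heR
  have hfin : M / R + (M' / 2) / R + (M' / 2) / R = ε := by
    rw [hR]
    field_simp
    ring
  have htri := abs_sub_le (max (-1) (min 1 (Nf u / Df u))) (max (-1) (min 1 (Nf u / Df v)))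
    (max (-1) (min 1 (Nf v / Df v)))
  linarith

end Pool.Agent.Helper852.EZ.J5a
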