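import Mathlib
import Pool.Agent.Helper852.EZ.FDefs

set_option autoImplicit false

namespace Pool.Agent.Helper852.EZ.J5b

open UpperHalfPlane
open scoped MatrixGroups ComplexConjugate

theorem det_eq (g : SL(2, ℝ)) : g 0 0 * g 1 1 - g 0 1 * g 1 0 = 1 := by
  have h := g.det_coe
  rw [Matrix.det_fin_two] at h
  exact h

theorem det_eqC (g : SL(2, ℝ)) : ((g 0 0 : ℝ) : ℂ) * (g 1 1 : ℝ) - (g 0 1 : ℝ) * (g 1 0 : ℝ) = 1 := by
  exact_mod_cast det_eq g

theorem conj_mA (g : SL(2, ℝ)) : conj (mA g) =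
    ((g 0 0 + g 1 1 : ℝ) : ℂ) - ((g 0 1 - g 1 0 : ℝ) : ℂ) * Complex.I := by
  unfold mA
  rw [map_add, map_mul, Complex.conj_I, Complex.conj_ofReal, Complex.conj_ofReal]
  ring

theorem conj_mB (g : SL(2, ℝ)) : conj (mB g) =
    ((g 0 0 - g 1 1 : ℝ) : ℂ) + ((g 0 1 + g 1 0 : ℝ) : ℂ) * Complex.I := by
  unfold mB
  rw [map_sub, map_mul, Complex.conj_I, Complex.conj_ofReal, Complex.conj_ofReal]
  ring

theorem AB_eq (g : SL(2, ℝ)) : mA g * conj (mA g) - mB g * conj (mB g) = 4 := by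
  rw [conj_mA, conj_mB]
  unfold mA mB
  push_cast
  have h := det_eqC g
  have hI : Complex.I ^ 2 = -1 := Complex.I_sq
  linear_combination 4 * h - ((g 0 1 - g 1 0 : ℂ) ^ 2 - (g 0 1 + g 1 0 : ℂ) ^ 2) * hI

theorem normSq_AB (g : SL(2, ℝ)) : Complex.normSq (mA g) - Complex.normSq (mB g) = 4 := by
  have h := AB_eq g
  rw [Complex.mul_conj, Complex.mul_conj] at h
  exact_mod_cast h

theorem norm_AB (g : SL(2, ℝ)) : ‖mA g‖ ^ 2 - ‖mB g‖ ^ 2 = 4 := by
  rw [Complex.sq_norm, Complex.sq_norm]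
  exact normSq_AB g

theorem norm_B_lt (g : SL(2, ℝ)) : ‖mB g‖ < ‖mA g‖ := by
  have h := norm_AB g
  have h1 : ‖mB g‖ ^ 2 < ‖mA g‖ ^ 2 := by linarith
  exact lt_of_pow_lt_pow_left₀ 2 (norm_nonneg _) h1

theorem mob_den_ne (g : SL(2, ℝ)) (w : ℂ) (hw : ‖w‖ ≤ 1) : conj (mB g) * w + conj (mA g) ≠ 0 := by
  intro h
  have h1 : conj (mA g) = - (conj (mB g) * w) := by linear_combination h
  have h2 : ‖mA g‖ = ‖mB g‖ * ‖w‖ := by
    have := congrArg norm h1
    rw [norm_neg, norm_mul, RCLike.norm_conj, RCLike.norm_conj] at this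
    exact this
  have h3 := norm_B_lt g
  have h4 : ‖mB g‖ * ‖w‖ ≤ ‖mB g‖ * 1 := mul_le_mul_of_nonneg_left hw (norm_nonneg _)
  linarith

theorem mob_one (w : ℂ) : mob 1 w = w := by
  unfold mob mA mB
  simp

theorem mA_mul (g h : SL(2, ℝ)) : 2 * mA (g * h) = mA g * mA h + mB g * conj (mB h) := by
  rw [conj_mB]
  unfold mA mB
  simp only [Matrix.SpecialLinearGroup.coe_mul, Matrix.mul_apply, Fin.sum_univ_two]
  push_cast
  have hI : Complex.I ^ 2 = -1 := Complex.I_sq
  linear_combination (-(g 0 1 - g 1 0 : ℂ) * (h 0 1 - h 1 0 : ℂ) + (g 0 1 + g 1 0 : ℂ) * (h 0 1 + h 1 0 : ℂ)) * hI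

theorem mB_mul (g h : SL(2, ℝ)) : 2 * mB (g * h) = mA g * mB h + mB g * conj (mA h) := by
  rw [conj_mA]
  unfold mA mB
  simp only [Matrix.SpecialLinearGroup.coe_mul, Matrix.mul_apply, Fin.sum_univ_two]
  push_cast
  have hI : Complex.I ^ 2 = -1 := Complex.I_sq
  linear_combination ((g 0 1 - g 1 0 : ℂ) * (h 0 1 + h 1 0 : ℂ) - (g 0 1 + g 1 0 : ℂ) * (h 0 1 - h 1 0 : ℂ)) * hI

theorem one_sub_norm_mob_sq (g : SL(2, ℝ)) (w : ℂ) (hw : ‖w‖ ≤ 1) :
    1 - ‖mob g w‖ ^ 2 = 4 * (1 - ‖w‖ ^ 2) / ‖conj (mB g) * w + conj (mA g)‖ ^ 2 := by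
  have hd := mob_den_ne g w hw
  have hd2 : ‖conj (mB g) * w + conj (mA g)‖ ^ 2 ≠ 0 := by
    exact pow_ne_zero 2 (norm_ne_zero_iff.2 hd)
  unfold mob
  rw [norm_div, div_pow, eq_div_iff hd2, sub_mul, div_mul_cancel₀ _ hd2]
  have h := normSq_AB g
  rw [Complex.sq_norm, Complex.sq_norm, Complex.sq_norm]
  rw [Complex.normSq_apply, Complex.normSq_apply] at h
  simp only [Complex.normSq_apply, Complex.add_re, Complex.add_im, Complex.mul_re, Complex.mul_im,
    Complex.conj_re, Complex.conj_im]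
  linear_combination (1 - (w.re * w.re + w.im * w.im)) * h

theorem norm_mob_le (g : SL(2, ℝ)) (w : ℂ) (hw : ‖w‖ ≤ 1) : ‖mob g w‖ ≤ 1 := by
  have h := one_sub_norm_mob_sq g w hw
  have h1 : 0 ≤ 4 * (1 - ‖w‖ ^ 2) / ‖conj (mB g) * w + conj (mA g)‖ ^ 2 := by
    apply div_nonneg _ (by positivity)
    have : ‖w‖ ^ 2 ≤ 1 := pow_le_one₀ (norm_nonneg _) hw
    linarith
  rw [← h] at h1
  have h2 : ‖mob g w‖ ^ 2 ≤ 1 := by linarith
  exact (sq_le_one_iff₀ (norm_nonneg _)).1 h2

theorem norm_mob_eq_one_iff (g : SL(2, ℝ)) (w : ℂ) (hw : ‖w‖ ≤ 1) : ‖mob g w‖ = 1 ↔ ‖w‖ = 1 := by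
  have h := one_sub_norm_mob_sq g w hw
  have hd := mob_den_ne g w hw
  have hd2 : ‖conj (mB g) * w + conj (mA g)‖ ^ 2 ≠ 0 := by
    exact pow_ne_zero 2 (norm_ne_zero_iff.2 hd)
  constructor
  · intro h1
    rw [h1, one_pow, sub_self] at h
    have h2 : 4 * (1 - ‖w‖ ^ 2) = 0 := by
      rcases div_eq_zero_iff.1 h.symm with h3 | h3
      · exact h3
      · exact absurd h3 hd2
    have h3 : ‖w‖ ^ 2 = 1 := by linarith
    exact (pow_eq_one_iff_of_nonneg (norm_nonneg _) two_ne_zero).1 h3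
  · intro h1
    rw [h1, one_pow, sub_self, mul_zero, zero_div] at h
    have h3 : ‖mob g w‖ ^ 2 = 1 := by linarith
    exact (pow_eq_one_iff_of_nonneg (norm_nonneg _) two_ne_zero).1 h3

theorem mob_mul (g h : SL(2, ℝ)) (w : ℂ) (hw : ‖w‖ ≤ 1) : mob (g * h) w = mob g (mob h w) := by
  have hd1 := mob_den_ne (g * h) w hw
  have hd2 := mob_den_ne h w hw
  have hd3 := mob_den_ne g (mob h w) (norm_mob_le h w hw)
  have e1 := mA_mul g h
  have e2 := mB_mul g h
  have e3 : 2 * conj (mA (g * h)) = conj (mA g) * conj (mA h) + conj (mB g) * mB h := by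
    have := congrArg (fun z => conj z) e1
    simp only [map_mul, map_add, Complex.conj_conj, map_ofNat] at this
    exact this
  have e4 : 2 * conj (mB (g * h)) = conj (mA g) * conj (mB h) + conj (mB g) * mA h := by
    have := congrArg (fun z => conj z) e2
    simp only [map_mul, map_add, Complex.conj_conj, map_ofNat] at this
    exact this
  have e5 : mob h w * (conj (mB h) * w + conj (mA h)) = mA h * w + mB h := by
    unfold mob
    rw [div_mul_cancel₀ _ hd2]
  have e6 : mob (g * h) w = (2 * mA (g * h) * w + 2 * mB (g * h)) /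
      (2 * conj (mB (g * h)) * w + 2 * conj (mA (g * h))) := by
    unfold mob
    rw [mul_assoc, mul_assoc, ← mul_add, ← mul_add, mul_div_mul_left _ _ two_ne_zero]
  rw [e6]
  have hd4 : 2 * conj (mB (g * h)) * w + 2 * conj (mA (g * h)) ≠ 0 := by
    rw [mul_assoc, ← mul_add]
    exact mul_ne_zero two_ne_zero hd1
  rw [div_eq_iff hd4]
  have e7 : mob g (mob h w) * (conj (mB g) * mob h w + conj (mA g)) = mA g * mob h w + mB g := by
    conv_lhs => rw [mob]
    rw [div_mul_cancel₀ _ hd3]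
  obtain ⟨m, hm⟩ : ∃ m, m = mob h w := ⟨_, rfl⟩
  obtain ⟨M, hM⟩ : ∃ M, M = mob g m := ⟨_, rfl⟩
  rw [← hm] at e5 e7 ⊢
  rw [← hM] at e7 ⊢
  rw [e1, e2, e3, e4]
  linear_combination (-(mA g) + M * conj (mB g)) * e5 - (conj (mB h) * w + conj (mA h)) * e7

theorem mob_sub (g : SL(2, ℝ)) (w w' : ℂ) (hw : ‖w‖ ≤ 1) (hw' : ‖w'‖ ≤ 1) :
    mob g w - mob g w' = 4 * (w - w') /
      ((conj (mB g) * w + conj (mA g)) * (conj (mB g) * w' + conj (mA g))) := by
  have hd := mob_den_ne g w hw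
  have hd' := mob_den_ne g w' hw'
  have h := AB_eq g
  unfold mob
  rw [div_sub_div _ _ hd hd']
  congr 1
  linear_combination (w - w') * h

theorem continuousOn_mob (g : SL(2, ℝ)) : ContinuousOn (mob g) (Metric.closedBall 0 1) := by
  unfold mob
  apply ContinuousOn.div
  · fun_prop
  · fun_prop
  · intro w hw
    apply mob_den_ne
    simpa using hw

theorem cay_den_ne (z : ℍ) : (z : ℂ) + Complex.I ≠ 0 := by
  intro h
  have h1 := congrArg Complex.im h
  simp at h1
  have := z.im_pos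
  linarith

theorem mob_cay_alg (a b c d x : ℂ) (hz : x + Complex.I ≠ 0) (hden : c * x + d ≠ 0) :
    ((a + d + (b - c) * Complex.I) * ((x - Complex.I) / (x + Complex.I)) + (a - d - (b + c) * Complex.I)) /
      ((a - d + (b + c) * Complex.I) * ((x - Complex.I) / (x + Complex.I)) + (a + d - (b - c) * Complex.I)) =
    ((a * x + b) / (c * x + d) - Complex.I) / ((a * x + b) / (c * x + d) + Complex.I) := by
  have hI : Complex.I ^ 2 = -1 := Complex.I_sq
  have e1 : (a + d + (b - c) * Complex.I) * ((x - Complex.I) / (x + Complex.I)) + (a - d - (b + c) * Complex.I) =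
      2 * ((a * x + b) - Complex.I * (c * x + d)) / (x + Complex.I) := by
    rw [mul_div_assoc', eq_div_iff hz, add_mul, div_mul_cancel₀ _ hz]
    linear_combination (-2 * b) * hI
  have e2 : (a - d + (b + c) * Complex.I) * ((x - Complex.I) / (x + Complex.I)) + (a + d - (b - c) * Complex.I) =
      2 * ((a * x + b) + Complex.I * (c * x + d)) / (x + Complex.I) := by
    rw [mul_div_assoc', eq_div_iff hz, add_mul, div_mul_cancel₀ _ hz]
    linear_combination (-2 * b) * hI
  rw [e1, e2, div_div_div_cancel_right₀ hz, mul_div_mul_left _ _ two_ne_zero]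
  have e3 : (a * x + b) / (c * x + d) - Complex.I = ((a * x + b) - Complex.I * (c * x + d)) / (c * x + d) := by
    rw [sub_div, mul_div_cancel_right₀ _ hden]
  have e4 : (a * x + b) / (c * x + d) + Complex.I = ((a * x + b) + Complex.I * (c * x + d)) / (c * x + d) := by
    rw [add_div (a * x + b) (Complex.I * (c * x + d)), mul_div_cancel_right₀ _ hden]
  rw [e3, e4, div_div_div_cancel_right₀ hden]

theorem mob_cay (g : SL(2, ℝ)) (z : ℍ) : mob g (cay z) = cay (g • z) := by
  have hz := cay_den_ne z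
  have hgz := cay_den_ne (g • z)
  have hden : ((g 1 0 : ℝ) : ℂ) * (z : ℂ) + ((g 1 1 : ℝ) : ℂ) ≠ 0 := by
    intro h
    have h1 := congrArg Complex.im h
    have h2 := congrArg Complex.re h
    simp at h1 h2
    have hd := det_eq g
    rcases h1 with h1 | h1
    · rw [h1] at h2 hd
      simp at h2
      rw [h2] at hd
      simp at hd
    · exact z.im_ne_zero h1
  have hs := coe_specialLinearGroup_apply g z
  simp only [Algebra.algebraMap_self, RingHom.id_apply] at hs
  unfold cay at *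
  rw [hs] at hgz ⊢
  unfold mob
  rw [conj_mA, conj_mB]
  unfold mA mB
  push_cast
  exact mob_cay_alg _ _ _ _ _ hz hden

theorem cay_norm_sq (z : ℍ) : 1 - ‖cay z‖ ^ 2 = 4 * z.im / ‖(z : ℂ) + Complex.I‖ ^ 2 := by
  have hz := cay_den_ne z
  have hz2 : ‖(z : ℂ) + Complex.I‖ ^ 2 ≠ 0 := pow_ne_zero 2 (norm_ne_zero_iff.2 hz)
  unfold cay
  rw [norm_div, div_pow, eq_div_iff hz2, sub_mul, div_mul_cancel₀ _ hz2]
  rw [Complex.sq_norm, Complex.sq_norm]
  simp only [Complex.normSq_apply, Complex.add_re, Complex.add_im, Complex.sub_re, Complex.sub_im,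
    Complex.I_re, Complex.I_im, UpperHalfPlane.coe_re, UpperHalfPlane.coe_im]
  ring

theorem norm_cay_lt (z : ℍ) : ‖cay z‖ < 1 := by
  have h := cay_norm_sq z
  have hz := cay_den_ne z
  have hz2 : 0 < ‖(z : ℂ) + Complex.I‖ := norm_pos_iff.2 hz
  have hp : 0 < 4 * z.im / ‖(z : ℂ) + Complex.I‖ ^ 2 := by
    have := z.im_pos
    positivity
  rw [← h] at hp
  have h2 : ‖cay z‖ ^ 2 < 1 := by linarith
  exact (sq_lt_one_iff₀ (norm_nonneg _)).1 h2

theorem one_sub_ne {w : ℂ} (hw : ‖w‖ < 1) : 1 - w ≠ 0 := by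
  intro h
  have : w = 1 := by linear_combination -h
  rw [this, norm_one] at hw
  exact lt_irrefl _ hw

theorem cayinv_im (w : ℂ) (hw : ‖w‖ < 1) : 0 < (Complex.I * (1 + w) / (1 - w)).im := by
  have h1 := one_sub_ne hw
  have h2 : 0 < Complex.normSq (1 - w) := Complex.normSq_pos.2 h1
  have h3 : (Complex.I * (1 + w) / (1 - w)).im = (1 - Complex.normSq w) / Complex.normSq (1 - w) := by
    rw [Complex.div_im]
    simp only [Complex.mul_im, Complex.mul_re, Complex.I_re, Complex.I_im, Complex.add_re,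
      Complex.add_im, Complex.sub_re, Complex.sub_im, Complex.one_re, Complex.one_im]
    rw [← sub_div]
    congr 1
    rw [Complex.normSq_apply]
    ring
  rw [h3]
  apply div_pos _ h2
  rw [← Complex.sq_norm]
  have : ‖w‖ ^ 2 < 1 := (sq_lt_one_iff₀ (norm_nonneg _)).2 hw
  linarith

/-- The Cayley transform is a homeomorphism onto the open unit disc. -/
theorem exists_cay_homeo : ∃ e : ℍ ≃ₜ Metric.ball (0 : ℂ) 1, ∀ z, (e z : ℂ) = cay z := by
  refine ⟨{ toFun := fun z => ⟨cay z, by simpa using norm_cay_lt z⟩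
            invFun := fun w => ⟨Complex.I * (1 + w.1) / (1 - w.1), cayinv_im w.1 (mem_ball_zero_iff.1 w.2)⟩
            left_inv := ?_
            right_inv := ?_
            continuous_toFun := ?_
            continuous_invFun := ?_ }, fun z => rfl⟩
  · intro z
    apply UpperHalfPlane.ext
    change Complex.I * (1 + cay z) / (1 - cay z) = (z : ℂ)
    have hz := cay_den_ne z
    have h1 := one_sub_ne (norm_cay_lt z)
    rw [div_eq_iff h1]
    unfold cay
    field_simp
    ring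
  · intro w
    apply Subtype.ext
    have hw : ‖w.1‖ < 1 := mem_ball_zero_iff.1 w.2
    have h1 := one_sub_ne hw
    change (Complex.I * (1 + w.1) / (1 - w.1) - Complex.I) / (Complex.I * (1 + w.1) / (1 - w.1) + Complex.I) = w.1
    have hI := Complex.I_ne_zero
    have e1 : Complex.I * (1 + w.1) / (1 - w.1) - Complex.I = 2 * Complex.I * w.1 / (1 - w.1) := by
      field_simp
      ring
    have e2 : Complex.I * (1 + w.1) / (1 - w.1) + Complex.I = 2 * Complex.I / (1 - w.1) := by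
      field_simp
      ring
    rw [e1, e2, div_div_div_cancel_right₀ h1]
    field_simp
  · apply Continuous.subtype_mk
    unfold cay
    apply Continuous.div
    · exact UpperHalfPlane.continuous_coe.sub continuous_const
    · exact UpperHalfPlane.continuous_coe.add continuous_const
    · exact cay_den_ne
  · apply UpperHalfPlane.isEmbedding_coe.continuous_iff.2
    change Continuous (fun w : Metric.ball (0 : ℂ) 1 => Complex.I * (1 + w.1) / (1 - w.1))
    apply Continuous.div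
    · fun_prop
    · fun_prop
    · intro w
      exact one_sub_ne (mem_ball_zero_iff.1 w.2)

/-- The pseudohyperbolic distance. -/
theorem cay_dist_le (z z' : ℍ) :
    ‖cay z - cay z'‖ = Real.tanh (dist z z' / 2) * ‖1 - conj (cay z) * cay z'‖ := by
  have hz := cay_den_ne z
  have hz' := cay_den_ne z'
  have hcz : conj (z : ℂ) - Complex.I ≠ 0 := by
    intro h
    apply hz
    have := congrArg (fun z => conj z) h
    simp only [map_sub, Complex.conj_conj, Complex.conj_I, map_zero] at this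
    linear_combination this
  rw [UpperHalfPlane.tanh_half_dist]
  have hne : (z : ℂ) - conj (z' : ℂ) ≠ 0 := by
    intro h
    have h1 := congrArg Complex.im h
    simp at h1
    have := z.im_pos
    have := z'.im_pos
    linarith
  have e1 : cay z - cay z' = 2 * Complex.I * ((z : ℂ) - z') /
      (((z : ℂ) + Complex.I) * ((z' : ℂ) + Complex.I)) := by
    unfold cay
    rw [div_sub_div _ _ hz hz']
    congr 1
    ring
  have e2 : 1 - conj (cay z) * cay z' = 2 * Complex.I * (conj (z : ℂ) - z') /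
      ((conj (z : ℂ) - Complex.I) * ((z' : ℂ) + Complex.I)) := by
    unfold cay
    rw [map_div₀, map_sub, map_add, Complex.conj_I, div_mul_div_comm, sub_neg_eq_add,
      ← sub_eq_add_neg, eq_div_iff (mul_ne_zero hcz hz'), sub_mul,
      div_mul_cancel₀ _ (mul_ne_zero hcz hz')]
    ring
  have e3 : ‖conj (z : ℂ) - Complex.I‖ = ‖(z : ℂ) + Complex.I‖ := by
    rw [← RCLike.norm_conj, map_sub, Complex.conj_conj, Complex.conj_I, sub_neg_eq_add]
  have e4 : ‖conj (z : ℂ) - z'‖ = ‖(z : ℂ) - conj (z' : ℂ)‖ := by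
    rw [← RCLike.norm_conj, map_sub, Complex.conj_conj]
  rw [e1, e2, dist_eq_norm, dist_eq_norm, norm_div, norm_div, norm_mul, norm_mul, norm_mul,
    norm_mul (2 * Complex.I) (conj (z : ℂ) - z'), norm_mul (conj (z : ℂ) - Complex.I), e3, e4]
  have h5 : ‖(z : ℂ) - conj (z' : ℂ)‖ ≠ 0 := norm_ne_zero_iff.2 hne
  have h6 : ‖(z : ℂ) + Complex.I‖ ≠ 0 := norm_ne_zero_iff.2 hz
  have h7 : ‖(z' : ℂ) + Complex.I‖ ≠ 0 := norm_ne_zero_iff.2 hz'
  field_simp
  rw [norm_mul]
  ring

end Pool.Agent.Helper852.EZ.J5b
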