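import Mathlib
import Pool.Agent.Helper852.EZ.FDefs
import Pool.Agent.Helper852.EZ.J5a
import Pool.Agent.Helper852.EZ.J5b

set_option autoImplicit false

namespace Pool.Agent.Helper852.EZ.J5c

open Pool.Agent.Helper852.EZ.J5a (Ff_close)
open Pool.Agent.Helper852.EZ.J5b (mob_den_ne norm_mob_le norm_mob_eq_one_iff mob_sub norm_cay_lt cay_dist_le)

open UpperHalfPlane
open scoped MatrixGroups ComplexConjugate

theorem sq_le_two_re (w ζ : ℂ) (hw : ‖w‖ ≤ 1) (hζ : ‖ζ‖ = 1) :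
    ‖w - ζ‖ ^ 2 ≤ 2 * (1 - w * conj ζ).re := by
  have h1 : ‖w - ζ‖ ^ 2 = ‖w‖ ^ 2 + ‖ζ‖ ^ 2 - 2 * (w * conj ζ).re := by
    rw [Complex.sq_norm, Complex.sq_norm, Complex.sq_norm, Complex.normSq_sub]
  rw [h1, hζ, Complex.sub_re, Complex.one_re]
  nlinarith [norm_nonneg w]

theorem conj_mul_self_of_norm {ζ : ℂ} (hζ : ‖ζ‖ = 1) : conj ζ * ζ = 1 := by
  rw [mul_comm, Complex.mul_conj, Complex.normSq_eq_norm_sq, hζ]; simp

theorem norm_u (w ζ : ℂ) (hζ : ‖ζ‖ = 1) : ‖1 - w * conj ζ‖ = ‖w - ζ‖ := by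
  have h1 : (1 - w * conj ζ) * ζ = ζ - w := by
    have := conj_mul_self_of_norm hζ
    linear_combination (-w) * this
  calc ‖1 - w * conj ζ‖ = ‖1 - w * conj ζ‖ * ‖ζ‖ := by rw [hζ, mul_one]
    _ = ‖(1 - w * conj ζ) * ζ‖ := (norm_mul _ _).symm
    _ = ‖w - ζ‖ := by rw [h1, norm_sub_rev]

theorem re_ge (w ζ : ℂ) (hζ : ‖ζ‖ = 1) : 1 - ‖w‖ ≤ (1 - w * conj ζ).re := by
  rw [Complex.sub_re, Complex.one_re]
  have h1 : (w * conj ζ).re ≤ ‖w * conj ζ‖ := Complex.re_le_norm _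
  rw [norm_mul, Complex.norm_conj, hζ, mul_one] at h1
  linarith

/-- TARGET 1. -/
theorem re_pos (w ζ : ℂ) (hw : ‖w‖ ≤ 1) (hζ : ‖ζ‖ = 1) (hne : w ≠ ζ) : 0 < (1 - w * conj ζ).re := by
  have h1 := sq_le_two_re w ζ hw hζ
  have h2 : 0 < ‖w - ζ‖ := norm_pos_iff.2 (sub_ne_zero.2 hne)
  nlinarith

theorem mA_mB (g : SL(2, ℝ)) : ‖mA g‖ ^ 2 - ‖mB g‖ ^ 2 = 4 := by
  have hdet : g 0 0 * g 1 1 - g 0 1 * g 1 0 = 1 := by
    have := g.det_coe
    rw [Matrix.det_fin_two] at this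
    exact this
  rw [Complex.sq_norm, Complex.sq_norm, Complex.normSq_apply, Complex.normSq_apply]
  unfold mA mB
  simp only [Complex.add_re, Complex.sub_re, Complex.add_im, Complex.sub_im, Complex.mul_re,
    Complex.mul_im, Complex.ofReal_re, Complex.ofReal_im, Complex.I_re, Complex.I_im]
  linear_combination 4 * hdet

/-- TARGET 2. Equivariance of the slow coordinates. -/
theorem mob_Ff (g : SL(2, ℝ)) (η : ℂ) (hη : ‖η‖ = 1) (ε : ℝ) (hε : 0 < ε) :
    ∃ δ > 0, ∀ w : ℂ, ‖w‖ ≤ 1 → w ≠ η → ‖w - η‖ < δ →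
      |Ff (1 - mob g w * conj (mob g η)) - Ff (1 - w * conj η)| ≤ ε := by
  have hAB := mA_mB g
  set a : ℝ := ‖mA g‖ with ha
  set b : ℝ := ‖mB g‖ with hb
  have ha0 : 0 ≤ a := norm_nonneg _
  have hb0 : 0 ≤ b := norm_nonneg _
  have hab : b < a := by nlinarith
  have hden : ∀ w : ℂ, ‖w‖ ≤ 1 → a - b ≤ ‖conj (mB g) * w + conj (mA g)‖ := by
    intro w hw
    have h1 : ‖conj (mA g)‖ ≤ ‖conj (mB g) * w + conj (mA g)‖ + ‖conj (mB g) * w‖ := by
      calc ‖conj (mA g)‖ = ‖(conj (mB g) * w + conj (mA g)) - conj (mB g) * w‖ := by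
            congr 1; ring
        _ ≤ _ := norm_sub_le _ _
    rw [norm_mul, Complex.norm_conj, Complex.norm_conj] at h1
    have h2 : ‖mB g‖ * ‖w‖ ≤ ‖mB g‖ := mul_le_of_le_one_right (norm_nonneg _) hw
    rw [← ha, ← hb] at *
    linarith
  have hden' : ∀ w : ℂ, ‖w‖ ≤ 1 → ‖conj (mB g) * w + conj (mA g)‖ ≤ a + b := by
    intro w hw
    refine (norm_add_le _ _).trans ?_
    rw [norm_mul, Complex.norm_conj, Complex.norm_conj]
    have h2 : ‖mB g‖ * ‖w‖ ≤ ‖mB g‖ := mul_le_of_le_one_right (norm_nonneg _) hw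
    linarith
  set dη : ℂ := conj (mB g) * η + conj (mA g) with hdη
  have hdη0 : dη ≠ 0 := mob_den_ne g η hη.le
  have hdηn : 0 < ‖dη‖ := norm_pos_iff.2 hdη0
  set t : ℝ := 4 / ‖dη‖ ^ 2 with ht
  have ht0 : 0 < t := by positivity
  set C1 : ℝ := t * b / (a - b) with hC1
  have hC10 : 0 ≤ C1 := div_nonneg (mul_nonneg ht0.le hb0) (by linarith)
  set C2 : ℝ := (a + b) ^ 2 / 4 with hC2
  obtain ⟨δ, hδ, hF⟩ := Ff_close (2 * C1 * (1 + C2 ^ 2)) (max t (max (1 / t) 1))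
    ((le_max_right _ _).trans (le_max_right _ _)) ε hε
  refine ⟨δ, hδ, ?_⟩
  intro w hw hwη hwδ
  have hmη : ‖mob g η‖ = 1 := (norm_mob_eq_one_iff g η hη.le).2 hη
  have hmw : ‖mob g w‖ ≤ 1 := norm_mob_le g w hw
  set dw : ℂ := conj (mB g) * w + conj (mA g) with hdw
  have hdw0 : dw ≠ 0 := mob_den_ne g w hw
  have hdwn : 0 < ‖dw‖ := norm_pos_iff.2 hdw0
  have hms := mob_sub g w η hw hη.le
  rw [← hdη, ← hdw] at hms
  have hηη := conj_mul_self_of_norm hη
  -- conj of mob η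
  have hcd : conj dη = mB g * conj η + mA g := by
    rw [hdη, map_add, map_mul, Complex.conj_conj, Complex.conj_conj]
  have hcd0 : conj dη ≠ 0 := by
    intro h
    apply hdη0
    have := congrArg conj h
    rwa [Complex.conj_conj, map_zero] at this
  have hζ : mob g η = η * conj dη / dη := by
    unfold mob
    rw [← hdη, hcd]
    congr 1
    linear_combination (-mB g) * hηη
  have hcζ : conj (mob g η) = conj η * dη / conj dη := by
    rw [hζ, map_div₀, map_mul, Complex.conj_conj]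
  have hv : 1 - mob g w * conj (mob g η) = 4 * (1 - w * conj η) / (dw * conj dη) := by
    have h1 : mob g η * conj (mob g η) = 1 := by
      rw [mul_comm]; exact conj_mul_self_of_norm hmη
    have h2 : 1 - mob g w * conj (mob g η) = -(mob g w - mob g η) * conj (mob g η) := by
      rw [← h1]; ring
    rw [h2, hms, hcζ]
    field_simp
    linear_combination hηη
  have hu_re := re_pos w η hw hη hwη
  have hmne : mob g w ≠ mob g η := by
    intro h
    rw [h, sub_self] at hms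
    have h3 : 4 * (w - η) / (dw * dη) ≠ 0 := by
      apply div_ne_zero
      · exact mul_ne_zero (by norm_num) (sub_ne_zero.2 hwη)
      · exact mul_ne_zero hdw0 hdη0
    exact h3 hms.symm
  have hv_re := re_pos (mob g w) (mob g η) hmw hmη hmne
  have hu_sq := sq_le_two_re w η hw hη
  have hv_sq := sq_le_two_re (mob g w) (mob g η) hmw hmη
  rw [← norm_u w η hη] at hu_sq hwδ
  rw [← norm_u (mob g w) (mob g η) hmη] at hv_sq
  set u : ℂ := 1 - w * conj η with hu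
  set v : ℂ := 1 - mob g w * conj (mob g η) with hvdef
  have htu : (t : ℂ) = 4 / (dη * conj dη) := by
    rw [ht, Complex.mul_conj, Complex.normSq_eq_norm_sq]
    push_cast
    rfl
  have hdiff : (t : ℂ) * u - v = (t : ℂ) * u * (conj (mB g) * (w - η)) / dw := by
    rw [hv, htu]
    have h5 : conj (mB g) * (w - η) = dw - dη := by rw [hdw, hdη]; ring
    rw [h5]
    field_simp
  clear_value t C1 C2
  have hnd : ‖(t : ℂ) * u - v‖ ≤ C1 * ‖u‖ ^ 2 := by
    rw [hdiff, norm_div, norm_mul, norm_mul, norm_mul, Complex.norm_conj, Complex.norm_real,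
      Real.norm_of_nonneg ht0.le, ← norm_u w η hη, ← hb, ← hu]
    rw [div_le_iff₀ hdwn, hC1]
    have h6 : a - b ≤ ‖dw‖ := hden w hw
    have h7 : 0 < a - b := by linarith
    rw [div_mul_eq_mul_div, div_mul_eq_mul_div, le_div_iff₀ h7]
    have h8 : 0 ≤ t * b * ‖u‖ ^ 2 := by positivity
    nlinarith [mul_le_mul_of_nonneg_left h6 h8]
  have huv : ‖u‖ ≤ C2 * ‖v‖ := by
    rw [hv, norm_div, norm_mul, norm_mul, Complex.norm_conj]
    have h6 : ‖dw‖ ≤ a + b := hden' w hw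
    have h7 : ‖dη‖ ≤ a + b := hden' η hη.le
    have h8 : ‖dw‖ * ‖dη‖ ≤ (a + b) ^ 2 := by
      have := mul_le_mul h6 h7 (norm_nonneg _) (by linarith)
      nlinarith
    have h9 : ‖(4 : ℂ)‖ = 4 := by simp
    rw [h9, hC2, mul_div_assoc', le_div_iff₀ (by positivity)]
    nlinarith [mul_le_mul_of_nonneg_left h8 (norm_nonneg u)]
  have hC20 : 0 ≤ C2 := by rw [hC2]; positivity
  have hb1 : ‖(t : ℂ) * u - v‖ ≤ 2 * C1 * (1 + C2 ^ 2) * u.re := by
    refine hnd.trans ?_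
    have h6 : C1 * ‖u‖ ^ 2 ≤ C1 * (2 * u.re) := mul_le_mul_of_nonneg_left hu_sq hC10
    have h7 : 0 ≤ C1 * C2 ^ 2 * u.re := mul_nonneg (mul_nonneg hC10 (sq_nonneg _)) hu_re.le
    have h8 : 2 * C1 * (1 + C2 ^ 2) * u.re = C1 * (2 * u.re) + 2 * (C1 * C2 ^ 2 * u.re) := by ring
    rw [h8]
    linarith
  have hb2 : ‖(t : ℂ) * u - v‖ ≤ 2 * C1 * (1 + C2 ^ 2) * v.re := by
    refine hnd.trans ?_
    have h5 : ‖u‖ ^ 2 ≤ C2 ^ 2 * ‖v‖ ^ 2 := by
      have := pow_le_pow_left₀ (norm_nonneg u) huv 2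
      rwa [mul_pow] at this
    have h6 : C2 ^ 2 * ‖v‖ ^ 2 ≤ C2 ^ 2 * (2 * v.re) := mul_le_mul_of_nonneg_left hv_sq (by positivity)
    have h7 : C1 * ‖u‖ ^ 2 ≤ C1 * (C2 ^ 2 * (2 * v.re)) := mul_le_mul_of_nonneg_left (h5.trans h6) hC10
    have h8 : 0 ≤ C1 * v.re := mul_nonneg hC10 hv_re.le
    have h9 : 2 * C1 * (1 + C2 ^ 2) * v.re = C1 * (C2 ^ 2 * (2 * v.re)) + 2 * (C1 * v.re) := by ring
    rw [h9]
    linarith
  have hK1 : 1 / max t (max (1 / t) 1) ≤ t := by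
    rw [div_le_iff₀ (by positivity)]
    have h5 : 1 / t ≤ max t (max (1 / t) 1) := (le_max_left _ _).trans (le_max_right _ _)
    have h6 := mul_le_mul_of_nonneg_left h5 ht0.le
    rwa [mul_one_div_cancel ht0.ne'] at h6
  rw [abs_sub_comm]
  exact hF u v t hK1 (le_max_left _ _) hu_re hv_re hwδ hb1 hb2

theorem Ff_continuousOn (r : ℝ) (hr : 0 < r) :
    ContinuousOn Ff {u : ℂ | ‖1 - u‖ ≤ 1 ∧ r ≤ ‖u‖} := by
  intro u hu
  have hu0 : 0 < ‖u‖ := lt_of_lt_of_le hr hu.2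
  have hre : 0 < u.re := by
    have h1 : ‖1 - u‖ ^ 2 = 1 + ‖u‖ ^ 2 - 2 * u.re := by
      rw [Complex.sq_norm, Complex.sq_norm, Complex.normSq_sub]
      simp
    have h2 : ‖1 - u‖ ^ 2 ≤ 1 := by nlinarith [norm_nonneg (1 - u), hu.1]
    nlinarith
  apply ContinuousAt.continuousWithinAt
  have hN : ContinuousAt Nf u := by
    unfold Nf
    exact Real.continuous_arsinh.continuousAt.comp
      (Complex.continuous_im.continuousAt.div Complex.continuous_re.continuousAt hre.ne')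
  have hD : ContinuousAt Df u := by
    unfold Df
    have h1 : ContinuousAt (fun u : ℂ => ‖u‖ / 2) u := by fun_prop
    have h2 : ContinuousAt (fun u : ℂ => Real.log (‖u‖ / 2)) u := h1.log (by positivity)
    exact (continuousAt_const.add h2.abs).sqrt
  have hD0 : Df u ≠ 0 := by
    unfold Df
    have : 0 < 1 + |Real.log (‖u‖ / 2)| := by positivity
    exact (Real.sqrt_pos.2 this).ne'
  unfold Ff
  exact continuousAt_const.max (continuousAt_const.min (hN.div hD hD0))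

theorem tanh_mono_aux {x y : ℝ} (h : x ≤ y) : Real.tanh x ≤ Real.tanh y := by
  by_contra hc
  push Not at hc
  have := Real.artanh_lt_artanh (Real.neg_one_lt_tanh y) (Real.tanh_lt_one x) hc
  rw [Real.artanh_tanh, Real.artanh_tanh] at this
  linarith

/-- TARGET 3. The slow coordinates vary slowly at infinity. -/
theorem higson (ζ : ℂ) (hζ : ‖ζ‖ = 1) (R ε : ℝ) (hε : 0 < ε) :
    ∃ ρ < 1, ∀ z z' : ℍ, dist z z' ≤ R → ρ ≤ ‖cay z‖ →
      ‖cay z - cay z'‖ ≤ ε ∧ |Ff (1 - cay z * conj ζ) - Ff (1 - cay z' * conj ζ)| ≤ ε := by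
  set k : ℝ := max 0 (Real.tanh (R / 2)) with hk
  have hk1 : k < 1 := max_lt one_pos (Real.tanh_lt_one _)
  have hk0 : 0 ≤ k := le_max_left _ _
  set C : ℝ := 2 * k / (1 - k) with hC
  have hC0 : 0 ≤ C := div_nonneg (by linarith) (by linarith)
  -- comparison
  have hcmp : ∀ z z' : ℍ, dist z z' ≤ R → ‖cay z - cay z'‖ ≤ C * (1 - ‖cay z‖) := by
    intro z z' hd
    have h1 := cay_dist_le z z'
    have ht : Real.tanh (dist z z' / 2) ≤ k := by
      refine le_trans ?_ (le_max_right _ _)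
      exact tanh_mono_aux (by linarith)
    have h2 : ‖1 - conj (cay z) * cay z'‖ ≤ (1 - ‖cay z‖ ^ 2) + ‖cay z‖ * ‖cay z - cay z'‖ := by
      have h3 : 1 - conj (cay z) * cay z' =
          ((1 - ‖cay z‖ ^ 2 : ℝ) : ℂ) + conj (cay z) * (cay z - cay z') := by
        have h4 : conj (cay z) * cay z = ((‖cay z‖ ^ 2 : ℝ) : ℂ) := by
          rw [mul_comm, Complex.mul_conj, Complex.normSq_eq_norm_sq]
        rw [Complex.ofReal_sub, ← h4]
        push_cast
        ring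
      rw [h3]
      refine (norm_add_le _ _).trans ?_
      rw [norm_mul, Complex.norm_conj, Complex.norm_real, Real.norm_of_nonneg]
      have := norm_cay_lt z
      nlinarith [norm_nonneg (cay z)]
    have hn := norm_cay_lt z
    have hn0 := norm_nonneg (cay z)
    have hx0 := norm_nonneg (cay z - cay z')
    have hy0 := norm_nonneg (1 - conj (cay z) * cay z')
    have h5 : ‖cay z - cay z'‖ ≤ k * ‖1 - conj (cay z) * cay z'‖ := by
      rw [h1]; exact mul_le_mul_of_nonneg_right ht hy0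
    have h6 : ‖cay z - cay z'‖ ≤ k * ((1 - ‖cay z‖ ^ 2) + ‖cay z‖ * ‖cay z - cay z'‖) :=
      h5.trans (mul_le_mul_of_nonneg_left h2 hk0)
    have h7 : ‖cay z‖ * ‖cay z - cay z'‖ ≤ ‖cay z - cay z'‖ := by nlinarith
    have h8 : 1 - ‖cay z‖ ^ 2 ≤ 2 * (1 - ‖cay z‖) := by nlinarith
    have h9 : k * ((1 - ‖cay z‖ ^ 2) + ‖cay z‖ * ‖cay z - cay z'‖) ≤
        k * (2 * (1 - ‖cay z‖) + ‖cay z - cay z'‖) :=
      mul_le_mul_of_nonneg_left (by linarith) hk0
    have h10 : (1 - k) * ‖cay z - cay z'‖ ≤ 2 * k * (1 - ‖cay z‖) := by nlinarith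
    rw [hC, div_mul_eq_mul_div, le_div_iff₀ (by linarith)]
    linarith
  obtain ⟨δ, hδ, hF⟩ := Ff_close C 1 le_rfl ε hε
  have hcomp : IsCompact {u : ℂ | ‖1 - u‖ ≤ 1 ∧ δ / 2 ≤ ‖u‖} := by
    refine (isCompact_closedBall (1 : ℂ) 1).of_isClosed_subset ?_ ?_
    · exact (isClosed_le (f := fun u : ℂ => ‖1 - u‖) (by fun_prop) continuous_const).inter
        (isClosed_le continuous_const continuous_norm)
    · intro u hu
      rw [mem_closedBall_iff_norm, norm_sub_rev]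
      exact hu.1
  have huc := hcomp.uniformContinuousOn_of_continuous (Ff_continuousOn (δ / 2) (by linarith))
  rw [Metric.uniformContinuousOn_iff] at huc
  obtain ⟨δ2, hδ2, huc⟩ := huc ε hε
  set m : ℝ := min (δ / 2) (min δ2 ε) with hm
  have hm0 : 0 < m := lt_min (by linarith) (lt_min hδ2 hε)
  refine ⟨1 - m / (C + 1), by have : 0 < m / (C + 1) := by positivity
                              linarith, ?_⟩
  intro z z' hd hz
  have hd1 : ‖cay z - cay z'‖ ≤ C * (1 - ‖cay z‖) := hcmp z z' hd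
  have hd2 : ‖cay z - cay z'‖ ≤ C * (1 - ‖cay z'‖) := by
    rw [norm_sub_rev]; exact hcmp z' z (by rw [dist_comm]; exact hd)
  have hsm : ‖cay z - cay z'‖ < m := by
    have h1 : 1 - ‖cay z‖ ≤ m / (C + 1) := by linarith
    have h2 : C * (1 - ‖cay z‖) ≤ C * (m / (C + 1)) := mul_le_mul_of_nonneg_left h1 hC0
    have h3 : C * (m / (C + 1)) < m := by
      rw [mul_div_assoc', div_lt_iff₀ (by linarith)]
      nlinarith
    linarith
  have hmδ : m ≤ δ / 2 := min_le_left _ _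
  have hmδ2 : m ≤ δ2 := (min_le_right _ _).trans (min_le_left _ _)
  have hmε : m ≤ ε := (min_le_right _ _).trans (min_le_right _ _)
  refine ⟨by linarith, ?_⟩
  have hn := norm_cay_lt z
  have hn' := norm_cay_lt z'
  have hne : cay z ≠ ζ := by
    intro h; rw [h, hζ] at hn; exact lt_irrefl _ hn
  have hne' : cay z' ≠ ζ := by
    intro h; rw [h, hζ] at hn'; exact lt_irrefl _ hn'
  have hre := re_pos (cay z) ζ hn.le hζ hne
  have hre' := re_pos (cay z') ζ hn'.le hζ hne'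
  have hg := re_ge (cay z) ζ hζ
  have hg' := re_ge (cay z') ζ hζ
  have hu1 := norm_u (cay z) ζ hζ
  have hu1' := norm_u (cay z') ζ hζ
  have hsub : ‖(1 - cay z * conj ζ) - (1 - cay z' * conj ζ)‖ = ‖cay z - cay z'‖ := by
    have : (1 - cay z * conj ζ) - (1 - cay z' * conj ζ) = -((cay z - cay z') * conj ζ) := by ring
    rw [this, norm_neg, norm_mul, Complex.norm_conj, hζ, mul_one]
  have hone : ∀ w : ℂ, ‖w‖ ≤ 1 → ‖1 - (1 - w * conj ζ)‖ ≤ 1 := by
    intro w hw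
    have : 1 - (1 - w * conj ζ) = w * conj ζ := by ring
    rw [this, norm_mul, Complex.norm_conj, hζ, mul_one]
    exact hw
  rcases lt_or_ge ‖1 - cay z * conj ζ‖ δ with hlt | hge
  · refine hF _ _ 1 (by norm_num) le_rfl hre hre' hlt ?_ ?_
    · rw [Complex.ofReal_one, one_mul, hsub]
      exact hd1.trans (mul_le_mul_of_nonneg_left hg hC0)
    · rw [Complex.ofReal_one, one_mul, hsub]
      exact hd2.trans (mul_le_mul_of_nonneg_left hg' hC0)
  · have h1 : δ / 2 ≤ ‖1 - cay z' * conj ζ‖ := by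
      have h2 : ‖1 - cay z * conj ζ‖ ≤ ‖1 - cay z' * conj ζ‖ +
          ‖(1 - cay z * conj ζ) - (1 - cay z' * conj ζ)‖ := by
        calc ‖1 - cay z * conj ζ‖ = ‖(1 - cay z' * conj ζ) +
              ((1 - cay z * conj ζ) - (1 - cay z' * conj ζ))‖ := by congr 1; ring
          _ ≤ _ := norm_add_le _ _
      rw [hsub] at h2
      linarith
    have h3 := huc _ ⟨hone _ hn.le, by linarith⟩ _ ⟨hone _ hn'.le, h1⟩ (by
      rw [dist_eq_norm, hsub]; linarith)
    rw [Real.dist_eq] at h3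
    exact h3.le

end Pool.Agent.Helper852.EZ.J5c
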