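import Mathlib
import Pool.Agent.Helper852.EZ.Defs

set_option autoImplicit false

namespace Pool.Agent.Helper852.EZ.J6

open Topology

/-- TARGET 1. -/
theorem er_ball : IsER (Metric.closedBall (0 : ℂ) 1) := by
  refine ⟨isCompact_iff_compactSpace.1 (isCompact_closedBall 0 1), 2,
    fun y => Complex.orthonormalBasisOneI.repr (y : ℂ),
    fun v => ⟨(max 1 ‖Complex.orthonormalBasisOneI.repr.symm v‖)⁻¹ •
      Complex.orthonormalBasisOneI.repr.symm v, ?_⟩, ?_, ?_, ?_⟩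
  · have h0 : (0 : ℝ) < max 1 ‖Complex.orthonormalBasisOneI.repr.symm v‖ :=
      lt_of_lt_of_le one_pos (le_max_left _ _)
    rw [mem_closedBall_zero_iff, norm_smul, norm_inv, Real.norm_of_nonneg h0.le,
      inv_mul_le_iff₀ h0, mul_one]
    exact le_max_right _ _
  · exact (Complex.orthonormalBasisOneI.repr.toHomeomorph.isEmbedding).comp
      IsEmbedding.subtypeVal
  · have hc : Continuous fun v : EuclideanSpace ℝ (Fin 2) =>
        Complex.orthonormalBasisOneI.repr.symm v :=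
      Complex.orthonormalBasisOneI.repr.symm.continuous
    refine Continuous.subtype_mk ?_ _
    refine Continuous.smul (Continuous.inv₀ (continuous_const.max hc.norm) ?_) hc
    intro v
    exact (lt_of_lt_of_le one_pos (le_max_left _ _)).ne'
  · intro y
    apply Subtype.ext
    have h1 : ‖(y : ℂ)‖ ≤ 1 := mem_closedBall_zero_iff.1 y.2
    simp only [LinearIsometryEquiv.symm_apply_apply]
    rw [max_eq_left h1, inv_one, one_smul]

theorem j3654_delta {U : Set (Metric.closedBall (0 : ℂ) 1)} (hU : IsOpen U) :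
    ∃ δ : Metric.closedBall (0 : ℂ) 1 → ℝ, Continuous δ ∧ (∀ x, 0 ≤ δ x) ∧
      (∀ x, δ x ≤ 1 / 2) ∧ (∀ x ∈ U, 0 < δ x) ∧ ∀ x ∈ U, ∀ y, dist x y ≤ δ x → y ∈ U := by
  rcases (Uᶜ).eq_empty_or_nonempty with h | h
  · refine ⟨fun _ => 1 / 2, continuous_const, fun _ => by norm_num, fun _ => le_rfl,
      fun _ _ => by norm_num, fun x _ y _ => ?_⟩
    rw [Set.compl_empty_iff] at h
    rw [h]
    trivial
  · have hcl : IsClosed Uᶜ := hU.isClosed_compl
    have hpos : ∀ x ∈ U, 0 < Metric.infDist x Uᶜ := fun x hx =>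
      (hcl.notMem_iff_infDist_pos h).1 (fun h' => h' hx)
    refine ⟨fun x => 1 / 2 * min 1 (Metric.infDist x Uᶜ), ?_, ?_, ?_, ?_, ?_⟩
    · exact continuous_const.mul (continuous_const.min (Metric.continuous_infDist_pt _))
    · intro x
      have : 0 ≤ min 1 (Metric.infDist x Uᶜ) := le_min zero_le_one Metric.infDist_nonneg
      positivity
    · intro x
      have : min 1 (Metric.infDist x Uᶜ) ≤ 1 := min_le_left _ _
      linarith
    · intro x hx
      have : 0 < min 1 (Metric.infDist x Uᶜ) := lt_min one_pos (hpos x hx)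
      positivity
    · intro x hx y hxy
      by_contra hy
      have h1 : Metric.infDist x Uᶜ ≤ dist x y := Metric.infDist_le_dist_of_mem hy
      have h2 : min 1 (Metric.infDist x Uᶜ) ≤ Metric.infDist x Uᶜ := min_le_right _ _
      have h3 := hpos x hx
      have h4 : dist x y ≤ 1 / 2 * min 1 (Metric.infDist x Uᶜ) := hxy
      linarith

theorem j3654_norm (s : ℝ) (h0 : 0 ≤ s) (h1 : s ≤ 1 / 2) (x : ℂ) :
    ‖(1 - s) • x‖ = (1 - s) * ‖x‖ := by
  rw [norm_smul, Real.norm_of_nonneg (by linarith)]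

/-- TARGET 2. -/
theorem zset_ball : IsZSet {y : Metric.closedBall (0 : ℂ) 1 | ‖(y : ℂ)‖ = 1} := by
  constructor
  · exact isClosed_eq (continuous_norm.comp continuous_subtype_val) continuous_const
  intro U hU
  obtain ⟨δ, hδc, hδ0, hδ1, hδp, hδU⟩ := j3654_delta hU
  have hs0 : ∀ (t : unitInterval) x, 0 ≤ (t : ℝ) * δ x := fun t x => mul_nonneg t.2.1 (hδ0 x)
  have hs2 : ∀ (t : unitInterval) x, (t : ℝ) * δ x ≤ δ x := fun t x =>
    mul_le_of_le_one_left (hδ0 x) t.2.2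
  have hs1 : ∀ (t : unitInterval) x, (t : ℝ) * δ x ≤ 1 / 2 := fun t x =>
    (hs2 t x).trans (hδ1 x)
  have hball : ∀ (t : unitInterval) (x : Metric.closedBall (0 : ℂ) 1),
      (1 - (t : ℝ) * δ x) • (x : ℂ) ∈ Metric.closedBall (0 : ℂ) 1 := by
    intro t x
    have h1 : ‖(x : ℂ)‖ ≤ 1 := mem_closedBall_zero_iff.1 x.2
    rw [mem_closedBall_zero_iff, j3654_norm _ (hs0 t x) (hs1 t x)]
    have := hs0 t x
    have := hs1 t x
    nlinarith [norm_nonneg (x : ℂ)]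
  have hmem : ∀ (t : unitInterval) (x : Metric.closedBall (0 : ℂ) 1), x ∈ U →
      (⟨(1 - (t : ℝ) * δ x) • (x : ℂ), hball t x⟩ : Metric.closedBall (0 : ℂ) 1) ∈ U := by
    intro t x hx
    apply hδU x hx
    rw [Subtype.dist_eq, dist_eq_norm]
    have h1 : ‖(x : ℂ)‖ ≤ 1 := mem_closedBall_zero_iff.1 x.2
    have h2 : (x : ℂ) - (1 - (t : ℝ) * δ x) • (x : ℂ) = ((t : ℝ) * δ x) • (x : ℂ) := by
      rw [sub_smul, one_smul, sub_sub_cancel]
    change ‖(x : ℂ) - (1 - (t : ℝ) * δ x) • (x : ℂ)‖ ≤ δ x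
    rw [h2, norm_smul, Real.norm_of_nonneg (hs0 t x)]
    calc (t : ℝ) * δ x * ‖(x : ℂ)‖ ≤ δ x * 1 :=
          mul_le_mul (hs2 t x) h1 (norm_nonneg _) (hδ0 x)
      _ = δ x := mul_one _
  have hnorm1 : ∀ x : Metric.closedBall (0 : ℂ) 1, x ∈ U →
      ‖(1 - ((1 : unitInterval) : ℝ) * δ x) • (x : ℂ)‖ ≠ 1 := by
    intro x hx
    rw [j3654_norm _ (hs0 1 x) (hs1 1 x)]
    have h1 : ‖(x : ℂ)‖ ≤ 1 := mem_closedBall_zero_iff.1 x.2
    have h2 := hδp x hx
    have h3 := hδ1 x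
    have h4 : ((1 : unitInterval) : ℝ) = 1 := rfl
    rw [h4, one_mul]
    intro h5
    nlinarith [norm_nonneg (x : ℂ)]
  have hnorm2 : ∀ (t : unitInterval) (x : Metric.closedBall (0 : ℂ) 1), ‖(x : ℂ)‖ ≠ 1 →
      ‖(1 - (t : ℝ) * δ x) • (x : ℂ)‖ ≠ 1 := by
    intro t x hx
    rw [j3654_norm _ (hs0 t x) (hs1 t x)]
    have h1 : ‖(x : ℂ)‖ ≤ 1 := mem_closedBall_zero_iff.1 x.2
    have h2 : ‖(x : ℂ)‖ < 1 := lt_of_le_of_ne h1 hx
    have h3 := hs0 t x
    intro h5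
    nlinarith [norm_nonneg (x : ℂ)]
  -- the maps
  set Z : Set (Metric.closedBall (0 : ℂ) 1) := {y | ‖(y : ℂ)‖ = 1} with hZ
  let inc : C(↥(U \ Z), ↥U) := ⟨fun x => ⟨x.1, x.2.1⟩, by fun_prop⟩
  let P1 : C(↥U, ↥(U \ Z)) :=
    ⟨fun x => ⟨⟨(1 - ((1 : unitInterval) : ℝ) * δ x.1) • (x.1 : ℂ), hball 1 x.1⟩,
      hmem 1 x.1 x.2, hnorm1 x.1 x.2⟩, by
      refine Continuous.subtype_mk (Continuous.subtype_mk ?_ _) _
      have : Continuous fun x : ↥U => δ x.1 := hδc.comp continuous_subtype_val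
      fun_prop⟩
  let HU : C(unitInterval × ↥U, ↥U) :=
    ⟨fun p => ⟨⟨(1 - (p.1 : ℝ) * δ p.2.1) • (p.2.1 : ℂ), hball p.1 p.2.1⟩,
      hmem p.1 p.2.1 p.2.2⟩, by
      refine Continuous.subtype_mk (Continuous.subtype_mk ?_ _) _
      have : Continuous fun p : unitInterval × ↥U => δ p.2.1 :=
        hδc.comp (continuous_subtype_val.comp continuous_snd)
      fun_prop⟩
  let HZ : C(unitInterval × ↥(U \ Z), ↥(U \ Z)) :=
    ⟨fun p => ⟨⟨(1 - (p.1 : ℝ) * δ p.2.1) • (p.2.1 : ℂ), hball p.1 p.2.1⟩,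
      hmem p.1 p.2.1 p.2.2.1, hnorm2 p.1 p.2.1 p.2.2.2⟩, by
      refine Continuous.subtype_mk (Continuous.subtype_mk ?_ _) _
      have : Continuous fun p : unitInterval × ↥(U \ Z) => δ p.2.1 :=
        hδc.comp (continuous_subtype_val.comp continuous_snd)
      fun_prop⟩
  have key0 : ∀ x : Metric.closedBall (0 : ℂ) 1,
      (1 - ((0 : unitInterval) : ℝ) * δ x) • (x : ℂ) = (x : ℂ) := by
    intro x
    have h4 : ((0 : unitInterval) : ℝ) = 0 := rfl
    rw [h4, zero_mul, sub_zero, one_smul]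
  refine ⟨⟨inc, P1, ?_, ?_⟩, fun x => rfl⟩
  · refine ContinuousMap.Homotopic.symm ⟨⟨HZ, ?_, ?_⟩⟩
    · intro x
      apply Subtype.ext
      apply Subtype.ext
      exact key0 x.1
    · intro x
      rfl
  · refine ContinuousMap.Homotopic.symm ⟨⟨HU, ?_, ?_⟩⟩
    · intro x
      apply Subtype.ext
      apply Subtype.ext
      exact key0 x.1
    · intro x
      rfl

end Pool.Agent.Helper852.EZ.J6
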