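import Mathlib
import Pool.Agent.Helper852.EZ.FDefs
import Pool.Agent.Helper852.EZ.J4

set_option autoImplicit false

namespace Pool.Agent.Helper852.EZ.J7

open Pool.Agent.Helper852.EZ.J4 (osl)

open scoped ComplexConjugate

/-- TARGET 1. -/
theorem re_pos (w ζ : ℂ) (hw : ‖w‖ ≤ 1) (hζ : ‖ζ‖ = 1) (hne : w ≠ ζ) : 0 < (1 - w * conj ζ).re := by
  have h1 : 0 < Complex.normSq (w - ζ) := Complex.normSq_pos.2 (sub_ne_zero.2 hne)
  rw [Complex.normSq_sub, Complex.normSq_eq_norm_sq, Complex.normSq_eq_norm_sq, hζ] at h1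
  have h2 : ‖w‖ ^ 2 ≤ 1 := pow_le_one₀ (norm_nonneg _) hw
  rw [Complex.sub_re, Complex.one_re]
  linarith

/-- TARGET 2. -/
theorem continuousOn_Ff : ContinuousOn Ff {u : ℂ | 0 < u.re} := by
  have hN : ContinuousOn Nf {u : ℂ | 0 < u.re} := by
    unfold Nf
    apply Real.continuous_arsinh.comp_continuousOn
    apply ContinuousOn.div Complex.continuous_im.continuousOn Complex.continuous_re.continuousOn
    intro u hu
    exact ne_of_gt hu
  have hD : ContinuousOn Df {u : ℂ | 0 < u.re} := by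
    unfold Df
    apply Real.continuous_sqrt.comp_continuousOn
    apply continuousOn_const.add
    apply ContinuousOn.abs
    apply ContinuousOn.log
    · exact (continuous_norm.div_const 2).continuousOn
    · intro u hu
      have : 0 < ‖u‖ := by
        rw [norm_pos_iff]
        rintro rfl
        simp at hu
      positivity
  have hD0 : ∀ u : ℂ, Df u ≠ 0 := by
    intro u
    unfold Df
    positivity
  unfold Ff
  exact ContinuousOn.sup continuousOn_const
    (ContinuousOn.inf continuousOn_const (hN.div hD (fun u _ => hD0 u)))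

theorem abs_Ff_le (u : ℂ) : |Ff u| ≤ 1 := by
  unfold Ff
  rw [abs_le]
  constructor
  · exact le_max_left _ _
  · apply max_le (by norm_num)
    exact min_le_left _ _

/-- TARGET 3. -/
theorem isCompact_XT (E : Set ℂ) (hE : ∀ ζ ∈ E, ‖ζ‖ = 1) : IsCompact (XT E) := by
  have hK : IsCompact ((Metric.closedBall (0 : ℂ) 1) ×ˢ
      (Set.pi Set.univ (fun _ : E => Set.Icc (-1 : ℝ) 1))) :=
    (isCompact_closedBall _ _).prod (isCompact_univ_pi (fun _ => isCompact_Icc))
  have hsub : XT E ⊆ (Metric.closedBall (0 : ℂ) 1) ×ˢ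
      (Set.pi Set.univ (fun _ : E => Set.Icc (-1 : ℝ) 1)) := by
    rintro p ⟨h1, h2⟩
    refine ⟨by simpa using h1, fun ζ _ => ?_⟩
    exact abs_le.1 (h2 ζ).1
  refine hK.of_isClosed_subset ?_ hsub
  have hset : XT E = {p | ‖p.1‖ ≤ 1} ∩ ⋂ ζ : E, ({p : ℂ × (E → ℝ) | |p.2 ζ| ≤ 1} ∩
      {p | ‖p.1‖ ≤ 1 ∧ (p.1 ≠ ζ → p.2 ζ = Ff (1 - p.1 * conj (ζ : ℂ)))}) := by
    ext p
    simp only [XT, Set.mem_ofPred_eq, Set.mem_inter_iff, Set.mem_iInter]
    constructor
    · rintro ⟨h1, h2⟩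
      exact ⟨h1, fun ζ => ⟨(h2 ζ).1, h1, (h2 ζ).2⟩⟩
    · rintro ⟨h1, h2⟩
      exact ⟨h1, fun ζ => ⟨(h2 ζ).1, (h2 ζ).2.2⟩⟩
  rw [hset]
  have hc1 : IsClosed {p : ℂ × (E → ℝ) | ‖p.1‖ ≤ 1} :=
    isClosed_le (continuous_norm.comp continuous_fst) continuous_const
  refine hc1.inter (isClosed_iInter (fun ζ => IsClosed.inter ?_ ?_))
  · exact isClosed_le (((continuous_apply ζ).comp continuous_snd).abs) continuous_const
  · apply isClosed_of_closure_subset
    intro p hp
    rw [mem_closure_iff_nhdsWithin_neBot] at hp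
    set S := {p : ℂ × (E → ℝ) | ‖p.1‖ ≤ 1 ∧ (p.1 ≠ ζ → p.2 ζ = Ff (1 - p.1 * conj (ζ : ℂ)))}
      with hS
    have hmem : ∀ᶠ q in nhdsWithin p S, q ∈ S := self_mem_nhdsWithin
    have hp1 : ‖p.1‖ ≤ 1 := by
      have ht : Filter.Tendsto (fun q : ℂ × (E → ℝ) => ‖q.1‖) (nhdsWithin p S) (nhds ‖p.1‖) :=
        ((continuous_norm.comp continuous_fst).tendsto p).mono_left nhdsWithin_le_nhds
      exact le_of_tendsto ht (hmem.mono (fun q hq => hq.1))
    refine ⟨hp1, fun hne => ?_⟩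
    have hre := re_pos p.1 ζ hp1 (hE ζ ζ.2) hne
    have hFf : ContinuousAt Ff (1 - p.1 * conj (ζ : ℂ)) :=
      continuousOn_Ff.continuousAt ((isOpen_lt continuous_const Complex.continuous_re).mem_nhds hre)
    have ht1 : Filter.Tendsto (fun q : ℂ × (E → ℝ) => q.2 ζ) (nhdsWithin p S) (nhds (p.2 ζ)) :=
      (((continuous_apply ζ).comp continuous_snd).tendsto p).mono_left nhdsWithin_le_nhds
    have hcont : ContinuousAt (fun q : ℂ × (E → ℝ) => 1 - q.1 * conj (ζ : ℂ)) p := by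
      apply Continuous.continuousAt
      exact continuous_const.sub (continuous_fst.mul continuous_const)
    have ht2 : Filter.Tendsto (fun q : ℂ × (E → ℝ) => Ff (1 - q.1 * conj (ζ : ℂ)))
        (nhdsWithin p S) (nhds (Ff (1 - p.1 * conj (ζ : ℂ)))) :=
      (ContinuousAt.comp (f := fun q : ℂ × (E → ℝ) => 1 - q.1 * conj (ζ : ℂ)) hFf
        hcont).tendsto.mono_left nhdsWithin_le_nhds
    have hev : ∀ᶠ q in nhdsWithin p S, q.1 ≠ (ζ : ℂ) := by
      have : ∀ᶠ q in nhds p, q.1 ≠ (ζ : ℂ) := (continuous_fst.continuousAt).eventually_ne hne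
      exact this.filter_mono nhdsWithin_le_nhds
    refine tendsto_nhds_unique_of_eventuallyEq ht1 ht2 ?_
    filter_upwards [hmem, hev] with q hq1 hq2
    exact hq1.2 hq2

section theta

variable {E : Set ℂ} {ω : E → ℝ}

theorem th_summable (hω : ∀ ζ, 0 < ω ζ) (hs : Summable ω) {f : E → ℝ} (hf : ∀ ζ, |f ζ| ≤ 1) :
    Summable (fun ζ => ω ζ * f ζ) := by
  apply Summable.of_norm_bounded hs
  intro ζ
  rw [Real.norm_eq_abs, abs_mul, abs_of_pos (hω ζ)]
  exact mul_le_of_le_one_right (hω ζ).le (hf ζ)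

theorem th_abs (hω : ∀ ζ, 0 < ω ζ) (hs : Summable ω) {f : E → ℝ} (hf : ∀ ζ, |f ζ| ≤ 1) :
    |∑' ζ, ω ζ * f ζ| ≤ ∑' ζ, ω ζ := by
  rw [← Real.norm_eq_abs]
  apply tsum_of_norm_bounded hs.hasSum
  intro ζ
  rw [Real.norm_eq_abs, abs_mul, abs_of_pos (hω ζ)]
  exact mul_le_of_le_one_right (hω ζ).le (hf ζ)

theorem th_exp (r t α : ℝ) : (r : ℂ) * Complex.exp (t * Complex.I) *
    conj (Complex.exp (α * Complex.I)) = (r : ℂ) * Complex.exp (((t - α : ℝ) : ℂ) * Complex.I) := by
  rw [← Complex.exp_conj, mul_assoc, ← Complex.exp_add]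
  congr 2
  simp only [map_mul, Complex.conj_ofReal, Complex.conj_I, Complex.ofReal_sub]
  ring

theorem th_key {L : ℝ} (hosl : ∀ r θ θ' a b : ℝ, 0 ≤ r → r ≤ 1 → θ < θ' → |a| ≤ 1 → |b| ≤ 1 →
    ((r : ℂ) * Complex.exp (θ * Complex.I) ≠ 1 →
      a = Ff (1 - (r : ℂ) * Complex.exp (θ * Complex.I))) →
    ((r : ℂ) * Complex.exp (θ' * Complex.I) ≠ 1 →
      b = Ff (1 - (r : ℂ) * Complex.exp (θ' * Complex.I))) →
    b - a ≤ L * (θ' - θ)) (hE : ∀ ζ ∈ E, ‖ζ‖ = 1)
    (hω : ∀ ζ, 0 < ω ζ) (hs : Summable ω) (hW : L * ∑' ζ, ω ζ ≤ 1 / 2)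
    {p p' : ℂ × (E → ℝ)} (hp : p ∈ XT E) (hp' : p' ∈ XT E) {r t t' : ℝ} (hr0 : 0 ≤ r) (hr1 : r ≤ 1)
    (htt : t < t') (h1 : p.1 = (r : ℂ) * Complex.exp (t * Complex.I))
    (h2 : p'.1 = (r : ℂ) * Complex.exp (t' * Complex.I)) :
    (∑' ζ, ω ζ * p'.2 ζ) - (∑' ζ, ω ζ * p.2 ζ) ≤ (t' - t) / 2 := by
  have hpt : ∀ ζ : E, p'.2 ζ - p.2 ζ ≤ L * (t' - t) := by
    intro ζ
    have hζ : ‖(ζ : ℂ)‖ = 1 := hE ζ ζ.2
    set α := Complex.arg (ζ : ℂ) with hα
    have hζ' : (ζ : ℂ) = Complex.exp (α * Complex.I) := by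
      have := Complex.norm_mul_exp_arg_mul_I (ζ : ℂ)
      rw [hζ, Complex.ofReal_one, one_mul] at this
      exact this.symm
    have hself : (ζ : ℂ) * conj (ζ : ℂ) = 1 := by
      rw [Complex.mul_conj, Complex.normSq_eq_norm_sq, hζ]; simp
    have h := hosl r (t - α) (t' - α) (p.2 ζ) (p'.2 ζ) hr0 hr1 (by linarith) (hp.2 ζ).1
      (hp'.2 ζ).1 (by
        intro hne
        have h3 : p.1 * conj (ζ : ℂ) =
            (r : ℂ) * Complex.exp (((t - α : ℝ) : ℂ) * Complex.I) := by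
          rw [h1, hζ', th_exp]
        rw [← h3]
        apply (hp.2 ζ).2
        intro h4
        apply hne
        rw [← h3, h4, hself]) (by
        intro hne
        have h3 : p'.1 * conj (ζ : ℂ) =
            (r : ℂ) * Complex.exp (((t' - α : ℝ) : ℂ) * Complex.I) := by
          rw [h2, hζ', th_exp]
        rw [← h3]
        apply (hp'.2 ζ).2
        intro h4
        apply hne
        rw [← h3, h4, hself])
    calc p'.2 ζ - p.2 ζ ≤ L * ((t' - α) - (t - α)) := h
      _ = L * (t' - t) := by ring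
  have hs1 := th_summable hω hs (fun ζ => (hp.2 ζ).1)
  have hs2 := th_summable hω hs (fun ζ => (hp'.2 ζ).1)
  rw [← hs2.tsum_sub hs1]
  calc ∑' ζ, (ω ζ * p'.2 ζ - ω ζ * p.2 ζ) ≤ ∑' ζ, ω ζ * (L * (t' - t)) := by
        apply Summable.tsum_le_tsum _ (hs2.sub hs1) (hs.mul_right _)
        intro ζ
        rw [← mul_sub]
        exact mul_le_mul_of_nonneg_left (hpt ζ) (hω ζ).le
    _ = (L * ∑' ζ, ω ζ) * (t' - t) := by rw [tsum_mul_right]; ring
    _ ≤ 1 / 2 * (t' - t) := mul_le_mul_of_nonneg_right hW (by linarith)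
    _ = (t' - t) / 2 := by ring

theorem th_ne (hE : ∀ ζ ∈ E, ‖ζ‖ = 1) (ζ : E) {w : ℂ} (hw : ‖w‖ < 1) : w ≠ ζ := by
  rintro h
  rw [h, hE ζ ζ.2] at hw
  exact lt_irrefl _ hw

/-- the angle -/
theorem th_repr (r t s : ℝ) : ((r : ℂ) * Complex.exp (t * Complex.I)) *
    Complex.exp (-(Complex.I * (s : ℂ))) =
    (r : ℂ) * Complex.exp (((t - s : ℝ) : ℂ) * Complex.I) := by
  rw [mul_assoc, ← Complex.exp_add]
  congr 2
  push_cast
  ring

theorem th_inj_aux {L : ℝ} (hosl : ∀ r θ θ' a b : ℝ, 0 ≤ r → r ≤ 1 → θ < θ' → |a| ≤ 1 → |b| ≤ 1 →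
    ((r : ℂ) * Complex.exp (θ * Complex.I) ≠ 1 →
      a = Ff (1 - (r : ℂ) * Complex.exp (θ * Complex.I))) →
    ((r : ℂ) * Complex.exp (θ' * Complex.I) ≠ 1 →
      b = Ff (1 - (r : ℂ) * Complex.exp (θ' * Complex.I))) →
    b - a ≤ L * (θ' - θ)) (hE : ∀ ζ ∈ E, ‖ζ‖ = 1)
    (hω : ∀ ζ, 0 < ω ζ) (hs : Summable ω) (hW : L * ∑' ζ, ω ζ ≤ 1 / 2)
    {p p' : ℂ × (E → ℝ)} (hp : p ∈ XT E) (hp' : p' ∈ XT E)
    (hle : Complex.arg p.1 ≤ Complex.arg p'.1)
    (heq : p.1 * Complex.exp (-(Complex.I * ((∑' ζ, ω ζ * p.2 ζ : ℝ) : ℂ))) =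
      p'.1 * Complex.exp (-(Complex.I * ((∑' ζ, ω ζ * p'.2 ζ : ℝ) : ℂ)))) : p.1 = p'.1 := by
  have hne1 : ∀ s : ℝ, ‖Complex.exp (-(Complex.I * (s : ℂ)))‖ = 1 := by
    intro s
    rw [show -(Complex.I * (s : ℂ)) = ((-s : ℝ) : ℂ) * Complex.I by push_cast; ring]
    exact Complex.norm_exp_ofReal_mul_I _
  have hnorm : ‖p.1‖ = ‖p'.1‖ := by
    have := congrArg norm heq
    rw [norm_mul, norm_mul, hne1, hne1, mul_one, mul_one] at this
    exact this
  set r := ‖p.1‖ with hr
  set t := Complex.arg p.1 with ht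
  set t' := Complex.arg p'.1 with ht'
  have h1 : p.1 = (r : ℂ) * Complex.exp (t * Complex.I) := (Complex.norm_mul_exp_arg_mul_I _).symm
  have h2 : p'.1 = (r : ℂ) * Complex.exp (t' * Complex.I) := by
    rw [hnorm]; exact (Complex.norm_mul_exp_arg_mul_I _).symm
  by_cases hr0 : r = 0
  · rw [h1, h2, hr0]; simp
  rcases hle.lt_or_eq with hlt | heq'
  · exfalso
    have hr1 : r ≤ 1 := hp.1
    have hk1 := th_key hosl hE hω hs hW hp hp' (norm_nonneg _) hr1 hlt h1 h2
    have hlt2 : t' < t + 2 * Real.pi := by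
      have := Complex.neg_pi_lt_arg p.1
      have := Complex.arg_le_pi p'.1
      linarith
    have h3 : p.1 = (r : ℂ) * Complex.exp (((t + 2 * Real.pi : ℝ) : ℂ) * Complex.I) := by
      rw [h1]
      congr 1
      push_cast
      rw [add_mul, Complex.exp_add, Complex.exp_two_pi_mul_I, mul_one]
    have hk2 := th_key hosl hE hω hs hW hp' hp (norm_nonneg _) hr1 hlt2 h2 h3
    rw [h1, h2, th_repr, th_repr] at heq
    have hr0' : (r : ℂ) ≠ 0 := by exact_mod_cast hr0
    have heq2 := mul_left_cancel₀ hr0' heq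
    rw [Complex.exp_eq_exp_iff_exists_int] at heq2
    obtain ⟨k, hk⟩ := heq2
    have hk' : (t - ∑' ζ, ω ζ * p.2 ζ) = (t' - ∑' ζ, ω ζ * p'.2 ζ) + k * (2 * Real.pi) := by
      have h5 : (((t - ∑' ζ, ω ζ * p.2 ζ : ℝ) : ℂ)) * Complex.I =
          ((((t' - ∑' ζ, ω ζ * p'.2 ζ) + k * (2 * Real.pi) : ℝ)) : ℂ) * Complex.I := by
        rw [hk]
        push_cast
        ring
      have h6 := mul_right_cancel₀ Complex.I_ne_zero h5
      exact_mod_cast h6
    have hpi := Real.pi_pos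
    have h7 : (k : ℝ) * (2 * Real.pi) < 0 := by linarith
    have h8 : -(2 * Real.pi) < (k : ℝ) * (2 * Real.pi) := by linarith
    have h9 : (k : ℝ) < 0 := by
      by_contra hcon
      push Not at hcon
      have : 0 ≤ (k : ℝ) * (2 * Real.pi) := by positivity
      linarith
    have h10 : (-1 : ℝ) < k := by
      by_contra hcon
      push Not at hcon
      have : (k : ℝ) * (2 * Real.pi) ≤ (-1) * (2 * Real.pi) :=
        mul_le_mul_of_nonneg_right hcon (by positivity)
      linarith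
    have h11 : k < 0 := by exact_mod_cast h9
    have h12 : -1 < k := by exact_mod_cast h10
    omega
  · rw [h1, h2, heq']

end theta

/-- TARGET 4. The blown up disc is a disc. -/
theorem exists_theta (E : Set ℂ) (hE : ∀ ζ ∈ E, ‖ζ‖ = 1) (hc : E.Countable) :
    ∃ ω : E → ℝ, (∀ ζ, 0 < ω ζ) ∧ Summable ω ∧ ∃ Θ : XT E ≃ₜ Metric.closedBall (0 : ℂ) 1,
      ∀ p : XT E, ((Θ p : Metric.closedBall (0 : ℂ) 1) : ℂ) =
        p.1.1 * Complex.exp (-(Complex.I * ((∑' ζ, ω ζ * p.1.2 ζ : ℝ) : ℂ))) := by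
  obtain ⟨L, hL, hosl⟩ := osl
  obtain ⟨ω', hω', W, hWs, hWle⟩ := hc.exists_pos_hasSum_le
    (show (0 : ℝ) < 1 / (2 * (L + 1)) by positivity)
  set ω : E → ℝ := fun ζ => ω' ζ with hωdef
  have hω : ∀ ζ, 0 < ω ζ := fun ζ => hω' ζ
  have hs : Summable ω := hWs.summable
  have hts : ∑' ζ, ω ζ = W := hWs.tsum_eq
  have hW0 : 0 ≤ W := by rw [← hts]; exact tsum_nonneg (fun ζ => (hω ζ).le)
  have hW1 : W ≤ 1 / 2 := by
    refine hWle.trans ?_
    rw [div_le_div_iff₀ (by positivity) (by norm_num)]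
    linarith
  have hLW : L * ∑' ζ, ω ζ ≤ 1 / 2 := by
    rw [hts]
    calc L * W ≤ L * (1 / (2 * (L + 1))) := mul_le_mul_of_nonneg_left hWle hL.le
      _ ≤ 1 / 2 := by
        rw [mul_one_div, div_le_div_iff₀ (by positivity) (by norm_num)]
        linarith
  have hne1 : ∀ s : ℝ, ‖Complex.exp (-(Complex.I * (s : ℂ)))‖ = 1 := by
    intro s
    rw [show -(Complex.I * (s : ℂ)) = ((-s : ℝ) : ℂ) * Complex.I by push_cast; ring]
    exact Complex.norm_exp_ofReal_mul_I _
  refine ⟨ω, hω, hs, ?_⟩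
  set T : XT E → Metric.closedBall (0 : ℂ) 1 := fun p =>
    ⟨p.1.1 * Complex.exp (-(Complex.I * ((∑' ζ, ω ζ * p.1.2 ζ : ℝ) : ℂ))), by
      rw [mem_closedBall_zero_iff, norm_mul, hne1, mul_one]
      exact p.2.1⟩ with hT
  have hSg : Continuous (fun p : XT E => ∑' ζ, ω ζ * p.1.2 ζ) := by
    apply continuous_tsum _ hs
    · intro ζ p
      rw [Real.norm_eq_abs, abs_mul, abs_of_pos (hω ζ)]
      exact mul_le_of_le_one_right (hω ζ).le (p.2.2 ζ).1
    · intro ζ
      exact continuous_const.mul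
        ((continuous_apply ζ).comp (continuous_snd.comp continuous_subtype_val))
  have hTc : Continuous T := by
    apply Continuous.subtype_mk
    apply (continuous_fst.comp continuous_subtype_val).mul
    apply Complex.continuous_exp.comp
    apply Continuous.neg
    exact continuous_const.mul (Complex.continuous_ofReal.comp hSg)
  have hinj : Function.Injective T := by
    intro p p' hpp
    have heq : p.1.1 * Complex.exp (-(Complex.I * ((∑' ζ, ω ζ * p.1.2 ζ : ℝ) : ℂ))) =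
        p'.1.1 * Complex.exp (-(Complex.I * ((∑' ζ, ω ζ * p'.1.2 ζ : ℝ) : ℂ))) :=
      congrArg Subtype.val hpp
    have h1 : p.1.1 = p'.1.1 := by
      rcases le_total (Complex.arg p.1.1) (Complex.arg p'.1.1) with h | h
      · exact th_inj_aux hosl hE hω hs hLW p.2 p'.2 h heq
      · exact (th_inj_aux hosl hE hω hs hLW p'.2 p.2 h heq.symm).symm
    have h2 : p.1.2 = p'.1.2 := by
      by_cases h0 : p.1.1 = 0
      · funext ζ
        have hζ0 : (0 : ℂ) ≠ ζ := by
          intro h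
          have := hE ζ ζ.2
          rw [← h, norm_zero] at this
          norm_num at this
        rw [(p.2.2 ζ).2 (by rw [h0]; exact hζ0), (p'.2.2 ζ).2 (by rw [← h1, h0]; exact hζ0), h1]
      · have hoff : ∀ ζ : E, p.1.1 ≠ ζ → p.1.2 ζ = p'.1.2 ζ := by
          intro ζ hζ
          rw [(p.2.2 ζ).2 hζ, (p'.2.2 ζ).2 (by rw [← h1]; exact hζ), h1]
        rw [← h1] at heq
        have heq2 := mul_left_cancel₀ h0 heq
        rw [Complex.exp_eq_exp_iff_exists_int] at heq2
        obtain ⟨k, hk⟩ := heq2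
        have hk' : (∑' ζ, ω ζ * p'.1.2 ζ) = (∑' ζ, ω ζ * p.1.2 ζ) + k * (2 * Real.pi) := by
          have h5 : Complex.I * (((∑' ζ, ω ζ * p'.1.2 ζ : ℝ) : ℂ)) =
              Complex.I * ((((∑' ζ, ω ζ * p.1.2 ζ) + k * (2 * Real.pi) : ℝ)) : ℂ) := by
            have h6 : Complex.I * (((∑' ζ, ω ζ * p'.1.2 ζ : ℝ) : ℂ)) =
              Complex.I * (((∑' ζ, ω ζ * p.1.2 ζ : ℝ) : ℂ)) + k * (2 * Real.pi * Complex.I) := by
              linear_combination hk
            rw [h6]
            push_cast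
            ring
          have h6 := mul_left_cancel₀ Complex.I_ne_zero h5
          exact_mod_cast h6
        have hb1 := th_abs hω hs (fun ζ => (p.2.2 ζ).1)
        have hb2 := th_abs hω hs (fun ζ => (p'.2.2 ζ).1)
        rw [hts] at hb1 hb2
        have hk0 : k = 0 := by
          have hpi := Real.pi_gt_three
          have hb1' := abs_le.1 hb1
          have hb2' := abs_le.1 hb2
          have h9 : (k : ℝ) < 1 := by
            by_contra hcon
            push Not at hcon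
            have : 1 * (2 * Real.pi) ≤ (k : ℝ) * (2 * Real.pi) :=
              mul_le_mul_of_nonneg_right hcon (by positivity)
            linarith [hb1'.1, hb2'.2]
          have h10 : (-1 : ℝ) < k := by
            by_contra hcon
            push Not at hcon
            have : (k : ℝ) * (2 * Real.pi) ≤ (-1) * (2 * Real.pi) :=
              mul_le_mul_of_nonneg_right hcon (by positivity)
            linarith [hb1'.2, hb2'.1]
          have h11 : k < 1 := by exact_mod_cast h9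
          have h12 : -1 < k := by exact_mod_cast h10
          omega
        rw [hk0] at hk'
        simp only [Int.cast_zero, zero_mul, add_zero] at hk'
        funext ζ
        by_cases hζ : p.1.1 = ζ
        · have hs1 := th_summable hω hs (fun ζ => (p.2.2 ζ).1)
          have hs2 := th_summable hω hs (fun ζ => (p'.2.2 ζ).1)
          have h7 : ∑' η, (ω η * p'.1.2 η - ω η * p.1.2 η) = 0 := by
            rw [hs2.tsum_sub hs1, hk', sub_self]
          have h8 : ∑' η, (ω η * p'.1.2 η - ω η * p.1.2 η) = ω ζ * p'.1.2 ζ - ω ζ * p.1.2 ζ := by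
            apply tsum_eq_single ζ
            intro η hη
            have : p.1.1 ≠ η := by
              intro h
              exact hη (Subtype.ext (h.symm.trans hζ))
            rw [hoff η this, sub_self]
          rw [h8, ← mul_sub] at h7
          rcases mul_eq_zero.1 h7 with h9 | h9
          · exact absurd h9 (hω ζ).ne'
          · linarith
        · exact hoff ζ hζ
    exact Subtype.ext (Prod.ext h1 h2)
  have hcompact : CompactSpace (XT E) := isCompact_iff_compactSpace.1 (isCompact_XT E hE)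
  have hsurj : Function.Surjective T := by
    have hopen : ∀ q : ℂ, ‖q‖ < 1 → ∃ p : XT E, ((T p : Metric.closedBall (0 : ℂ) 1) : ℂ) = q := by
      intro q hq
      set r := ‖q‖ with hr
      set β := Complex.arg q with hβ
      have hr0 : 0 ≤ r := norm_nonneg _
      have hwn : ∀ t : ℝ, ‖(r : ℂ) * Complex.exp (t * Complex.I)‖ = r := by
        intro t
        rw [norm_mul, Complex.norm_exp_ofReal_mul_I, mul_one, Complex.norm_real,
          Real.norm_of_nonneg hr0]
      set F : ℝ → E → ℝ := fun t ζ => Ff (1 - (r : ℂ) * Complex.exp (t * Complex.I) * conj (ζ : ℂ))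
        with hF
      have hFc : Continuous (fun t : ℝ => ∑' ζ, ω ζ * F t ζ) := by
        apply continuous_tsum _ hs
        · intro ζ t
          rw [Real.norm_eq_abs, abs_mul, abs_of_pos (hω ζ)]
          exact mul_le_of_le_one_right (hω ζ).le (abs_Ff_le _)
        · intro ζ
          apply continuous_const.mul
          rw [continuous_iff_continuousAt]
          intro t
          have hre := re_pos ((r : ℂ) * Complex.exp (t * Complex.I)) ζ (by rw [hwn]; exact hq.le)
            (hE ζ ζ.2) (th_ne hE ζ (by rw [hwn]; exact hq))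
          have hFf : ContinuousAt Ff (1 - (r : ℂ) * Complex.exp (t * Complex.I) * conj (ζ : ℂ)) :=
            continuousOn_Ff.continuousAt
              ((isOpen_lt continuous_const Complex.continuous_re).mem_nhds hre)
          refine ContinuousAt.comp
            (f := fun t : ℝ => 1 - (r : ℂ) * Complex.exp (t * Complex.I) * conj (ζ : ℂ)) hFf ?_
          apply Continuous.continuousAt
          fun_prop
      have hFb : ∀ t, |∑' ζ, ω ζ * F t ζ| ≤ W := by
        intro t
        have := th_abs hω hs (f := F t) (fun ζ => abs_Ff_le _)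
        rw [hts] at this
        exact this
      have hIVT : ∃ t, t - ∑' ζ, ω ζ * F t ζ = β := by
        have hcont : ContinuousOn (fun t : ℝ => t - ∑' ζ, ω ζ * F t ζ)
            (Set.Icc (β - 1) (β + 1)) := (continuous_id.sub hFc).continuousOn
        have := intermediate_value_Icc (by linarith : β - 1 ≤ β + 1) hcont
        have hmem : β ∈ Set.Icc ((β - 1) - ∑' ζ, ω ζ * F (β - 1) ζ)
            ((β + 1) - ∑' ζ, ω ζ * F (β + 1) ζ) := by
          have h1 := abs_le.1 (hFb (β - 1))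
          have h2 := abs_le.1 (hFb (β + 1))
          constructor
          · linarith [h1.1]
          · linarith [h2.2]
        obtain ⟨t, _, ht⟩ := this hmem
        exact ⟨t, ht⟩
      obtain ⟨t, ht⟩ := hIVT
      refine ⟨⟨((r : ℂ) * Complex.exp (t * Complex.I), F t), ?_⟩, ?_⟩
      · refine ⟨by rw [hwn]; exact hq.le, fun ζ => ⟨abs_Ff_le _, fun _ => rfl⟩⟩
      · simp only [hT]
        rw [th_repr, ht]
        exact Complex.norm_mul_exp_arg_mul_I q
    have hrange : IsClosed (Set.range (fun p : XT E => ((T p : Metric.closedBall (0 : ℂ) 1) : ℂ))) :=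
      (isCompact_range (continuous_subtype_val.comp hTc)).isClosed
    have hsub : Metric.closedBall (0 : ℂ) 1 ⊆
        Set.range (fun p : XT E => ((T p : Metric.closedBall (0 : ℂ) 1) : ℂ)) := by
      intro q hq
      rw [← closure_ball (0 : ℂ) one_ne_zero] at hq
      refine closure_minimal ?_ hrange hq
      intro q hq
      rw [mem_ball_zero_iff] at hq
      exact hopen q hq
    intro q
    obtain ⟨p, hp⟩ := hsub q.2
    exact ⟨p, Subtype.ext hp⟩
  refine ⟨Continuous.homeoOfEquivCompactToT2 (f := Equiv.ofBijective T ⟨hinj, hsurj⟩) hTc, ?_⟩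
  intro p
  rfl

end Pool.Agent.Helper852.EZ.J7
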