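import Mathlib
import Pool.Agent.Helper852.EZ.J1
import Pool.Agent.Helper852.EZ.J2a
import Pool.Agent.Helper852.EZ.J2c
import Pool.Agent.Helper852.EZ.J3a
import Pool.Agent.Helper852.EZ.J3c
import Pool.Agent.Helper852.EZ.J4
import Pool.Agent.Helper852.EZ.J5a
import Pool.Agent.Helper852.EZ.J5b
import Pool.Agent.Helper852.EZ.J5c
import Pool.Agent.Helper852.EZ.J6
import Pool.Agent.Helper852.EZ.J7

set_option autoImplicit false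

namespace Pool.Agent.Helper852.EZ

open UpperHalfPlane Topology
open scoped MatrixGroups ComplexConjugate

theorem fixed_le_two {G : Type} [Group G] (S : Set G) (hS : HypGen S) (h : G)
    (hinf : ∀ n : ℕ, 0 < n → h ^ n ≠ 1) (ξ : Fin 3 → Bdry S)
    (hfix : ∀ i, Bdry.act h (ξ i) = ξ i) : ¬ Function.Injective ξ :=
  J1.fixed_le_two S hS h hinf ξ hfix

theorem Gam_trace (g : SL(2, ℝ)) (hg : g ∈ Gam) (h1 : g ≠ 1) : 2 < |g 0 0 + g 1 1| :=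
  J2a.Gam_trace g hg h1

theorem Gam_finite (R : ℝ) :
    {g : SL(2, ℝ) | g ∈ Gam ∧ dist (g • (UpperHalfPlane.I : ℍ)) UpperHalfPlane.I ≤ R}.Finite :=
  J2a.Gam_finite R

theorem no_fixed (g : SL(2, ℝ)) (h : 2 < |g 0 0 + g 1 1|) (z : ℍ) : g • z ≠ z :=
  J2a.no_fixed g h z

theorem Gam_cocompact : ∃ D : ℝ, ∀ z : ℍ, ∃ g ∈ Gam, dist (g • z) UpperHalfPlane.I ≤ D :=
  J2c.Gam_cocompact

theorem four_point : ∃ C : ℝ, ∀ x y z w : ℍ,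
    dist x y + dist z w ≤ max (dist x z + dist y w) (dist x w + dist y z) + C :=
  J3a.four_point

theorem geod_point (z w : ℍ) (s : ℝ) (hs0 : 0 ≤ s) (hs : s ≤ dist z w) :
    ∃ u : ℍ, dist z u = s ∧ dist u w = dist z w - s :=
  J3a.geod_point z w s hs0 hs

theorem hyp_of_action {G X : Type} [Group G] [MetricSpace X] [MulAction G X]
    (hiso : ∀ (g : G) (x y : X), dist (g • x) (g • y) = dist x y) (o : X)
    (hfin : ∀ R : ℝ, {g : G | dist (g • o) o ≤ R}.Finite)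
    (hco : ∃ D : ℝ, ∀ z : X, ∃ g : G, dist (g • z) o ≤ D)
    (hgeod : ∀ (z w : X) (s : ℝ), 0 ≤ s → s ≤ dist z w →
      ∃ u : X, dist z u = s ∧ dist u w = dist z w - s)
    (h4 : ∃ C : ℝ, ∀ x y z w : X,
      dist x y + dist z w ≤ max (dist x z + dist y w) (dist x w + dist y z) + C) :
    ∃ S : Set G, HypGen S :=
  J3c.hyp_of_action hiso o hfin hco hgeod h4

theorem mob_den_ne (g : SL(2, ℝ)) (w : ℂ) (hw : ‖w‖ ≤ 1) : conj (mB g) * w + conj (mA g) ≠ 0 :=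
  J5b.mob_den_ne g w hw

theorem mob_one (w : ℂ) : mob 1 w = w :=
  J5b.mob_one w

theorem mob_mul (g h : SL(2, ℝ)) (w : ℂ) (hw : ‖w‖ ≤ 1) : mob (g * h) w = mob g (mob h w) :=
  J5b.mob_mul g h w hw

theorem one_sub_norm_mob_sq (g : SL(2, ℝ)) (w : ℂ) (hw : ‖w‖ ≤ 1) :
    1 - ‖mob g w‖ ^ 2 = 4 * (1 - ‖w‖ ^ 2) / ‖conj (mB g) * w + conj (mA g)‖ ^ 2 :=
  J5b.one_sub_norm_mob_sq g w hw

theorem norm_mob_le (g : SL(2, ℝ)) (w : ℂ) (hw : ‖w‖ ≤ 1) : ‖mob g w‖ ≤ 1 :=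
  J5b.norm_mob_le g w hw

theorem norm_mob_eq_one_iff (g : SL(2, ℝ)) (w : ℂ) (hw : ‖w‖ ≤ 1) : ‖mob g w‖ = 1 ↔ ‖w‖ = 1 :=
  J5b.norm_mob_eq_one_iff g w hw

theorem mob_sub (g : SL(2, ℝ)) (w w' : ℂ) (hw : ‖w‖ ≤ 1) (hw' : ‖w'‖ ≤ 1) :
    mob g w - mob g w' = 4 * (w - w') /
      ((conj (mB g) * w + conj (mA g)) * (conj (mB g) * w' + conj (mA g))) :=
  J5b.mob_sub g w w' hw hw'

theorem continuousOn_mob (g : SL(2, ℝ)) : ContinuousOn (mob g) (Metric.closedBall 0 1) :=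
  J5b.continuousOn_mob g

theorem mob_cay (g : SL(2, ℝ)) (z : ℍ) : mob g (cay z) = cay (g • z) :=
  J5b.mob_cay g z

theorem norm_cay_lt (z : ℍ) : ‖cay z‖ < 1 :=
  J5b.norm_cay_lt z

theorem exists_cay_homeo : ∃ e : ℍ ≃ₜ Metric.ball (0 : ℂ) 1, ∀ z, (e z : ℂ) = cay z :=
  J5b.exists_cay_homeo

theorem cay_dist_le (z z' : ℍ) :
    ‖cay z - cay z'‖ = Real.tanh (dist z z' / 2) * ‖1 - conj (cay z) * cay z'‖ :=
  J5b.cay_dist_le z z'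

theorem re_pos (w ζ : ℂ) (hw : ‖w‖ ≤ 1) (hζ : ‖ζ‖ = 1) (hne : w ≠ ζ) : 0 < (1 - w * conj ζ).re :=
  J7.re_pos w ζ hw hζ hne

theorem mob_Ff (g : SL(2, ℝ)) (η : ℂ) (hη : ‖η‖ = 1) (ε : ℝ) (hε : 0 < ε) :
    ∃ δ > 0, ∀ w : ℂ, ‖w‖ ≤ 1 → w ≠ η → ‖w - η‖ < δ →
      |Ff (1 - mob g w * conj (mob g η)) - Ff (1 - w * conj η)| ≤ ε :=
  J5c.mob_Ff g η hη ε hε

theorem higson (ζ : ℂ) (hζ : ‖ζ‖ = 1) (R ε : ℝ) (hε : 0 < ε) :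
    ∃ ρ < 1, ∀ z z' : ℍ, dist z z' ≤ R → ρ ≤ ‖cay z‖ →
      ‖cay z - cay z'‖ ≤ ε ∧ |Ff (1 - cay z * conj ζ) - Ff (1 - cay z' * conj ζ)| ≤ ε :=
  J5c.higson ζ hζ R ε hε

theorem er_ball : IsER (Metric.closedBall (0 : ℂ) 1) :=
  J6.er_ball

theorem zset_ball : IsZSet {y : Metric.closedBall (0 : ℂ) 1 | ‖(y : ℂ)‖ = 1} :=
  J6.zset_ball

theorem continuousOn_Ff : ContinuousOn Ff {u : ℂ | 0 < u.re} :=
  J7.continuousOn_Ff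

theorem isCompact_XT (E : Set ℂ) (hE : ∀ ζ ∈ E, ‖ζ‖ = 1) : IsCompact (XT E) :=
  J7.isCompact_XT E hE

theorem exists_theta (E : Set ℂ) (hE : ∀ ζ ∈ E, ‖ζ‖ = 1) (hc : E.Countable) :
    ∃ ω : E → ℝ, (∀ ζ, 0 < ω ζ) ∧ Summable ω ∧ ∃ Θ : XT E ≃ₜ Metric.closedBall (0 : ℂ) 1,
      ∀ p : XT E, ((Θ p : Metric.closedBall (0 : ℂ) 1) : ℂ) =
        p.1.1 * Complex.exp (-(Complex.I * ((∑' ζ, ω ζ * p.1.2 ζ : ℝ) : ℂ))) :=
  J7.exists_theta E hE hc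

end Pool.Agent.Helper852.EZ
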