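import Mathlib
import Pool.Agent.Helper852.EZ.Stubs

set_option autoImplicit false

/-! The action of the group on the blown up disc. -/

namespace Pool.Agent.Helper852.EZ

open UpperHalfPlane Topology Filter
open scoped MatrixGroups ComplexConjugate

/-- The orbit of the boundary point `1`. -/
def EE : Set ℂ := {ζ | ∃ g ∈ Gam, ζ = mob g 1}

theorem EE_norm (ζ : ℂ) (h : ζ ∈ EE) : ‖ζ‖ = 1 := by
  obtain ⟨g, -, rfl⟩ := h
  rw [norm_mob_eq_one_iff g 1 (by simp)]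
  simp

theorem one_mem_EE : (1 : ℂ) ∈ EE := ⟨1, Gam.one_mem, (mob_one 1).symm⟩

theorem mob_mem_EE (g : SL(2, ℝ)) (hg : g ∈ Gam) (ζ : ℂ) (h : ζ ∈ EE) : mob g ζ ∈ EE := by
  obtain ⟨k, hk, rfl⟩ := h
  exact ⟨g * k, Gam.mul_mem hg hk, (mob_mul g k 1 (by simp)).symm⟩

theorem EE_countable : EE.Countable := by
  have h1 : {g : SL(2, ℝ) | g ∈ Gam}.Countable := by
    have : {g : SL(2, ℝ) | g ∈ Gam} ⊆ ⋃ n : ℕ, {g : SL(2, ℝ) | g ∈ Gam ∧
        dist (g • (UpperHalfPlane.I : ℍ)) UpperHalfPlane.I ≤ n} := by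
      intro g hg
      obtain ⟨n, hn⟩ := exists_nat_ge (dist (g • (UpperHalfPlane.I : ℍ)) UpperHalfPlane.I)
      exact Set.mem_iUnion.2 ⟨n, hg, hn⟩
    exact (Set.countable_iUnion fun n : ℕ => (Gam_finite (n : ℝ)).countable).mono this
  have h2 : EE ⊆ (fun g => mob g 1) '' {g : SL(2, ℝ) | g ∈ Gam} := by
    rintro ζ ⟨g, hg, rfl⟩
    exact ⟨g, hg, rfl⟩
  exact (h1.image _).mono h2

/-- The group. -/
abbrev GG : Type := ↥Gam

/-- The action on the orbit. -/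
noncomputable def gE (g : GG) (ζ : EE) : EE := ⟨mob g.1 ζ.1, mob_mem_EE g.1 g.2 ζ.1 ζ.2⟩

theorem gE_inv_eq (g : GG) (ζ : EE) (w : ℂ) (hw : ‖w‖ ≤ 1) (h : mob g.1 w = ζ) :
    ((gE g⁻¹ ζ : EE) : ℂ) = w := by
  show mob (g⁻¹ : GG).1 ζ.1 = w
  rw [← h, ← mob_mul _ _ _ hw]
  have : (g⁻¹ : GG).1 * g.1 = 1 := by
    rw [← Subgroup.coe_mul, inv_mul_cancel, Subgroup.coe_one]
  rw [this, mob_one]

theorem mob_ne_of (g : GG) (ζ : EE) (w : ℂ) (h : mob g.1 w ≠ ζ) : w ≠ ((gE g⁻¹ ζ : EE) : ℂ) := by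
  rintro rfl
  apply h
  show mob g.1 (mob (g⁻¹ : GG).1 ζ.1) = ζ
  rw [← mob_mul _ _ _ (EE_norm ζ.1 ζ.2).le]
  have : g.1 * (g⁻¹ : GG).1 = 1 := by
    rw [← Subgroup.coe_mul, mul_inv_cancel, Subgroup.coe_one]
  rw [this, mob_one]

theorem abs_Ff_le (u : ℂ) : |Ff u| ≤ 1 := by
  rw [abs_le, Ff]
  exact ⟨le_max_left _ _, max_le (by norm_num) (min_le_left _ _)⟩

open Classical in
/-- The second coordinate of the action. -/
noncomputable def actF (g : GG) (p : XT EE) (ζ : EE) : ℝ :=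
  if mob g.1 p.1.1 = ζ then p.1.2 (gE g⁻¹ ζ) else Ff (1 - mob g.1 p.1.1 * conj (ζ : ℂ))

open Classical in
theorem actF_pos (g : GG) (p : XT EE) (ζ : EE) (h : mob g.1 p.1.1 = ζ) :
    actF g p ζ = p.1.2 (gE g⁻¹ ζ) := if_pos h

open Classical in
theorem actF_neg (g : GG) (p : XT EE) (ζ : EE) (h : mob g.1 p.1.1 ≠ ζ) :
    actF g p ζ = Ff (1 - mob g.1 p.1.1 * conj (ζ : ℂ)) := if_neg h

/-- The action on the blown up disc. -/
noncomputable def actX (g : GG) (p : XT EE) : XT EE :=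
  ⟨(mob g.1 p.1.1, actF g p), by
    refine ⟨norm_mob_le _ _ p.2.1, fun ζ => ⟨?_, fun h => actF_neg g p ζ h⟩⟩
    show |actF g p ζ| ≤ 1
    by_cases h : mob g.1 p.1.1 = ζ
    · rw [actF_pos g p ζ h]
      exact (p.2.2 _).1
    · rw [actF_neg g p ζ h]
      exact abs_Ff_le _⟩

theorem actX_fst (g : GG) (p : XT EE) : (actX g p).1.1 = mob g.1 p.1.1 := rfl

theorem actX_snd (g : GG) (p : XT EE) (ζ : EE) : (actX g p).1.2 ζ = actF g p ζ := rfl

theorem XT_ext {p q : XT EE} (h1 : p.1.1 = q.1.1) (h2 : ∀ ζ : EE, p.1.1 = ζ → p.1.2 ζ = q.1.2 ζ) :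
    p = q := by
  apply Subtype.ext
  refine Prod.ext h1 (funext fun ζ => ?_)
  by_cases h : p.1.1 = ζ
  · exact h2 ζ h
  · rw [(p.2.2 ζ).2 h, (q.2.2 ζ).2 (h1 ▸ h), h1]

theorem actX_one (p : XT EE) : actX 1 p = p := by
  refine XT_ext (mob_one _) fun ζ h => ?_
  have h1 : gE 1⁻¹ ζ = ζ := by
    apply Subtype.ext
    show mob ((1 : GG)⁻¹ : GG).1 ζ.1 = ζ.1
    rw [inv_one, Subgroup.coe_one, mob_one]
  rw [actX_snd, actF_pos _ _ _ h, h1]

theorem gE_mul (g h : GG) (ζ : EE) : gE (g * h) ζ = gE g (gE h ζ) := by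
  apply Subtype.ext
  exact mob_mul _ _ _ (EE_norm ζ.1 ζ.2).le

theorem actX_mul (g h : GG) (p : XT EE) : actX (g * h) p = actX g (actX h p) := by
  refine XT_ext (mob_mul _ _ _ p.2.1) fun ζ hζ => ?_
  have h1 : mob g.1 (mob h.1 p.1.1) = ζ := by
    rw [← mob_mul _ _ _ p.2.1]; exact hζ
  rw [actX_snd, actX_snd, actF_pos _ _ _ hζ, actF_pos g _ _ h1, actX_snd]
  have h2 : mob h.1 p.1.1 = (gE g⁻¹ ζ : EE) :=
    (gE_inv_eq g ζ _ (norm_mob_le _ _ p.2.1) h1).symm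
  rw [actF_pos h _ _ h2, mul_inv_rev, gE_mul]

theorem continuous_actF (g : GG) (ζ : EE) : Continuous (fun p : XT EE => actF g p ζ) := by
  rw [continuous_iff_continuousAt]
  intro p0
  have hfst : Continuous (fun p : XT EE => p.1.1) := continuous_fst.comp continuous_subtype_val
  have hmob : Continuous (fun p : XT EE => mob g.1 p.1.1) := by
    refine (continuousOn_mob g.1).comp_continuous hfst fun p => ?_
    rw [mem_closedBall_zero_iff]
    exact p.2.1
  by_cases h : mob g.1 p0.1.1 = ζ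
  · -- the special point
    set η : EE := gE g⁻¹ ζ with hη
    have hη1 : (η : ℂ) = p0.1.1 := gE_inv_eq g ζ _ p0.2.1 h
    have hη2 : mob g.1 η = ζ := by rw [hη1, h]
    have hsnd : Continuous (fun p : XT EE => p.1.2 η) :=
      (continuous_apply η).comp (continuous_snd.comp continuous_subtype_val)
    rw [Metric.continuousAt_iff']
    intro ε hε
    obtain ⟨δ, hδ, hF⟩ := mob_Ff g.1 η (EE_norm η.1 η.2) (ε / 2) (half_pos hε)
    have e1 : ∀ᶠ p : XT EE in 𝓝 p0, dist (p.1.2 η) (p0.1.2 η) < ε / 2 :=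
      Metric.continuousAt_iff'.1 hsnd.continuousAt (ε / 2) (half_pos hε)
    have e2 : ∀ᶠ p : XT EE in 𝓝 p0, dist p.1.1 p0.1.1 < δ :=
      Metric.continuousAt_iff'.1 hfst.continuousAt δ hδ
    filter_upwards [e1, e2] with p hp1 hp2
    rw [actF_pos g p0 ζ h]
    by_cases hp : p.1.1 = η
    · have : mob g.1 p.1.1 = ζ := by rw [hp, hη2]
      rw [actF_pos g p ζ this]
      exact hp1.trans (half_lt_self hε)
    · have hne : mob g.1 p.1.1 ≠ ζ := fun hc => hp (gE_inv_eq g ζ _ p.2.1 hc).symm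
      rw [actF_neg g p ζ hne]
      have h3 := hF p.1.1 p.2.1 hp (by rw [hη1, ← dist_eq_norm]; exact hp2)
      rw [hη2, ← (p.2.2 η).2 hp] at h3
      calc dist (Ff (1 - mob g.1 p.1.1 * conj (ζ : ℂ))) (p0.1.2 η)
          ≤ dist (Ff (1 - mob g.1 p.1.1 * conj (ζ : ℂ))) (p.1.2 η) + dist (p.1.2 η) (p0.1.2 η) :=
            dist_triangle _ _ _
        _ < ε / 2 + ε / 2 := by
            refine add_lt_add_of_le_of_lt ?_ hp1
            rw [Real.dist_eq]
            exact h3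
        _ = ε := by ring
  · have hopen : ∀ᶠ p : XT EE in 𝓝 p0, mob g.1 p.1.1 ≠ ζ :=
      hmob.continuousAt.eventually_ne h
    have hcont : ContinuousAt (fun p : XT EE => Ff (1 - mob g.1 p.1.1 * conj (ζ : ℂ))) p0 := by
      have hpos := re_pos (mob g.1 p0.1.1) ζ (norm_mob_le _ _ p0.2.1) (EE_norm ζ.1 ζ.2) h
      have h1 : ContinuousAt Ff (1 - mob g.1 p0.1.1 * conj (ζ : ℂ)) :=
        continuousOn_Ff.continuousAt ((isOpen_lt continuous_const Complex.continuous_re).mem_nhds hpos)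
      exact ContinuousAt.comp (f := fun p : XT EE => 1 - mob g.1 p.1.1 * conj (ζ : ℂ)) h1
        (continuous_const.sub (hmob.mul continuous_const)).continuousAt
    refine hcont.congr ?_
    filter_upwards [hopen] with p hp
    exact (actF_neg g p ζ hp).symm

theorem continuous_actX (g : GG) : Continuous (actX g) := by
  have hfst : Continuous (fun p : XT EE => p.1.1) := continuous_fst.comp continuous_subtype_val
  have hmob : Continuous (fun p : XT EE => mob g.1 p.1.1) := by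
    refine (continuousOn_mob g.1).comp_continuous hfst fun p => ?_
    rw [mem_closedBall_zero_iff]
    exact p.2.1
  exact Continuous.subtype_mk (hmob.prodMk (continuous_pi fun ζ => continuous_actF g ζ)) _

end Pool.Agent.Helper852.EZ
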