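import Mathlib
import Pool.Agent.Helper852.EZ.Act

set_option autoImplicit false

/-! The EZ-structure on the closed disc. -/

namespace Pool.Agent.Helper852.EZ

open UpperHalfPlane Topology Filter
open scoped MatrixGroups ComplexConjugate

/-- The closed disc. -/
abbrev YY : Type := Metric.closedBall (0 : ℂ) 1

/-- The data of the homeomorphism between the blown up disc and the disc. -/
structure TData where
  om : EE → ℝ
  pos : ∀ ζ, 0 < om ζ
  sum : Summable om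
  Th : XT EE ≃ₜ YY
  eq : ∀ p : XT EE, ((Th p : YY) : ℂ) =
    p.1.1 * Complex.exp (-(Complex.I * ((∑' ζ, om ζ * p.1.2 ζ : ℝ) : ℂ)))

theorem exists_TData : Nonempty TData := by
  obtain ⟨ω, h1, h2, Θ, h3⟩ := exists_theta EE EE_norm EE_countable
  exact ⟨⟨ω, h1, h2, Θ, h3⟩⟩

variable (T : TData)

theorem TData.norm_Th (p : XT EE) : ‖((T.Th p : YY) : ℂ)‖ = ‖p.1.1‖ := by
  rw [T.eq, norm_mul, Complex.norm_exp]
  simp

/-- projection to the closed disc -/
noncomputable def TData.pi (y : YY) : ℂ := (T.Th.symm y).1.1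

theorem TData.norm_pi (y : YY) : ‖T.pi y‖ = ‖(y : ℂ)‖ := by
  have := T.norm_Th (T.Th.symm y)
  rw [Homeomorph.apply_symm_apply] at this
  exact this.symm

theorem TData.continuous_pi : Continuous T.pi :=
  (continuous_fst.comp continuous_subtype_val).comp T.Th.symm.continuous

/-- The transported action. -/
@[reducible]
noncomputable def TData.act : MulAction GG YY where
  smul g y := T.Th (actX g (T.Th.symm y))
  one_smul y := by
    show T.Th (actX 1 (T.Th.symm y)) = y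
    rw [actX_one, Homeomorph.apply_symm_apply]
  mul_smul g h y := by
    show T.Th (actX (g * h) (T.Th.symm y)) = T.Th (actX g (T.Th.symm (T.Th (actX h (T.Th.symm y)))))
    rw [Homeomorph.symm_apply_apply, actX_mul]

/-- the action as a function -/
noncomputable def TData.ac (g : GG) (y : YY) : YY := T.Th (actX g (T.Th.symm y))

theorem TData.pi_ac (g : GG) (y : YY) : T.pi (T.ac g y) = mob g.1 (T.pi y) := by
  rw [TData.pi, TData.ac, Homeomorph.symm_apply_apply, actX_fst]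
  rfl

theorem TData.continuous_ac (g : GG) : Continuous (T.ac g) :=
  T.Th.continuous.comp ((continuous_actX g).comp T.Th.symm.continuous)

/-- interior points as points of the upper half plane -/
theorem exists_cay {w : ℂ} (hw : ‖w‖ < 1) : ∃ z : ℍ, cay z = w := by
  obtain ⟨e, he⟩ := exists_cay_homeo
  refine ⟨e.symm ⟨w, by rwa [mem_ball_zero_iff]⟩, ?_⟩
  rw [← he, Homeomorph.apply_symm_apply]

theorem cay_injective : Function.Injective cay := by
  obtain ⟨e, he⟩ := exists_cay_homeo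
  intro z z' h
  rw [← he, ← he] at h
  exact e.injective (Subtype.ext h)

theorem norm_lt_of_notMem {y : YY} (h : y ∉ {y : YY | ‖(y : ℂ)‖ = 1}) : ‖(y : ℂ)‖ < 1 := by
  have h1 : ‖(y : ℂ)‖ ≤ 1 := by
    have := y.2
    rwa [mem_closedBall_zero_iff] at this
  exact lt_of_le_of_ne h1 h

/-- separation in the upper half plane -/
theorem exists_sep (z0 : ℍ) : ∃ ε > 0, ∀ g : GG, g ≠ 1 → ∀ z z' : ℍ, dist z z0 < ε → dist z' z0 < ε →
    g.1 • z ≠ z' := by
  -- finitely many elements move z0 by at most one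
  have hfin : {g : GG | dist (g.1 • z0) z0 ≤ 1}.Finite := by
    have h1 := Gam_finite (1 + 2 * dist z0 UpperHalfPlane.I)
    have h2 : (fun g : GG => g.1) '' {g : GG | dist (g.1 • z0) z0 ≤ 1} ⊆
        {g : SL(2, ℝ) | g ∈ Gam ∧ dist (g • (UpperHalfPlane.I : ℍ)) UpperHalfPlane.I ≤
          1 + 2 * dist z0 UpperHalfPlane.I} := by
      rintro _ ⟨g, hg, rfl⟩
      refine ⟨g.2, ?_⟩
      have hg' : dist (g.1 • z0) z0 ≤ 1 := hg
      calc dist (g.1 • (UpperHalfPlane.I : ℍ)) UpperHalfPlane.I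
          ≤ dist (g.1 • (UpperHalfPlane.I : ℍ)) (g.1 • z0) + dist (g.1 • z0) z0 +
            dist z0 UpperHalfPlane.I := dist_triangle4 _ _ _ _
        _ = dist UpperHalfPlane.I z0 + dist (g.1 • z0) z0 + dist z0 UpperHalfPlane.I := by
            rw [dist_smul]
        _ ≤ 1 + 2 * dist z0 UpperHalfPlane.I := by
            rw [dist_comm UpperHalfPlane.I z0]; linarith
    exact Set.Finite.of_finite_image (h1.subset h2) Subtype.val_injective.injOn
  -- minimal displacement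
  have hmin : ∃ ε > 0, ∀ g ∈ {g : GG | dist (g.1 • z0) z0 ≤ 1}, g ≠ 1 → ε ≤ dist (g.1 • z0) z0 := by
    have h3 : ∀ s : Finset GG, ∃ ε > 0, ∀ g ∈ s, g ≠ 1 → ε ≤ dist (g.1 • z0) z0 := by
      intro s
      classical
      induction s using Finset.induction_on with
      | empty => exact ⟨1, one_pos, by simp⟩
      | insert a s ha ih =>
        obtain ⟨ε, hε, h⟩ := ih
        by_cases h1 : a = 1
        · refine ⟨ε, hε, fun g hg hg1 => ?_⟩
          rcases Finset.mem_insert.1 hg with rfl | hg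
          · exact absurd h1 hg1
          · exact h g hg hg1
        · have hpos : 0 < dist (a.1 • z0) z0 := by
            rw [dist_pos]
            refine no_fixed a.1 (Gam_trace a.1 a.2 fun hc => h1 ?_) z0
            exact Subtype.ext hc
          refine ⟨min ε (dist (a.1 • z0) z0), lt_min hε hpos, fun g hg hg1 => ?_⟩
          rcases Finset.mem_insert.1 hg with rfl | hg
          · exact min_le_right _ _
          · exact (min_le_left _ _).trans (h g hg hg1)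
    obtain ⟨ε, hε, h⟩ := h3 hfin.toFinset
    exact ⟨ε, hε, fun g hg hg1 => h g (hfin.mem_toFinset.2 hg) hg1⟩
  obtain ⟨ε, hε, hmin⟩ := hmin
  refine ⟨min (ε / 2) (1 / 2), lt_min (half_pos hε) (by norm_num), fun g hg z z' hz hz' hgz => ?_⟩
  have h1 : dist (g.1 • z0) z0 < 2 * min (ε / 2) (1 / 2) := by
    calc dist (g.1 • z0) z0 ≤ dist (g.1 • z0) (g.1 • z) + dist (g.1 • z) z0 := dist_triangle _ _ _
      _ = dist z0 z + dist z' z0 := by rw [dist_smul, hgz]
      _ < 2 * min (ε / 2) (1 / 2) := by rw [dist_comm z0 z]; linarith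
  have h2 : dist (g.1 • z0) z0 ≤ 1 := by
    have := min_le_right (ε / 2) (1 / 2 : ℝ)
    linarith
  have h3 := hmin g h2 hg
  have := min_le_left (ε / 2) (1 / 2 : ℝ)
  linarith

theorem TData.cover (x : YY) (hx : x ∉ {y : YY | ‖(y : ℂ)‖ = 1}) :
    ∃ V ∈ 𝓝 x, ∀ g : GG, g ≠ 1 → Disjoint (T.ac g '' V) V := by
  obtain ⟨e, he⟩ := exists_cay_homeo
  have hlt : ‖T.pi x‖ < 1 := by
    rw [T.norm_pi]; exact norm_lt_of_notMem hx
  set z0 : ℍ := e.symm ⟨T.pi x, by rwa [mem_ball_zero_iff]⟩ with hz0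
  obtain ⟨ε, hε, hsep⟩ := exists_sep z0
  -- open set of the disc
  set B : Set ℂ := Subtype.val '' (e '' Metric.ball z0 ε) with hB
  have hBo : IsOpen B :=
    (Metric.isOpen_ball.isOpenMap_subtype_val) _ (e.isOpenMap _ Metric.isOpen_ball)
  have hmem : T.pi x ∈ B := by
    refine ⟨e z0, ⟨z0, Metric.mem_ball_self hε, rfl⟩, ?_⟩
    rw [hz0, Homeomorph.apply_symm_apply]
  refine ⟨T.pi ⁻¹' B, T.continuous_pi.continuousAt.preimage_mem_nhds (hBo.mem_nhds hmem), ?_⟩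
  intro g hg
  rw [Set.disjoint_left]
  rintro _ ⟨y, hy, rfl⟩ hy'
  obtain ⟨_, ⟨z, hz, rfl⟩, h1⟩ := hy
  obtain ⟨_, ⟨z', hz', rfl⟩, h2⟩ := hy'
  rw [T.pi_ac, ← h1, he, he, mob_cay] at h2
  exact hsep g hg z z' hz hz' (cay_injective h2).symm

theorem TData.cocompact : CompactSpace (Quot (fun a b : {y : YY // y ∉ {y : YY | ‖(y : ℂ)‖ = 1}} =>
    ∃ g : GG, T.ac g (a : YY) = (b : YY))) := by
  obtain ⟨D, hD⟩ := Gam_cocompact
  obtain ⟨e, he⟩ := exists_cay_homeo
  -- the compact set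
  set K0 : Set ℂ := cay '' Metric.closedBall UpperHalfPlane.I D with hK0
  have hK0c : IsCompact K0 := by
    have h1 : IsCompact (Metric.closedBall (UpperHalfPlane.I : ℍ) D) := isCompact_closedBall _ _
    have h2 : Continuous cay := by
      have : cay = fun z => ((e z : Metric.ball (0 : ℂ) 1) : ℂ) := funext fun z => (he z).symm
      rw [this]
      exact continuous_subtype_val.comp e.continuous
    exact h1.image h2
  have hK1 : IsCompact (T.pi ⁻¹' K0) := (hK0c.isClosed.preimage T.continuous_pi).isCompact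
  have hK1sub : T.pi ⁻¹' K0 ⊆ {y : YY | y ∉ {y : YY | ‖(y : ℂ)‖ = 1}} := by
    rintro y ⟨z, hz, hzy⟩ hy
    have h1 : ‖(y : ℂ)‖ = 1 := hy
    have h2 := norm_cay_lt z
    rw [hzy, T.norm_pi, h1] at h2
    exact lt_irrefl _ h2
  haveI : CompactSpace (T.pi ⁻¹' K0) := isCompact_iff_compactSpace.1 hK1
  let f : (T.pi ⁻¹' K0) → Quot (fun a b : {y : YY // y ∉ {y : YY | ‖(y : ℂ)‖ = 1}} =>
    ∃ g : GG, T.ac g (a : YY) = (b : YY)) := fun y => Quot.mk _ ⟨y.1, hK1sub y.2⟩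
  have hf : Continuous f := continuous_quot_mk.comp (Continuous.subtype_mk continuous_subtype_val _)
  have hsurj : Function.Surjective f := by
    intro q
    obtain ⟨⟨y, hy⟩, rfl⟩ := Quot.exists_rep q
    have hlt : ‖T.pi y‖ < 1 := by
      rw [T.norm_pi]; exact norm_lt_of_notMem hy
    obtain ⟨z, hz⟩ := exists_cay hlt
    obtain ⟨g, hg, hgz⟩ := hD z
    refine ⟨⟨T.ac ⟨g, hg⟩ y, g • z, Metric.mem_closedBall.2 hgz, ?_⟩, ?_⟩
    · rw [T.pi_ac, ← hz, mob_cay]
    · exact (Quot.sound ⟨⟨g, hg⟩, rfl⟩).symm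
  refine ⟨?_⟩
  rw [← hsurj.range_eq]
  exact isCompact_range hf

/-- far out in the plane is close to the circle -/
theorem exists_far (ρ : ℝ) (hρ : ρ < 1) : ∃ M : ℝ, ∀ z : ℍ, M < dist z UpperHalfPlane.I →
    ρ ≤ ‖cay z‖ := by
  obtain ⟨e, he⟩ := exists_cay_homeo
  have h1 : IsCompact {w : Metric.ball (0 : ℂ) 1 | ‖(w : ℂ)‖ ≤ ρ} := by
    rw [Subtype.isCompact_iff]
    have : Subtype.val '' {w : Metric.ball (0 : ℂ) 1 | ‖(w : ℂ)‖ ≤ ρ} = Metric.closedBall (0 : ℂ) ρ := by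
      ext w
      simp only [Set.mem_image, Set.mem_ofPred_eq, Subtype.exists, mem_ball_zero_iff, mem_closedBall_zero_iff,
        exists_and_left, exists_prop, exists_eq_right_right]
      constructor
      · rintro ⟨h, -⟩
        exact h
      · intro h
        exact ⟨h, lt_of_le_of_lt h hρ⟩
    rw [this]
    exact isCompact_closedBall _ _
  have h2 : IsCompact (e.symm '' {w : Metric.ball (0 : ℂ) 1 | ‖(w : ℂ)‖ ≤ ρ}) :=
    h1.image e.symm.continuous
  obtain ⟨M, hM⟩ := h2.isBounded.subset_closedBall UpperHalfPlane.I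
  refine ⟨M, fun z hz => ?_⟩
  by_contra hlt
  push Not at hlt
  have h3 : z ∈ e.symm '' {w : Metric.ball (0 : ℂ) 1 | ‖(w : ℂ)‖ ≤ ρ} :=
    ⟨e z, by show ‖(e z : ℂ)‖ ≤ ρ; rw [he]; exact hlt.le, e.symm_apply_apply z⟩
  have h4 := hM h3
  rw [Metric.mem_closedBall] at h4
  linarith

theorem norm_exp_sub_le (a b : ℝ) :
    ‖Complex.exp (-(Complex.I * (a : ℂ))) - Complex.exp (-(Complex.I * (b : ℂ)))‖ ≤ |a - b| := by
  have h : Complex.exp (-(Complex.I * (a : ℂ))) - Complex.exp (-(Complex.I * (b : ℂ))) =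
      Complex.exp (-(Complex.I * (b : ℂ))) * (Complex.exp (Complex.I * ((b - a : ℝ) : ℂ)) - 1) := by
    rw [mul_sub, mul_one, ← Complex.exp_add]
    congr 2
    push_cast
    ring
  rw [h, norm_mul]
  have h1 : ‖Complex.exp (-(Complex.I * (b : ℂ)))‖ = 1 := by
    rw [Complex.norm_exp]; simp
  rw [h1, one_mul, abs_sub_comm]
  exact Real.norm_exp_I_mul_ofReal_sub_one_le

theorem TData.dist_Th_le (p q : XT EE) (s : Finset EE) (c d : ℝ) (hc : 0 ≤ c)
    (h1 : ‖p.1.1 - q.1.1‖ ≤ c) (h2 : ∀ ζ ∈ s, |p.1.2 ζ - q.1.2 ζ| ≤ c)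
    (hd : ∑' ζ : {ζ : EE // ζ ∉ s}, T.om ζ ≤ d) :
    dist (T.Th p) (T.Th q) ≤ c + c * ∑' ζ, T.om ζ + 2 * d := by
  have hsp : ∀ r : XT EE, Summable (fun ζ => T.om ζ * r.1.2 ζ) := by
    intro r
    refine Summable.of_norm_bounded T.sum fun ζ => ?_
    rw [Real.norm_eq_abs, abs_mul, abs_of_pos (T.pos ζ)]
    exact mul_le_of_le_one_right (T.pos ζ).le (r.2.2 ζ).1
  have hA : |∑' ζ, T.om ζ * p.1.2 ζ - ∑' ζ, T.om ζ * q.1.2 ζ| ≤ c * ∑' ζ, T.om ζ + 2 * d := by
    have hsd : Summable (fun ζ => T.om ζ * |p.1.2 ζ - q.1.2 ζ|) := by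
      refine Summable.of_nonneg_of_le (fun ζ => mul_nonneg (T.pos ζ).le (abs_nonneg _))
        (fun ζ => ?_) (T.sum.mul_right 2)
      refine mul_le_mul_of_nonneg_left ?_ (T.pos ζ).le
      calc |p.1.2 ζ - q.1.2 ζ| ≤ |p.1.2 ζ| + |q.1.2 ζ| := abs_sub _ _
        _ ≤ 1 + 1 := add_le_add (p.2.2 ζ).1 (q.2.2 ζ).1
        _ = 2 := by norm_num
    calc |∑' ζ, T.om ζ * p.1.2 ζ - ∑' ζ, T.om ζ * q.1.2 ζ|
        = |∑' ζ, (T.om ζ * p.1.2 ζ - T.om ζ * q.1.2 ζ)| := by
          rw [(hsp p).tsum_sub (hsp q)]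
      _ ≤ ∑' ζ, T.om ζ * |p.1.2 ζ - q.1.2 ζ| := by
          have h3 : ∀ ζ, ‖T.om ζ * p.1.2 ζ - T.om ζ * q.1.2 ζ‖ = T.om ζ * |p.1.2 ζ - q.1.2 ζ| := by
            intro ζ
            rw [← mul_sub, Real.norm_eq_abs, abs_mul, abs_of_pos (T.pos ζ)]
          have h4 := norm_tsum_le_tsum_norm (f := fun ζ => T.om ζ * p.1.2 ζ - T.om ζ * q.1.2 ζ)
            (by simp_rw [h3]; exact hsd)
          simp_rw [h3] at h4
          exact h4
      _ = ∑ ζ ∈ s, T.om ζ * |p.1.2 ζ - q.1.2 ζ| +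
          ∑' ζ : {ζ : EE // ζ ∉ s}, T.om ζ * |p.1.2 ζ - q.1.2 ζ| :=
          (hsd.sum_add_tsum_subtype_compl s).symm
      _ ≤ c * ∑' ζ, T.om ζ + 2 * d := by
          refine add_le_add ?_ ?_
          · calc ∑ ζ ∈ s, T.om ζ * |p.1.2 ζ - q.1.2 ζ| ≤ ∑ ζ ∈ s, c * T.om ζ := by
                  refine Finset.sum_le_sum fun ζ hζ => ?_
                  rw [mul_comm]
                  exact mul_le_mul_of_nonneg_right (h2 ζ hζ) (T.pos ζ).le
              _ = c * ∑ ζ ∈ s, T.om ζ := by rw [Finset.mul_sum]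
              _ ≤ c * ∑' ζ, T.om ζ :=
                  mul_le_mul_of_nonneg_left (T.sum.sum_le_tsum s fun ζ _ => (T.pos ζ).le) hc
          · calc ∑' ζ : {ζ : EE // ζ ∉ s}, T.om ζ * |p.1.2 ζ - q.1.2 ζ|
                ≤ ∑' ζ : {ζ : EE // ζ ∉ s}, 2 * T.om ζ := by
                  refine Summable.tsum_le_tsum (fun ζ => ?_) (hsd.subtype _)
                    ((T.sum.subtype _).mul_left 2)
                  rw [mul_comm]
                  refine mul_le_mul_of_nonneg_right ?_ (T.pos _).le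
                  calc |p.1.2 ζ - q.1.2 ζ| ≤ |p.1.2 ζ| + |q.1.2 ζ| := abs_sub _ _
                    _ ≤ 1 + 1 := add_le_add (p.2.2 _).1 (q.2.2 _).1
                    _ = 2 := by norm_num
              _ = 2 * ∑' ζ : {ζ : EE // ζ ∉ s}, T.om ζ := tsum_mul_left
              _ ≤ 2 * d := by linarith
  rw [Subtype.dist_eq, dist_eq_norm, T.eq, T.eq]
  set A := ∑' ζ, T.om ζ * p.1.2 ζ
  set B := ∑' ζ, T.om ζ * q.1.2 ζ
  have h5 : p.1.1 * Complex.exp (-(Complex.I * ((A : ℝ) : ℂ))) -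
      q.1.1 * Complex.exp (-(Complex.I * ((B : ℝ) : ℂ))) =
      (p.1.1 - q.1.1) * Complex.exp (-(Complex.I * ((A : ℝ) : ℂ))) +
      q.1.1 * (Complex.exp (-(Complex.I * ((A : ℝ) : ℂ))) - Complex.exp (-(Complex.I * ((B : ℝ) : ℂ)))) := by
    ring
  rw [h5]
  refine (norm_add_le _ _).trans ?_
  rw [norm_mul, norm_mul, Complex.norm_exp]
  have h6 : Real.exp (-(Complex.I * ((A : ℝ) : ℂ))).re = 1 := by simp
  rw [h6, mul_one, add_assoc]
  refine add_le_add h1 ?_
  calc ‖q.1.1‖ * ‖Complex.exp (-(Complex.I * ((A : ℝ) : ℂ))) - Complex.exp (-(Complex.I * ((B : ℝ) : ℂ)))‖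
      ≤ 1 * |A - B| := mul_le_mul q.2.1 (norm_exp_sub_le A B) (norm_nonneg _) zero_le_one
    _ ≤ c * ∑' ζ, T.om ζ + 2 * d := by rw [one_mul]; exact hA

theorem TData.null (K : Set YY) (hK : IsCompact K) (hKZ : K ⊆ {y : YY | ‖(y : ℂ)‖ = 1}ᶜ) (ε : ℝ)
    (hε : 0 < ε) : {g : GG | ε < Metric.diam (T.ac g '' K)}.Finite := by
  obtain ⟨e, he⟩ := exists_cay_homeo
  -- the radius of K
  obtain ⟨R, hR⟩ : ∃ R : ℝ, ∀ y ∈ K, ∀ z : ℍ, cay z = T.pi y → dist z UpperHalfPlane.I ≤ R := by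
    haveI : CompactSpace K := isCompact_iff_compactSpace.1 hK
    have hlt : ∀ y : K, T.pi y.1 ∈ Metric.ball (0 : ℂ) 1 := by
      intro y
      rw [mem_ball_zero_iff, T.norm_pi]
      exact norm_lt_of_notMem (hKZ y.2)
    let φ : K → ℍ := fun y => e.symm ⟨T.pi y.1, hlt y⟩
    have hφ : Continuous φ :=
      e.symm.continuous.comp (Continuous.subtype_mk (T.continuous_pi.comp continuous_subtype_val) _)
    obtain ⟨R, hR⟩ := (isCompact_range hφ).isBounded.subset_closedBall UpperHalfPlane.I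
    refine ⟨R, fun y hy z hz => ?_⟩
    have h1 : z = φ ⟨y, hy⟩ := by
      apply cay_injective
      rw [hz, ← he, Homeomorph.apply_symm_apply]
    have h2 := hR ⟨⟨y, hy⟩, rfl⟩
    rw [← h1] at h2
    exact Metric.mem_closedBall.1 h2
  -- choice of the finite set
  set W := ∑' ζ, T.om ζ with hW
  have hW0 : 0 ≤ W := tsum_nonneg fun ζ => (T.pos ζ).le
  obtain ⟨s, hs⟩ : ∃ s : Finset EE, ∑' ζ : {ζ : EE // ζ ∉ s}, T.om ζ ≤ ε / 8 := by
    have h1 := T.sum.hasSum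
    rw [HasSum, SummationFilter.unconditional_filter] at h1
    have h2 := (Metric.tendsto_atTop.1 h1) (ε / 8) (by positivity)
    obtain ⟨s, hs⟩ := h2
    refine ⟨s, ?_⟩
    have h3 := hs s le_rfl
    have h4 := T.sum.sum_add_tsum_subtype_compl s
    rw [Real.dist_eq, abs_lt] at h3
    linarith [h3.1, h3.2]
  set c := ε / (4 * (1 + W)) with hc
  have hc0 : 0 < c := by positivity
  -- a common radius
  obtain ⟨ρ, hρ1, hρ⟩ : ∃ ρ < 1, ∀ z z' : ℍ, dist z z' ≤ 2 * R → ρ ≤ ‖cay z‖ →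
      ‖cay z - cay z'‖ ≤ c ∧ ∀ ζ ∈ s,
        |Ff (1 - cay z * conj (ζ : ℂ)) - Ff (1 - cay z' * conj (ζ : ℂ))| ≤ c := by
    classical
    have h1 : ∀ s : Finset EE, ∃ ρ < 1, ∀ z z' : ℍ, dist z z' ≤ 2 * R → ρ ≤ ‖cay z‖ →
      ‖cay z - cay z'‖ ≤ c ∧ ∀ ζ ∈ s,
        |Ff (1 - cay z * conj (ζ : ℂ)) - Ff (1 - cay z' * conj (ζ : ℂ))| ≤ c := by
      intro s
      induction s using Finset.induction_on with
      | empty =>
        obtain ⟨ρ, h1, h2⟩ := higson 1 (by simp) (2 * R) c hc0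
        exact ⟨ρ, h1, fun z z' h3 h4 => ⟨(h2 z z' h3 h4).1, by simp⟩⟩
      | insert a s ha ih =>
        obtain ⟨ρ, h1, h2⟩ := ih
        obtain ⟨ρ', h1', h2'⟩ := higson a.1 (EE_norm a.1 a.2) (2 * R) c hc0
        refine ⟨max ρ ρ', max_lt h1 h1', fun z z' h3 h4 => ?_⟩
        obtain ⟨h5, h6⟩ := h2 z z' h3 ((le_max_left _ _).trans h4)
        refine ⟨h5, fun ζ hζ => ?_⟩
        rcases Finset.mem_insert.1 hζ with rfl | hζ
        · exact (h2' z z' h3 ((le_max_right _ _).trans h4)).2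
        · exact h6 ζ hζ
    exact h1 s
  obtain ⟨M, hM⟩ := exists_far ρ hρ1
  have hfin : {g : GG | dist (g.1 • (UpperHalfPlane.I : ℍ)) UpperHalfPlane.I ≤ M + R}.Finite := by
    have h1 := Gam_finite (M + R)
    have h2 : (fun g : GG => g.1) '' {g : GG | dist (g.1 • (UpperHalfPlane.I : ℍ)) UpperHalfPlane.I ≤ M + R} ⊆
        {g : SL(2, ℝ) | g ∈ Gam ∧ dist (g • (UpperHalfPlane.I : ℍ)) UpperHalfPlane.I ≤ M + R} := by
      rintro _ ⟨g, hg, rfl⟩
      exact ⟨g.2, hg⟩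
    exact Set.Finite.of_finite_image (h1.subset h2) Subtype.val_injective.injOn
  refine hfin.subset fun g hg => ?_
  by_contra hbig
  have hbig' : M + R < dist (g.1 • (UpperHalfPlane.I : ℍ)) UpperHalfPlane.I := not_le.1 hbig
  have hg' : ε < Metric.diam (T.ac g '' K) := hg
  have hle : Metric.diam (T.ac g '' K) ≤ ε := by
    refine Metric.diam_le_of_forall_dist_le hε.le ?_
    rintro _ ⟨y, hy, rfl⟩ _ ⟨y', hy', rfl⟩
    have hlt : ‖T.pi y‖ < 1 := by rw [T.norm_pi]; exact norm_lt_of_notMem (hKZ hy)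
    have hlt' : ‖T.pi y'‖ < 1 := by rw [T.norm_pi]; exact norm_lt_of_notMem (hKZ hy')
    obtain ⟨z, hz⟩ := exists_cay hlt
    obtain ⟨z', hz'⟩ := exists_cay hlt'
    have h1 := hR y hy z hz
    have h1' := hR y' hy' z' hz'
    have h2 : dist (g.1 • z) (g.1 • z') ≤ 2 * R := by
      rw [dist_smul]
      calc dist z z' ≤ dist z UpperHalfPlane.I + dist UpperHalfPlane.I z' := dist_triangle _ _ _
        _ ≤ 2 * R := by rw [dist_comm UpperHalfPlane.I z']; linarith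
    have h3 : M < dist (g.1 • z) UpperHalfPlane.I := by
      have h4 : dist (g.1 • (UpperHalfPlane.I : ℍ)) UpperHalfPlane.I ≤
          dist (g.1 • (UpperHalfPlane.I : ℍ)) (g.1 • z) + dist (g.1 • z) UpperHalfPlane.I :=
        dist_triangle _ _ _
      rw [dist_smul, dist_comm UpperHalfPlane.I z] at h4
      linarith
    obtain ⟨h5, h6⟩ := hρ _ _ h2 (hM _ h3)
    have e1 : (actX g (T.Th.symm y)).1.1 = cay (g.1 • z) := by
      rw [actX_fst, ← mob_cay, hz]; rfl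
    have e2 : (actX g (T.Th.symm y')).1.1 = cay (g.1 • z') := by
      rw [actX_fst, ← mob_cay, hz']; rfl
    have hne : ∀ (x : ℍ) (ζ : EE), cay x ≠ ζ := by
      intro x ζ hc
      have := norm_cay_lt x
      rw [hc, EE_norm ζ.1 ζ.2] at this
      exact lt_irrefl _ this
    have h7 := T.dist_Th_le (actX g (T.Th.symm y)) (actX g (T.Th.symm y')) s c (ε / 8) hc0.le
      (by rw [e1, e2]; exact h5)
      (fun ζ hζ => by
        rw [((actX g (T.Th.symm y)).2.2 ζ).2 (by rw [e1]; exact hne _ _),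
          ((actX g (T.Th.symm y')).2.2 ζ).2 (by rw [e2]; exact hne _ _), e1, e2]
        exact h6 ζ hζ) hs
    refine h7.trans ?_
    have h8 : c + c * W = ε / 4 := by
      rw [hc]
      field_simp
    rw [← hW]
    linarith
  linarith

/-- The diagonal element of the group. -/
theorem exists_hyp : ∃ h : GG, mob h.1 1 = 1 ∧ ∀ n : ℕ, 0 < n → h ^ n ≠ 1 := by
  have h2 : √2 * √2 = (2 : ℝ) := Real.mul_self_sqrt (by norm_num)
  have hdet : (Qm (1 + 3 * 192) (3 * 136) (3 * 0) (3 * 0)).det = 1 := by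
    rw [Qm_det]
    norm_num
  refine ⟨⟨⟨Qm (1 + 3 * 192) (3 * 136) (3 * 0) (3 * 0), hdet⟩, ⟨192, 136, 0, 0, rfl⟩⟩, ?_, ?_⟩
  · have hA : mA ⟨Qm (1 + 3 * 192) (3 * 136) (3 * 0) (3 * 0), hdet⟩ = ((1154 : ℝ) : ℂ) := by
      simp [mA, Qm]
      norm_num
    have hB : mB ⟨Qm (1 + 3 * 192) (3 * 136) (3 * 0) (3 * 0), hdet⟩ = ((816 * √2 : ℝ) : ℂ) := by
      simp [mB, Qm]
      ring
    show mob ⟨Qm (1 + 3 * 192) (3 * 136) (3 * 0) (3 * 0), hdet⟩ 1 = 1
    rw [mob, hA, hB, Complex.conj_ofReal, Complex.conj_ofReal, mul_one, mul_one, add_comm]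
    apply div_self
    rw [← Complex.ofReal_add]
    have : (0 : ℝ) < 816 * √2 + 1154 := by positivity
    exact_mod_cast this.ne'
  · intro n hn hone
    have h1 : ∀ n : ℕ, ((⟨⟨Qm (1 + 3 * 192) (3 * 136) (3 * 0) (3 * 0), hdet⟩, ⟨192, 136, 0, 0, rfl⟩⟩ : GG) ^ n).1
        0 0 = (577 + 408 * √2) ^ n ∧ ((⟨⟨Qm (1 + 3 * 192) (3 * 136) (3 * 0) (3 * 0), hdet⟩,
          ⟨192, 136, 0, 0, rfl⟩⟩ : GG) ^ n).1 0 1 = 0 := by
      intro n
      induction n with
      | zero => simp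
      | succ n ih =>
        rw [pow_succ, Subgroup.coe_mul]
        simp only [Matrix.SpecialLinearGroup.coe_mul, Matrix.mul_apply, Fin.sum_univ_two]
        rw [ih.1, ih.2]
        constructor
        · simp [Qm]
          rw [pow_succ]
        · simp [Qm]
    have h3 := (h1 n).1
    rw [hone] at h3
    have h4 : (1 : ℝ) < (577 + 408 * √2) ^ n :=
      one_lt_pow₀ (by have := Real.sqrt_nonneg 2; linarith) hn.ne'
    rw [← h3] at h4
    simp at h4

/-- The EZ-structure. -/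
theorem isEZ : @IsEZStructure GG _ YY _ T.act {y : YY | ‖(y : ℂ)‖ = 1} := by
  letI := T.act
  have hac : ∀ (g : GG) (y : YY), g • y = T.ac g y := fun _ _ => rfl
  refine ⟨er_ball, zset_ball, fun g => T.continuous_ac g, ?_, ?_, ?_, ?_⟩
  · intro g y hy
    have hy' : ‖(y : ℂ)‖ = 1 := hy
    show ‖((T.ac g y : YY) : ℂ)‖ = 1
    rw [← T.norm_pi, T.pi_ac, norm_mob_eq_one_iff _ _ (by rw [T.norm_pi, hy']), T.norm_pi, hy']
  · intro x hx
    exact T.cover x hx
  · exact T.cocompact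
  · intro K hK hKZ ε hε
    exact T.null K hK hKZ ε hε

/-- three fixed points -/
theorem three_fixed : ∃ (h : GG) (y : Fin 3 → YY), (∀ n : ℕ, 0 < n → h ^ n ≠ 1) ∧
    Function.Injective y ∧ ∀ i, ‖(y i : ℂ)‖ = 1 ∧ T.ac h (y i) = y i := by
  classical
  obtain ⟨h, h1, h2⟩ := exists_hyp
  set o : EE := ⟨1, one_mem_EE⟩ with ho
  let c : Fin 3 → ℝ := ![-1, 0, 1]
  have hc : ∀ i, |c i| ≤ 1 := by
    intro i
    fin_cases i <;> simp [c]
  let p : Fin 3 → XT EE := fun i => ⟨(1, fun ζ => if ζ = o then c i else Ff (1 - 1 * conj (ζ : ℂ))), by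
    refine ⟨by simp, fun ζ => ⟨?_, fun hne => ?_⟩⟩
    · show |if ζ = o then c i else Ff (1 - 1 * conj (ζ : ℂ))| ≤ 1
      split_ifs
      · exact hc i
      · exact abs_Ff_le _
    · show (if ζ = o then c i else Ff (1 - 1 * conj (ζ : ℂ))) = _
      rw [if_neg]
      rintro rfl
      exact hne rfl⟩
  have hp1 : ∀ i, (p i).1.1 = 1 := fun i => rfl
  have hp2 : ∀ i, (p i).1.2 o = c i := fun i => if_pos rfl
  refine ⟨h, fun i => T.Th (p i), h2, ?_, ?_⟩
  · intro i j hij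
    have h3 : p i = p j := T.Th.injective hij
    have h4 : c i = c j := by rw [← hp2, ← hp2, h3]
    fin_cases i <;> fin_cases j <;> simp [c] at h4 ⊢ <;> norm_num at h4
  · intro i
    refine ⟨by rw [T.norm_Th, hp1]; simp, ?_⟩
    show T.Th (actX h (T.Th.symm (T.Th (p i)))) = T.Th (p i)
    rw [Homeomorph.symm_apply_apply]
    congr 1
    refine XT_ext (by rw [actX_fst, hp1, h1]) fun ζ hζ => ?_
    have h3 : mob h.1 (p i).1.1 = ζ := hζ
    rw [actX_snd, actF_pos _ _ _ h3]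
    have h4 : ζ = o := by
      apply Subtype.ext
      rw [← h3, hp1, h1]
    have h5 : gE h⁻¹ ζ = ζ := by
      apply Subtype.ext
      rw [gE_inv_eq h ζ 1 (by simp) (by rw [h4]; exact h1), h4]
    rw [h5]

end Pool.Agent.Helper852.EZ
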